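import Mathlib

/-!
# Torsion-free virtually poly-`ℤ` groups: definitions

`MonoidAlgebra A H` modules, twisted permutation modules, global dimension.
-/

open MonoidAlgebra CategoryTheory

namespace Pool.Agent.UPV

universe u v w

/-- projective dimension `< n` -/
abbrev Pd (R : Type u) [Ring R] (M : Type u) [AddCommGroup M] [Module R M] (n : ℕ) : Prop :=
  HasProjectiveDimensionLT (ModuleCat.of R M) n

/-- all modules have projective dimension `≤ n` -/
def GD (R : Type u) [Ring R] (n : ℕ) : Prop :=
  ∀ (M : Type u) [AddCommGroup M] [Module R M], Pd R M (n + 1)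

section
variable (A : Type u) (H : Type v) [CommRing A] [Group H]

/-- restriction of scalars to the group ring of a subgroup -/
@[reducible] noncomputable def resM (S : Subgroup H) (M : Type w) [AddCommGroup M]
    [Module (MonoidAlgebra A H) M] : Module (MonoidAlgebra A S) M :=
  Module.compHom M (MonoidAlgebra.mapDomainRingHom A S.subtype)

/-- `M` is projective over the group ring of the subgroup `S` -/
def ProjOn (S : Subgroup H) (M : Type w) [AddCommGroup M] [Module (MonoidAlgebra A H) M] : Prop :=
  @Module.Projective (MonoidAlgebra A S) _ M _ (resM A H S M)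

/-- finitely supported functions `X → M` on an `H`-set with the action `g [x] m = [g x] (g m)` -/
def Tw (_A : Type u) (_H : Type v) (X : Type v) (M : Type w) [AddCommGroup M] : Type (max v w) :=
  X →₀ M

variable (X : Type v) (M : Type w) [AddCommGroup M]

noncomputable instance : AddCommGroup (Tw A H X M) := inferInstanceAs (AddCommGroup (X →₀ M))

variable {X M} in
/-- the element `[x] m` -/
noncomputable def Tw.mk (x : X) (m : M) : Tw A H X M := Finsupp.single x m

variable [MulAction H X] [Module (MonoidAlgebra A H) M]

/-- pointwise action -/
noncomputable def twC (r : MonoidAlgebra A H) : (X →₀ M) →+ (X →₀ M) :=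
  Finsupp.mapRange.addMonoidHom (DistribSMul.toAddMonoidHom M r)

variable {X M} in
omit [MulAction H X] in
theorem twC_single (r : MonoidAlgebra A H) (x : X) (m : M) :
    twC A H X M r (Finsupp.single x m) = Finsupp.single x (r • m) := by
  simp [twC]

/-- action on the points and on the values -/
noncomputable def twG (g : H) : (X →₀ M) →+ (X →₀ M) :=
  (Finsupp.mapDomain.addMonoidHom (g • · : X → X)).comp (twC A H X M (single g 1))

variable {X M} in
theorem twG_single (g : H) (x : X) (m : M) :
    twG A H X M g (Finsupp.single x m) =
      Finsupp.single (g • x) ((single g (1 : A) : MonoidAlgebra A H) • m) := by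
  rw [twG, AddMonoidHom.comp_apply, twC_single]
  simp

/-- the coefficients act on `Tw` -/
noncomputable def twCoef : A →+* AddMonoid.End (X →₀ M) where
  toFun a := twC A H X M (single 1 a)
  map_one' := by
    refine Finsupp.addHom_ext fun x m => ?_
    rw [twC_single]
    change Finsupp.single x ((1 : MonoidAlgebra A H) • m) = Finsupp.single x m
    rw [one_smul]
  map_zero' := by
    refine Finsupp.addHom_ext fun x m => ?_
    rw [twC_single, MonoidAlgebra.single_zero, zero_smul, Finsupp.single_zero]
    rfl
  map_mul' a b := by
    refine Finsupp.addHom_ext fun x m => ?_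
    change twC A H X M (single 1 (a * b)) (Finsupp.single x m) =
      twC A H X M (single 1 a) (twC A H X M (single 1 b) (Finsupp.single x m))
    rw [twC_single, twC_single, twC_single, ← mul_smul, MonoidAlgebra.single_mul_single, one_mul]
  map_add' a b := by
    refine Finsupp.addHom_ext fun x m => ?_
    change twC A H X M (single 1 (a + b)) (Finsupp.single x m) =
      twC A H X M (single 1 a) (Finsupp.single x m) +
        twC A H X M (single 1 b) (Finsupp.single x m)
    rw [twC_single, twC_single, twC_single, ← Finsupp.single_add,
      ← add_smul, MonoidAlgebra.single_add]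

/-- the group acts on `Tw` -/
noncomputable def twAct : H →* AddMonoid.End (X →₀ M) where
  toFun g := twG A H X M g
  map_one' := by
    refine Finsupp.addHom_ext fun x m => ?_
    rw [twG_single, one_smul]
    change Finsupp.single x ((1 : MonoidAlgebra A H) • m) = Finsupp.single x m
    rw [one_smul]
  map_mul' g h := by
    refine Finsupp.addHom_ext fun x m => ?_
    change twG A H X M (g * h) (Finsupp.single x m) =
      twG A H X M g (twG A H X M h (Finsupp.single x m))
    rw [twG_single, twG_single, twG_single, ← mul_smul, ← mul_smul,
      MonoidAlgebra.single_mul_single, one_mul]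

/-- the action of the group ring on `Tw` -/
noncomputable def twHom : MonoidAlgebra A H →+* AddMonoid.End (X →₀ M) :=
  MonoidAlgebra.liftNCRingHom (twCoef A H X M) (twAct A H X M) (by
    intro a g
    refine Finsupp.addHom_ext fun x m => ?_
    change twC A H X M (single 1 a) (twG A H X M g (Finsupp.single x m)) =
      twG A H X M g (twC A H X M (single 1 a) (Finsupp.single x m))
    rw [twG_single, twC_single, twC_single, twG_single, ← mul_smul, ← mul_smul,
      MonoidAlgebra.single_mul_single, MonoidAlgebra.single_mul_single,
      one_mul, mul_one, one_mul, mul_one])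

noncomputable instance : Module (MonoidAlgebra A H) (Tw A H X M) :=
  letI : Module (MonoidAlgebra A H) (X →₀ M) := Module.compHom (X →₀ M) (twHom A H X M)
  inferInstanceAs (Module (MonoidAlgebra A H) (X →₀ M))

variable {X M} in
theorem Tw.single_smul (g : H) (a : A) (x : X) (m : M) :
    (single g a : MonoidAlgebra A H) • Tw.mk A H x m =
      Tw.mk A H (g • x) ((single g a : MonoidAlgebra A H) • m) := by
  change twHom A H X M (single g a) (Finsupp.single x m) = Finsupp.single (g • x) _
  rw [twHom, MonoidAlgebra.liftNCRingHom_single]
  change twC A H X M (single 1 a) (twG A H X M g (Finsupp.single x m)) = _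
  rw [twG_single, twC_single, ← mul_smul, MonoidAlgebra.single_mul_single, one_mul, mul_one]

variable {X M} in
omit [CommRing A] [Group H] [MulAction H X] [Module (MonoidAlgebra A H) M] in
theorem Tw.mk_add (x : X) (m m' : M) : Tw.mk A H x (m + m') = Tw.mk A H x m + Tw.mk A H x m' :=
  Finsupp.single_add _ _ _

variable {X M} in
omit [CommRing A] [Group H] [MulAction H X] [Module (MonoidAlgebra A H) M] in
/-- additive maps on `Tw` are determined by their values on the `[x] m` -/
theorem Tw.addHom_ext {N : Type*} [AddCommGroup N] {f g : Tw A H X M →+ N}
    (h : ∀ x m, f (Tw.mk A H x m) = g (Tw.mk A H x m)) : f = g :=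
  Finsupp.addHom_ext h

variable {X M} in
/-- construction of linear maps on `Tw` -/
noncomputable def Tw.lift {N : Type*} [AddCommGroup N] [Module (MonoidAlgebra A H) N]
    (f : X → M →+ N) (hf : ∀ (g : H) (a : A) (x : X) (m : M),
      f (g • x) ((single g a : MonoidAlgebra A H) • m) =
        (single g a : MonoidAlgebra A H) • f x m) :
    Tw A H X M →ₗ[MonoidAlgebra A H] N where
  toFun := Finsupp.liftAddHom f
  map_add' := map_add _
  map_smul' r z := by
    rw [RingHom.id_apply]
    induction r using MonoidAlgebra.induction_linear with
    | zero =>
      rw [zero_smul, zero_smul]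
      exact map_zero (Finsupp.liftAddHom f)
    | add p q hp hq =>
      rw [add_smul, add_smul, ← hp, ← hq]
      exact map_add (Finsupp.liftAddHom f) _ _
    | single g a =>
      have h : ((Finsupp.liftAddHom f : (X →₀ M) →+ N).comp (DistribSMul.toAddMonoidHom (Tw A H X M)
          (single g a : MonoidAlgebra A H))) = (DistribSMul.toAddMonoidHom N
          (single g a : MonoidAlgebra A H)).comp (Finsupp.liftAddHom f) := by
        refine Tw.addHom_ext (A := A) (H := H) fun x m => ?_
        change Finsupp.liftAddHom f ((single g a : MonoidAlgebra A H) • Tw.mk A H x m) =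
          (single g a : MonoidAlgebra A H) • Finsupp.liftAddHom f (Finsupp.single x m)
        rw [Tw.single_smul]
        change Finsupp.liftAddHom f (Finsupp.single _ _) = _
        rw [Finsupp.liftAddHom_apply_single, Finsupp.liftAddHom_apply_single, hf]
      exact DFunLike.congr_fun h z

variable {X M} in
theorem Tw.lift_mk {N : Type*} [AddCommGroup N] [Module (MonoidAlgebra A H) N]
    (f : X → M →+ N) (hf : ∀ (g : H) (a : A) (x : X) (m : M),
      f (g • x) ((single g a : MonoidAlgebra A H) • m) =
        (single g a : MonoidAlgebra A H) • f x m) (x : X) (m : M) :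
    Tw.lift A H f hf (Tw.mk A H x m) = f x m :=
  Finsupp.liftAddHom_apply_single f x m

end

end Pool.Agent.UPV
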