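import Mathlib

/-!
# The clique complex of a lattice with a shift

`P` a lattice, `T : P ≃o P` with `x ≤ T x`; the simplices are the finite sets `σ` whose elements
satisfy pairwise `x ≤ y ≤ T x` or `y ≤ x ≤ T y`.  For `P = ℤ^m`, `T x = x + 1`, this is the
Freudenthal triangulation of `ℝ^m`.  The augmented chain complex is exact.
-/

namespace Pool.Agent.UPV

universe v w

section
variable {P : Type v} [Lattice P]

/-- `x` and `y` are neighbours -/
def Nb (T : P ≃o P) (x y : P) : Prop := (x ≤ y ∧ y ≤ T x) ∨ (y ≤ x ∧ x ≤ T y)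

theorem Nb.symm {T : P ≃o P} {x y : P} (h : Nb T x y) : Nb T y x := Or.symm h

theorem Nb.refl {T : P ≃o P} (hT : ∀ x, x ≤ T x) (x : P) : Nb T x x := Or.inl ⟨le_rfl, hT x⟩

/-- cliques -/
def IsCl (T : P ≃o P) (σ : Finset P) : Prop := ∀ x ∈ σ, ∀ y ∈ σ, Nb T x y

theorem IsCl.mono {T : P ≃o P} {σ τ : Finset P} (h : IsCl T σ) (hτ : τ ⊆ σ) : IsCl T τ :=
  fun x hx y hy => h x (hτ hx) y (hτ hy)

/-- finite sets which are totally ordered -/
def IsCh (σ : Finset P) : Prop := ∀ x ∈ σ, ∀ y ∈ σ, x ≤ y ∨ y ≤ x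

theorem IsCl.isCh {T : P ≃o P} {σ : Finset P} (h : IsCl T σ) : IsCh σ := fun x hx y hy =>
  (h x hx y hy).imp And.left And.left

open Classical in
/-- the sign of the vertex `v` in the simplex `σ` -/
noncomputable def sg (v : P) (σ : Finset P) : ℤ := (-1) ^ (σ.filter (· < v)).card

theorem sg_mul_self (v : P) (σ : Finset P) : sg v σ * sg v σ = 1 := by
  rw [sg, ← pow_add, Even.neg_one_pow ⟨_, rfl⟩]

open Classical in
theorem sg_erase_lt {v w : P} {σ : Finset P} (hv : v ∈ σ) (h : v < w) :
    sg w (σ.erase v) = -sg w σ := by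
  rw [sg, sg]
  have h1 : (σ.erase v).filter (· < w) = (σ.filter (· < w)).erase v := by
    ext x
    simp only [Finset.mem_filter, Finset.mem_erase]
    tauto
  have h2 : v ∈ σ.filter (· < w) := Finset.mem_filter.2 ⟨hv, h⟩
  rw [h1]
  have h3 := Finset.card_erase_add_one h2
  rw [← h3, pow_succ]
  ring

open Classical in
theorem sg_erase_not {v w : P} {σ : Finset P} (h : ¬ v < w) : sg w (σ.erase v) = sg w σ := by
  rw [sg, sg]
  have h1 : (σ.erase v).filter (· < w) = σ.filter (· < w) := by
    ext x
    simp only [Finset.mem_filter, Finset.mem_erase]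
    constructor
    · rintro ⟨⟨_, h1⟩, h2⟩
      exact ⟨h1, h2⟩
    · rintro ⟨h1, h2⟩
      refine ⟨⟨?_, h1⟩, h2⟩
      rintro rfl
      exact h h2
  rw [h1]

open Classical in
theorem sg_insert_lt {v w : P} {σ : Finset P} (hw : w ∉ σ) (h : w < v) :
    sg v (insert w σ) = -sg v σ := by
  have h1 := sg_erase_lt (v := w) (w := v) (σ := insert w σ) (Finset.mem_insert_self _ _) h
  rw [Finset.erase_insert hw] at h1
  rw [h1, neg_neg]

open Classical in
theorem sg_insert_not {v w : P} {σ : Finset P} (hw : w ∉ σ) (h : ¬ w < v) :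
    sg v (insert w σ) = sg v σ := by
  have h1 := sg_erase_not (v := w) (w := v) (σ := insert w σ) h
  rw [Finset.erase_insert hw] at h1
  exact h1.symm

variable (P) (M : Type w) [AddCommGroup M]

open Classical in
/-- the boundary -/
noncomputable def bd : (Finset P →₀ M) →+ (Finset P →₀ M) :=
  Finsupp.liftAddHom fun σ => ∑ v ∈ σ, (Finsupp.singleAddHom (σ.erase v)).comp
    (DistribSMul.toAddMonoidHom M (sg v σ))

open Classical in
/-- the join with the vertex `w` -/
noncomputable def jn (w : P) : (Finset P →₀ M) →+ (Finset P →₀ M) :=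
  Finsupp.liftAddHom fun σ => if w ∈ σ then 0 else (Finsupp.singleAddHom (insert w σ)).comp
    (DistribSMul.toAddMonoidHom M (sg w σ))

variable {P M}

open Classical in
theorem bd_single (σ : Finset P) (m : M) : bd P M (Finsupp.single σ m) =
    ∑ v ∈ σ, Finsupp.single (σ.erase v) (sg v σ • m) := by
  rw [bd, Finsupp.liftAddHom_apply_single, AddMonoidHom.finsetSum_apply]
  rfl

open Classical in
theorem jn_single_mem {w : P} {σ : Finset P} (h : w ∈ σ) (m : M) :
    jn P M w (Finsupp.single σ m) = 0 := by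
  rw [jn, Finsupp.liftAddHom_apply_single, if_pos h]
  rfl

open Classical in
theorem jn_single {w : P} {σ : Finset P} (h : w ∉ σ) (m : M) :
    jn P M w (Finsupp.single σ m) = Finsupp.single (insert w σ) (sg w σ • m) := by
  rw [jn, Finsupp.liftAddHom_apply_single, if_neg h]
  rfl

open Classical in
/-- the square of the boundary vanishes on chains -/
theorem bd_bd_single {σ : Finset P} (hσ : IsCh σ) (m : M) :
    bd P M (bd P M (Finsupp.single σ m)) = 0 := by
  rw [bd_single, map_sum]
  simp only [bd_single]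
  rw [Finset.sum_sigma']
  refine Finset.sum_involution (fun p _ => ⟨p.2, p.1⟩) ?_ ?_ ?_ ?_
  · rintro ⟨v, w⟩ h
    simp only [Finset.mem_sigma, Finset.mem_erase] at h
    obtain ⟨hv, hne, hw⟩ := h
    simp only
    rw [Finset.erase_right_comm, ← Finsupp.single_add, ← mul_smul, ← mul_smul, ← add_smul]
    have h1 : sg w (σ.erase v) * sg v σ + sg v (σ.erase w) * sg w σ = 0 := by
      rcases hσ v hv w hw with h | h
      · have h2 : v < w := lt_of_le_of_ne h (Ne.symm hne)
        rw [sg_erase_lt hv h2, sg_erase_not (not_lt_of_gt h2)]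
        ring
      · have h2 : w < v := lt_of_le_of_ne h hne
        rw [sg_erase_not (not_lt_of_gt h2), sg_erase_lt hw h2]
        ring
    rw [h1, zero_smul, Finsupp.single_zero]
  · rintro ⟨v, w⟩ h _ he
    simp only [Finset.mem_sigma, Finset.mem_erase] at h
    exact h.2.1 (congrArg Sigma.fst he)
  · rintro ⟨v, w⟩ h
    simp only [Finset.mem_sigma, Finset.mem_erase] at h ⊢
    exact ⟨h.2.2, Ne.symm h.2.1, h.1⟩
  · rintro ⟨v, w⟩ _
    rfl

open Classical in
/-- the homotopy -/
theorem hom_single {σ : Finset P} {w : P} (h : IsCh (insert w σ)) (m : M) :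
    bd P M (jn P M w (Finsupp.single σ m)) + jn P M w (bd P M (Finsupp.single σ m)) =
      Finsupp.single σ m := by
  by_cases hw : w ∈ σ
  · rw [jn_single_mem hw, map_zero, zero_add, bd_single, map_sum, Finset.sum_eq_single w]
    · rw [jn_single (Finset.notMem_erase w σ), Finset.insert_erase hw, ← mul_smul,
        sg_erase_not (lt_irrefl w), sg_mul_self, one_smul]
    · intro v hv hne
      exact jn_single_mem (Finset.mem_erase.2 ⟨Ne.symm hne, hw⟩) _
    · exact fun h' => absurd hw h'
  · rw [jn_single hw, bd_single, bd_single, Finset.sum_insert hw, Finset.erase_insert hw,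
      map_sum, ← mul_smul, sg_insert_not hw (lt_irrefl w), sg_mul_self, one_smul, add_assoc,
      ← Finset.sum_add_distrib, Finset.sum_eq_zero, add_zero]
    intro v hv
    have hne : v ≠ w := fun h' => hw (h' ▸ hv)
    rw [jn_single (fun h' => hw (Finset.mem_of_mem_erase h')), Finset.erase_insert_of_ne
      (Ne.symm hne), ← Finsupp.single_add, ← mul_smul, ← mul_smul, ← add_smul]
    have h1 : sg v (insert w σ) * sg w σ + sg w (σ.erase v) * sg v σ = 0 := by
      rcases h v (Finset.mem_insert_of_mem hv) w (Finset.mem_insert_self _ _) with h2 | h2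
      · have h3 : v < w := lt_of_le_of_ne h2 hne
        rw [sg_insert_not hw (not_lt_of_gt h3), sg_erase_lt hv h3]
        ring
      · have h3 : w < v := lt_of_le_of_ne h2 (Ne.symm hne)
        rw [sg_insert_lt hw h3, sg_erase_not (not_lt_of_gt h3)]
        ring
    rw [h1, zero_smul, Finsupp.single_zero]

/-- an additive map which vanishes on the terms of `z` vanishes on `z` -/
theorem map_eq_zero_of_terms {α : Type*} {M N : Type*} [AddCommGroup M] [AddCommGroup N]
    (f : (α →₀ M) →+ N) (z : α →₀ M) (h : ∀ a ∈ z.support, f (Finsupp.single a (z a)) = 0) :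
    f z = 0 := by
  conv_lhs => rw [← Finsupp.sum_single z]
  rw [Finsupp.sum, map_sum]
  exact Finset.sum_eq_zero h

open Classical in
/-- the support of the image is controlled by the images of the terms -/
theorem supp_map {α β : Type*} {M N : Type*} [AddCommGroup M] [AddCommGroup N]
    (f : (α →₀ M) →+ (β →₀ N)) (z : α →₀ M) (p : β → Prop)
    (h : ∀ a ∈ z.support, ∀ b ∈ (f (Finsupp.single a (z a))).support, p b) :
    ∀ b ∈ (f z).support, p b := by
  intro b hb
  by_contra hp
  rw [Finsupp.mem_support_iff] at hb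
  apply hb
  have h1 := map_eq_zero_of_terms ((Finsupp.applyAddHom b).comp f) z (fun a ha => by
    by_contra h2
    exact hp (h a ha b (Finsupp.mem_support_iff.2 h2)))
  exact h1

open Classical in
theorem supp_bd_single {σ : Finset P} {m : M} {τ : Finset P}
    (h : τ ∈ (bd P M (Finsupp.single σ m)).support) : ∃ v ∈ σ, τ = σ.erase v := by
  rw [bd_single] at h
  obtain ⟨v, hv, h1⟩ := Finset.mem_biUnion.1 (Finsupp.support_finsetSum h)
  refine ⟨v, hv, ?_⟩
  exact Finset.mem_singleton.1 (Finsupp.support_single_subset h1)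

open Classical in
theorem supp_jn_single {w : P} {σ : Finset P} {m : M} {τ : Finset P}
    (h : τ ∈ (jn P M w (Finsupp.single σ m)).support) : τ = insert w σ := by
  by_cases hw : w ∈ σ
  · rw [jn_single_mem hw] at h
    exact absurd h (by simp)
  · rw [jn_single hw] at h
    exact Finset.mem_singleton.1 (Finsupp.support_single_subset h)

/-- chains supported on cliques with vertices in `V` -/
def SuppIn (T : P ≃o P) (V : Set P) (z : Finset P →₀ M) : Prop :=
  ∀ σ ∈ z.support, IsCl T σ ∧ (σ : Set P) ⊆ V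

theorem SuppIn.mono {T : P ≃o P} {V V' : Set P} {z : Finset P →₀ M} (h : SuppIn T V z)
    (hV : V ⊆ V') : SuppIn T V' z := fun σ hσ => ⟨(h σ hσ).1, (h σ hσ).2.trans hV⟩

open Classical in
theorem SuppIn.add {T : P ≃o P} {V : Set P} {z z' : Finset P →₀ M} (h : SuppIn T V z)
    (h' : SuppIn T V z') : SuppIn T V (z + z') := fun σ hσ =>
  (Finset.mem_union.1 (Finsupp.support_add hσ)).elim (h σ) (h' σ)

theorem SuppIn.neg {T : P ≃o P} {V : Set P} {z : Finset P →₀ M} (h : SuppIn T V z) :
    SuppIn T V (-z) := fun σ hσ => h σ (by rwa [Finsupp.support_neg] at hσ)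

open Classical in
theorem SuppIn.bd {T : P ≃o P} {V : Set P} {z : Finset P →₀ M} (h : SuppIn T V z) :
    SuppIn T V (bd P M z) := by
  refine supp_map _ z _ fun σ hσ τ hτ => ?_
  obtain ⟨v, -, rfl⟩ := supp_bd_single hτ
  exact ⟨(h σ hσ).1.mono (Finset.erase_subset _ _),
    (Finset.coe_subset.2 (Finset.erase_subset _ _)).trans (h σ hσ).2⟩

theorem bd_bd {T : P ≃o P} {V : Set P} {z : Finset P →₀ M} (h : SuppIn T V z) :
    bd P M (bd P M z) = 0 :=
  map_eq_zero_of_terms ((bd P M).comp (bd P M)) z fun σ hσ => bd_bd_single (h σ hσ).1.isCh _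

open Classical in
theorem hom_z {w : P} {z : Finset P →₀ M} (h : ∀ σ ∈ z.support, IsCh (insert w σ)) :
    bd P M (jn P M w z) + jn P M w (bd P M z) = z := by
  have h1 := map_eq_zero_of_terms ((bd P M).comp (jn P M w) + (jn P M w).comp (bd P M) -
    AddMonoidHom.id _) z (fun σ hσ => by
      have h2 := hom_single (h σ hσ) (z σ)
      simp only [AddMonoidHom.sub_apply, AddMonoidHom.add_apply, AddMonoidHom.comp_apply,
        AddMonoidHom.id_apply]
      rw [h2, sub_self])
  simp only [AddMonoidHom.sub_apply, AddMonoidHom.add_apply, AddMonoidHom.comp_apply,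
    AddMonoidHom.id_apply] at h1
  exact sub_eq_zero.1 h1

open Classical in
/-- **exactness** on a finite lower set of `{x | b ≤ x}` -/
theorem exact_lower (T : P ≃o P) (hT : ∀ x, x ≤ T x)
    (hT' : ∀ v b : P, b ≤ v → T.symm v ⊔ b = v → v = b) (b : P) (n : ℕ) :
    ∀ V : Finset P, V.card = n → b ∈ V → (∀ x ∈ V, b ≤ x) →
      (∀ x ∈ V, ∀ y, b ≤ y → y ≤ x → y ∈ V) →
      ∀ z : Finset P →₀ M, SuppIn T V z → bd P M z = 0 →
        ∃ y : Finset P →₀ M, SuppIn T V y ∧ bd P M y = z := by
  induction n with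
  | zero =>
    intro V hV hb
    rw [Finset.card_eq_zero] at hV
    rw [hV] at hb
    exact absurd hb (Finset.notMem_empty b)
  | succ n ih =>
    intro V hV hb hbV hlow z hz hbz
    by_cases hVb : V = {b}
    · subst hVb
      have h1 : ∀ σ ∈ z.support, insert b σ = {b} := by
        intro σ hσ
        have h2 := (hz σ hσ).2
        rw [Finset.coe_singleton] at h2
        ext x
        simp only [Finset.mem_insert, Finset.mem_singleton]
        constructor
        · rintro (h | h)
          · exact h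
          · exact h2 h
        · exact Or.inl
      refine ⟨jn P M b z, ?_, ?_⟩
      · refine supp_map _ z _ fun σ hσ τ hτ => ?_
        rw [supp_jn_single hτ, h1 σ hσ]
        refine ⟨?_, le_rfl⟩
        intro x hx y hy
        rw [Finset.mem_singleton.1 hx, Finset.mem_singleton.1 hy]
        exact Nb.refl hT b
      · have h2 := hom_z (w := b) (z := z) (fun σ hσ => by
          rw [h1 σ hσ]
          intro x hx y hy
          rw [Finset.mem_singleton.1 hx, Finset.mem_singleton.1 hy]
          exact Or.inl le_rfl)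
        rw [hbz, map_zero, add_zero] at h2
        exact h2
    · -- a maximal vertex
      obtain ⟨x, hx, hxb⟩ : ∃ x ∈ V, x ≠ b := by
        by_contra hc
        push Not at hc
        apply hVb
        ext y
        rw [Finset.mem_singleton]
        exact ⟨hc y, fun h => h ▸ hb⟩
      obtain ⟨v, hxv, hv⟩ := Finset.exists_le_maximal V hx
      have hvV : v ∈ V := hv.1
      have hmax : ∀ y ∈ V, v ≤ y → y = v := fun y hy h => le_antisymm (hv.2 hy h) h
      have hvb : v ≠ b := by
        intro h
        rw [h] at hxv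
        exact hxb (le_antisymm hxv (hbV x hx))
      set w : P := T.symm v ⊔ b with hw
      have hwv : w ≤ v := sup_le (by
        have := hT (T.symm v)
        rwa [OrderIso.apply_symm_apply] at this) (hbV v hvV)
      have hbw : b ≤ w := le_sup_right
      have hwV : w ∈ V := hlow v hvV w hbw hwv
      have hwne : w ≠ v := fun h => hvb (hT' v b (hbV v hvV) h)
      have hvTw : v ≤ T w := by
        have h1 : T (T.symm v) ≤ T w := T.monotone le_sup_left
        rwa [OrderIso.apply_symm_apply] at h1
      -- neighbours of `v` are neighbours of `w`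
      have hnb : ∀ y ∈ V, Nb T y v → w ≤ y ∧ y ≤ v := by
        intro y hy h
        rcases h with h | h
        · refine ⟨sup_le ?_ (hbV y hy), h.1⟩
          exact (OrderIso.symm_apply_le T).2 h.2
        · rw [hmax y hy h.1]
          exact ⟨hwv, le_rfl⟩
      have hins : ∀ σ : Finset P, IsCl T σ → (σ : Set P) ⊆ V → v ∈ σ → IsCl T (insert w σ) := by
        intro σ hσ hσV hvσ
        have h1 : ∀ y ∈ σ, Nb T w y := by
          intro y hy
          obtain ⟨h2, h3⟩ := hnb y (hσV hy) (hσ y hy v hvσ)
          exact Or.inl ⟨h2, h3.trans hvTw⟩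
        intro x hx y hy
        rw [Finset.mem_insert] at hx hy
        rcases hx with rfl | hx <;> rcases hy with rfl | hy
        · exact Nb.refl hT _
        · exact h1 y hy
        · exact (h1 x hx).symm
        · exact hσ x hx y hy
      set z₁ := z.filter (fun σ => v ∈ σ) with hz₁
      set z₂ := z.filter (fun σ => ¬ v ∈ σ) with hz₂
      have hzz : z₁ + z₂ = z := Finsupp.filter_add_filter_not z _
      have hs₁ : ∀ σ ∈ z₁.support, σ ∈ z.support ∧ v ∈ σ := by
        intro σ hσ
        rw [hz₁, Finsupp.support_filter, Finset.mem_filter] at hσ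
        exact hσ
      have hs₂ : ∀ σ ∈ z₂.support, σ ∈ z.support ∧ v ∉ σ := by
        intro σ hσ
        rw [hz₂, Finsupp.support_filter, Finset.mem_filter] at hσ
        exact hσ
      have hins₁ : ∀ σ ∈ z₁.support, IsCl T (insert w σ) := fun σ hσ =>
        hins σ (hz σ (hs₁ σ hσ).1).1 (hz σ (hs₁ σ hσ).1).2 (hs₁ σ hσ).2
      have hhom := hom_z (w := w) (z := z₁) (fun σ hσ => (hins₁ σ hσ).isCh)
      have hD : bd P M z₁ = -bd P M z₂ := by
        have h1 : bd P M z₁ + bd P M z₂ = 0 := by rw [← map_add, hzz, hbz]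
        exact eq_neg_of_add_eq_zero_left h1
      have hj : SuppIn T V (jn P M w z₁) := by
        refine supp_map _ z₁ _ fun σ hσ τ hτ => ?_
        rw [supp_jn_single hτ]
        refine ⟨hins₁ σ hσ, ?_⟩
        rw [Finset.coe_insert]
        exact Set.insert_subset hwV (hz σ (hs₁ σ hσ).1).2
      have hV2 : SuppIn T (V.erase v : Finset P) z₂ := by
        intro σ hσ
        refine ⟨(hz σ (hs₂ σ hσ).1).1, ?_⟩
        intro y hy
        refine Finset.mem_coe.2 (Finset.mem_erase.2 ⟨?_, (hz σ (hs₂ σ hσ).1).2 hy⟩)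
        rintro rfl
        exact (hs₂ σ hσ).2 hy
      have hDs : ∀ τ ∈ (bd P M z₁).support, IsCl T (insert w τ) ∧
          ((insert w τ : Finset P) : Set P) ⊆ (V.erase v : Finset P) := by
        intro τ hτ
        have h1 : ∃ σ ∈ z₁.support, τ ⊆ σ := by
          refine supp_map (bd P M) z₁ (fun τ => ∃ σ ∈ z₁.support, τ ⊆ σ) ?_ τ hτ
          intro σ hσ τ hτ
          obtain ⟨u, -, rfl⟩ := supp_bd_single hτ
          exact ⟨σ, hσ, Finset.erase_subset _ _⟩
        obtain ⟨σ, hσ, hτσ⟩ := h1
        refine ⟨(hins₁ σ hσ).mono (Finset.insert_subset_insert _ hτσ), ?_⟩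
        rw [hD, Finsupp.support_neg] at hτ
        have h2 := (hV2.bd τ hτ).2
        rw [Finset.coe_insert]
        exact Set.insert_subset (Finset.mem_coe.2 (Finset.mem_erase.2 ⟨hwne, hwV⟩)) h2
      have hjb : SuppIn T (V.erase v : Finset P) (jn P M w (bd P M z₁)) := by
        refine supp_map _ (bd P M z₁) _ fun σ hσ τ hτ => ?_
        rw [supp_jn_single hτ]
        exact hDs σ hσ
      set z₃ := z₂ + jn P M w (bd P M z₁) with hz₃
      have hz₃' : z = z₃ + bd P M (jn P M w z₁) := by
        rw [hz₃, add_assoc, add_comm (jn P M w (bd P M z₁)), hhom, add_comm z₂, hzz]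
      have hb₃ : bd P M z₃ = 0 := by
        have h1 := hbz
        rw [hz₃', map_add, bd_bd hj, add_zero] at h1
        exact h1
      obtain ⟨y, hy, hy'⟩ := ih (V.erase v) (by
          have := Finset.card_erase_add_one hvV
          omega)
        (Finset.mem_erase.2 ⟨Ne.symm hvb, hb⟩)
        (fun x hx => hbV x (Finset.mem_of_mem_erase hx))
        (fun x hx y hby hyx => Finset.mem_erase.2 ⟨by
          rintro rfl
          have h1 := hmax x (Finset.mem_of_mem_erase hx) hyx
          exact (Finset.ne_of_mem_erase hx) h1, hlow x (Finset.mem_of_mem_erase hx) y hby hyx⟩)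
        z₃ (hV2.add hjb) hb₃
      refine ⟨y + jn P M w z₁, (hy.mono (Finset.coe_subset.2 (Finset.erase_subset _ _))).add hj,
        ?_⟩
      rw [map_add, hy', ← hz₃']

open Classical in
/-- **exactness of the clique complex** -/
theorem clique_exact (T : P ≃o P) (hT : ∀ x, x ≤ T x)
    (hT' : ∀ v b : P, b ≤ v → T.symm v ⊔ b = v → v = b) (hfin : ∀ a b : P, (Set.Icc a b).Finite)
    [Nonempty P] (z : Finset P →₀ M) (hz : SuppIn T Set.univ z) (hbz : bd P M z = 0) :
    ∃ y : Finset P →₀ M, SuppIn T Set.univ y ∧ bd P M y = z := by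
  obtain ⟨p⟩ := ‹Nonempty P›
  set W : Finset P := insert p (z.support.biUnion id) with hW
  have hWne : W.Nonempty := ⟨p, Finset.mem_insert_self _ _⟩
  set b : P := W.inf' hWne id with hb
  set c : P := W.sup' hWne id with hc
  have hbW : ∀ x ∈ W, b ≤ x := fun x hx => Finset.inf'_le id hx
  have hcW : ∀ x ∈ W, x ≤ c := fun x hx => Finset.le_sup' id hx
  set V : Finset P := (hfin b c).toFinset with hV
  have hVmem : ∀ x, x ∈ V ↔ b ≤ x ∧ x ≤ c := fun x => by
    rw [hV, Set.Finite.mem_toFinset, Set.mem_Icc]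
  obtain ⟨y, hy, hy'⟩ := exact_lower (M := M) T hT hT' b V.card V rfl
    ((hVmem b).2 ⟨le_rfl, (hbW p (Finset.mem_insert_self _ _)).trans
      (hcW p (Finset.mem_insert_self _ _))⟩)
    (fun x hx => ((hVmem x).1 hx).1)
    (fun x hx y hby hyx => (hVmem y).2 ⟨hby, hyx.trans ((hVmem x).1 hx).2⟩) z (by
      intro σ hσ
      refine ⟨(hz σ hσ).1, ?_⟩
      intro x hx
      have h1 : x ∈ W := Finset.mem_insert_of_mem (Finset.mem_biUnion.2 ⟨σ, hσ, hx⟩)
      exact Finset.mem_coe.2 ((hVmem x).2 ⟨hbW x h1, hcW x h1⟩)) hbz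
  exact ⟨y, hy.mono (Set.subset_univ _), hy'⟩

end

end Pool.Agent.UPV
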