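import Mathlib
import Pool.Agent.Lib.UPV.V2

/-!
# The order complex of a partially ordered set

The augmented chain complex of the complex of finite chains of a partial order `P`; finite sets
`V` on which it is exact, and their dismantling.
-/

namespace Pool.Agent.UPV.Fr

universe v w

section
variable {P : Type v} [PartialOrder P]

/-- finite sets which are totally ordered -/
def IsCh (σ : Finset P) : Prop := ∀ x ∈ σ, ∀ y ∈ σ, x ≤ y ∨ y ≤ x

theorem IsCh.mono {σ τ : Finset P} (h : IsCh σ) (hτ : τ ⊆ σ) : IsCh τ :=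
  fun x hx y hy => h x (hτ hx) y (hτ hy)

theorem IsCh.singleton (p : P) : IsCh ({p} : Finset P) := fun x hx y hy => by
  rw [Finset.mem_singleton.1 hx, Finset.mem_singleton.1 hy]
  exact Or.inl le_rfl

open Classical in
/-- the sign of the vertex `v` in the simplex `σ` -/
noncomputable def sg (v : P) (σ : Finset P) : ℤ := (-1) ^ (σ.filter (· < v)).card

theorem sg_mul_self (v : P) (σ : Finset P) : sg v σ * sg v σ = 1 := by
  rw [sg, ← pow_add, Even.neg_one_pow ⟨_, rfl⟩]

open Classical in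
theorem sg_erase_lt {v w : P} {σ : Finset P} (hv : v ∈ σ) (h : v < w) :
    sg w (σ.erase v) = -sg w σ := by
  rw [sg, sg]
  have h1 : (σ.erase v).filter (· < w) = (σ.filter (· < w)).erase v := by
    ext x
    simp only [Finset.mem_filter, Finset.mem_erase]
    tauto
  have h2 : v ∈ σ.filter (· < w) := Finset.mem_filter.2 ⟨hv, h⟩
  rw [h1]
  have h3 := Finset.card_erase_add_one h2
  rw [← h3, pow_succ]
  ring

open Classical in
theorem sg_erase_not {v w : P} {σ : Finset P} (h : ¬ v < w) : sg w (σ.erase v) = sg w σ := by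
  rw [sg, sg]
  have h1 : (σ.erase v).filter (· < w) = σ.filter (· < w) := by
    ext x
    simp only [Finset.mem_filter, Finset.mem_erase]
    constructor
    · rintro ⟨⟨_, h1⟩, h2⟩
      exact ⟨h1, h2⟩
    · rintro ⟨h1, h2⟩
      refine ⟨⟨?_, h1⟩, h2⟩
      rintro rfl
      exact h h2
  rw [h1]

open Classical in
theorem sg_insert_lt {v w : P} {σ : Finset P} (hw : w ∉ σ) (h : w < v) :
    sg v (insert w σ) = -sg v σ := by
  have h1 := sg_erase_lt (v := w) (w := v) (σ := insert w σ) (Finset.mem_insert_self _ _) h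
  rw [Finset.erase_insert hw] at h1
  rw [h1, neg_neg]

open Classical in
theorem sg_insert_not {v w : P} {σ : Finset P} (hw : w ∉ σ) (h : ¬ w < v) :
    sg v (insert w σ) = sg v σ := by
  have h1 := sg_erase_not (v := w) (w := v) (σ := insert w σ) h
  rw [Finset.erase_insert hw] at h1
  exact h1.symm

variable (P) (M : Type w) [AddCommGroup M]

open Classical in
/-- the boundary -/
noncomputable def bd : (Finset P →₀ M) →+ (Finset P →₀ M) :=
  Finsupp.liftAddHom fun σ => ∑ v ∈ σ, (Finsupp.singleAddHom (σ.erase v)).comp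
    (DistribSMul.toAddMonoidHom M (sg v σ))

open Classical in
/-- the join with the vertex `w` -/
noncomputable def jn (w : P) : (Finset P →₀ M) →+ (Finset P →₀ M) :=
  Finsupp.liftAddHom fun σ => if w ∈ σ then 0 else (Finsupp.singleAddHom (insert w σ)).comp
    (DistribSMul.toAddMonoidHom M (sg w σ))

variable {P M}

open Classical in
theorem bd_single (σ : Finset P) (m : M) : bd P M (Finsupp.single σ m) =
    ∑ v ∈ σ, Finsupp.single (σ.erase v) (sg v σ • m) := by
  rw [bd, Finsupp.liftAddHom_apply_single, AddMonoidHom.finsetSum_apply]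
  rfl

open Classical in
theorem jn_single_mem {w : P} {σ : Finset P} (h : w ∈ σ) (m : M) :
    jn P M w (Finsupp.single σ m) = 0 := by
  rw [jn, Finsupp.liftAddHom_apply_single, if_pos h]
  rfl

open Classical in
theorem jn_single {w : P} {σ : Finset P} (h : w ∉ σ) (m : M) :
    jn P M w (Finsupp.single σ m) = Finsupp.single (insert w σ) (sg w σ • m) := by
  rw [jn, Finsupp.liftAddHom_apply_single, if_neg h]
  rfl

open Classical in
/-- the square of the boundary vanishes on chains -/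
theorem bd_bd_single {σ : Finset P} (hσ : IsCh σ) (m : M) :
    bd P M (bd P M (Finsupp.single σ m)) = 0 := by
  rw [bd_single, map_sum]
  simp only [bd_single]
  rw [Finset.sum_sigma']
  refine Finset.sum_involution (fun p _ => ⟨p.2, p.1⟩) ?_ ?_ ?_ ?_
  · rintro ⟨v, w⟩ h
    simp only [Finset.mem_sigma, Finset.mem_erase] at h
    obtain ⟨hv, hne, hw⟩ := h
    simp only
    rw [Finset.erase_right_comm, ← Finsupp.single_add, ← mul_smul, ← mul_smul, ← add_smul]
    have h1 : sg w (σ.erase v) * sg v σ + sg v (σ.erase w) * sg w σ = 0 := by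
      rcases hσ v hv w hw with h | h
      · have h2 : v < w := lt_of_le_of_ne h (Ne.symm hne)
        rw [sg_erase_lt hv h2, sg_erase_not (not_lt_of_gt h2)]
        ring
      · have h2 : w < v := lt_of_le_of_ne h hne
        rw [sg_erase_not (not_lt_of_gt h2), sg_erase_lt hw h2]
        ring
    rw [h1, zero_smul, Finsupp.single_zero]
  · rintro ⟨v, w⟩ h _ he
    simp only [Finset.mem_sigma, Finset.mem_erase] at h
    exact h.2.1 (congrArg Sigma.fst he)
  · rintro ⟨v, w⟩ h
    simp only [Finset.mem_sigma, Finset.mem_erase] at h ⊢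
    exact ⟨h.2.2, Ne.symm h.2.1, h.1⟩
  · rintro ⟨v, w⟩ _
    rfl

open Classical in
/-- the homotopy -/
theorem hom_single {σ : Finset P} {w : P} (h : IsCh (insert w σ)) (m : M) :
    bd P M (jn P M w (Finsupp.single σ m)) + jn P M w (bd P M (Finsupp.single σ m)) =
      Finsupp.single σ m := by
  by_cases hw : w ∈ σ
  · rw [jn_single_mem hw, map_zero, zero_add, bd_single, map_sum, Finset.sum_eq_single w]
    · rw [jn_single (Finset.notMem_erase w σ), Finset.insert_erase hw, ← mul_smul,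
        sg_erase_not (lt_irrefl w), sg_mul_self, one_smul]
    · intro v hv hne
      exact jn_single_mem (Finset.mem_erase.2 ⟨Ne.symm hne, hw⟩) _
    · exact fun h' => absurd hw h'
  · rw [jn_single hw, bd_single, bd_single, Finset.sum_insert hw, Finset.erase_insert hw,
      map_sum, ← mul_smul, sg_insert_not hw (lt_irrefl w), sg_mul_self, one_smul, add_assoc,
      ← Finset.sum_add_distrib, Finset.sum_eq_zero, add_zero]
    intro v hv
    have hne : v ≠ w := fun h' => hw (h' ▸ hv)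
    rw [jn_single (fun h' => hw (Finset.mem_of_mem_erase h')), Finset.erase_insert_of_ne
      (Ne.symm hne), ← Finsupp.single_add, ← mul_smul, ← mul_smul, ← add_smul]
    have h1 : sg v (insert w σ) * sg w σ + sg w (σ.erase v) * sg v σ = 0 := by
      rcases h v (Finset.mem_insert_of_mem hv) w (Finset.mem_insert_self _ _) with h2 | h2
      · have h3 : v < w := lt_of_le_of_ne h2 hne
        rw [sg_insert_not hw (not_lt_of_gt h3), sg_erase_lt hv h3]
        ring
      · have h3 : w < v := lt_of_le_of_ne h2 (Ne.symm hne)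
        rw [sg_insert_lt hw h3, sg_erase_not (not_lt_of_gt h3)]
        ring
    rw [h1, zero_smul, Finsupp.single_zero]

open Classical in
theorem supp_bd_single {σ : Finset P} {m : M} {τ : Finset P}
    (h : τ ∈ (bd P M (Finsupp.single σ m)).support) : ∃ v ∈ σ, τ = σ.erase v := by
  rw [bd_single] at h
  obtain ⟨v, hv, h1⟩ := Finset.mem_biUnion.1 (Finsupp.support_finsetSum h)
  refine ⟨v, hv, ?_⟩
  exact Finset.mem_singleton.1 (Finsupp.support_single_subset h1)

open Classical in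
theorem supp_jn_single {w : P} {σ : Finset P} {m : M} {τ : Finset P}
    (h : τ ∈ (jn P M w (Finsupp.single σ m)).support) : τ = insert w σ := by
  by_cases hw : w ∈ σ
  · rw [jn_single_mem hw] at h
    exact absurd h (by simp)
  · rw [jn_single hw] at h
    exact Finset.mem_singleton.1 (Finsupp.support_single_subset h)

/-- chains supported on finite chains with vertices in `V` -/
def SuppIn (V : Set P) (z : Finset P →₀ M) : Prop :=
  ∀ σ ∈ z.support, IsCh σ ∧ (σ : Set P) ⊆ V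

theorem SuppIn.mono {V V' : Set P} {z : Finset P →₀ M} (h : SuppIn V z)
    (hV : V ⊆ V') : SuppIn V' z := fun σ hσ => ⟨(h σ hσ).1, (h σ hσ).2.trans hV⟩

open Classical in
theorem SuppIn.add {V : Set P} {z z' : Finset P →₀ M} (h : SuppIn V z)
    (h' : SuppIn V z') : SuppIn V (z + z') := fun σ hσ =>
  (Finset.mem_union.1 (Finsupp.support_add hσ)).elim (h σ) (h' σ)

open Classical in
theorem SuppIn.bd {V : Set P} {z : Finset P →₀ M} (h : SuppIn V z) :
    SuppIn V (bd P M z) := by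
  refine supp_map _ z _ fun σ hσ τ hτ => ?_
  obtain ⟨v, -, rfl⟩ := supp_bd_single hτ
  exact ⟨(h σ hσ).1.mono (Finset.erase_subset _ _),
    (Finset.coe_subset.2 (Finset.erase_subset _ _)).trans (h σ hσ).2⟩

theorem bd_bd {V : Set P} {z : Finset P →₀ M} (h : SuppIn V z) :
    bd P M (bd P M z) = 0 :=
  map_eq_zero_of_terms ((bd P M).comp (bd P M)) z fun σ hσ => bd_bd_single (h σ hσ).1 _

open Classical in
theorem hom_z {w : P} {z : Finset P →₀ M} (h : ∀ σ ∈ z.support, IsCh (insert w σ)) :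
    bd P M (jn P M w z) + jn P M w (bd P M z) = z := by
  have h1 := map_eq_zero_of_terms ((bd P M).comp (jn P M w) + (jn P M w).comp (bd P M) -
    AddMonoidHom.id _) z (fun σ hσ => by
      have h2 := hom_single (h σ hσ) (z σ)
      simp only [AddMonoidHom.sub_apply, AddMonoidHom.add_apply, AddMonoidHom.comp_apply,
        AddMonoidHom.id_apply]
      rw [h2, sub_self])
  simp only [AddMonoidHom.sub_apply, AddMonoidHom.add_apply, AddMonoidHom.comp_apply,
    AddMonoidHom.id_apply] at h1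
  exact sub_eq_zero.1 h1

variable (M) in
/-- exactness on a finite set of vertices -/
def Ex (V : Finset P) : Prop := ∀ z : Finset P →₀ M, SuppIn V z → bd P M z = 0 →
  ∃ y : Finset P →₀ M, SuppIn V y ∧ bd P M y = z

open Classical in
/-- cones -/
theorem ex_cone {V : Finset P} {b : P} (hb : b ∈ V) (h : ∀ x ∈ V, b ≤ x ∨ x ≤ b) :
    Ex M V := by
  intro z hz hbz
  have hins : ∀ σ ∈ z.support, IsCh (insert b σ) := by
    intro σ hσ x hx y hy
    rw [Finset.mem_insert] at hx hy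
    rcases hx with rfl | hx <;> rcases hy with rfl | hy
    · exact Or.inl le_rfl
    · exact h y ((hz σ hσ).2 hy)
    · exact (h x ((hz σ hσ).2 hx)).symm
    · exact (hz σ hσ).1 x hx y hy
  refine ⟨jn P M b z, ?_, ?_⟩
  · refine supp_map _ z _ fun σ hσ τ hτ => ?_
    rw [supp_jn_single hτ]
    refine ⟨hins σ hσ, ?_⟩
    rw [Finset.coe_insert]
    exact Set.insert_subset hb (hz σ hσ).2
  · have h2 := hom_z (w := b) hins
    rw [hbz, map_zero, add_zero] at h2
    exact h2

open Classical in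
/-- removing a dominated vertex -/
theorem ex_step {V : Finset P} {v w : P} (hv : v ∈ V) (hw : w ∈ V) (hwne : w ≠ v)
    (hvw : v ≤ w ∨ w ≤ v) (hdom : ∀ y ∈ V, (y ≤ v ∨ v ≤ y) → (y ≤ w ∨ w ≤ y))
    (ih : Ex M (V.erase v)) : Ex M V := by
  intro z hz hbz
  have hins : ∀ σ : Finset P, IsCh σ → (σ : Set P) ⊆ V → v ∈ σ → IsCh (insert w σ) := by
    intro σ hσ hσV hvσ x hx y hy
    rw [Finset.mem_insert] at hx hy
    rcases hx with rfl | hx <;> rcases hy with rfl | hy
    · exact Or.inl le_rfl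
    · exact (hdom y (hσV hy) (hσ y hy v hvσ)).symm
    · exact hdom x (hσV hx) (hσ x hx v hvσ)
    · exact hσ x hx y hy
  set z₁ := z.filter (fun σ => v ∈ σ) with hz₁
  set z₂ := z.filter (fun σ => ¬ v ∈ σ) with hz₂
  have hzz : z₁ + z₂ = z := Finsupp.filter_add_filter_not z _
  have hs₁ : ∀ σ ∈ z₁.support, σ ∈ z.support ∧ v ∈ σ := by
    intro σ hσ
    rw [hz₁, Finsupp.support_filter, Finset.mem_filter] at hσ
    exact hσ
  have hs₂ : ∀ σ ∈ z₂.support, σ ∈ z.support ∧ v ∉ σ := by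
    intro σ hσ
    rw [hz₂, Finsupp.support_filter, Finset.mem_filter] at hσ
    exact hσ
  have hins₁ : ∀ σ ∈ z₁.support, IsCh (insert w σ) := fun σ hσ =>
    hins σ (hz σ (hs₁ σ hσ).1).1 (hz σ (hs₁ σ hσ).1).2 (hs₁ σ hσ).2
  have hhom := hom_z (w := w) (z := z₁) hins₁
  have hD : bd P M z₁ = -bd P M z₂ := by
    have h1 : bd P M z₁ + bd P M z₂ = 0 := by rw [← map_add, hzz, hbz]
    exact eq_neg_of_add_eq_zero_left h1
  have hj : SuppIn (V : Set P) (jn P M w z₁) := by
    refine supp_map _ z₁ _ fun σ hσ τ hτ => ?_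
    rw [supp_jn_single hτ]
    refine ⟨hins₁ σ hσ, ?_⟩
    rw [Finset.coe_insert]
    exact Set.insert_subset hw (hz σ (hs₁ σ hσ).1).2
  have hV2 : SuppIn ((V.erase v : Finset P) : Set P) z₂ := by
    intro σ hσ
    refine ⟨(hz σ (hs₂ σ hσ).1).1, ?_⟩
    intro y hy
    refine Finset.mem_coe.2 (Finset.mem_erase.2 ⟨?_, (hz σ (hs₂ σ hσ).1).2 hy⟩)
    rintro rfl
    exact (hs₂ σ hσ).2 hy
  have hDs : ∀ τ ∈ (bd P M z₁).support, IsCh (insert w τ) ∧
      ((insert w τ : Finset P) : Set P) ⊆ (V.erase v : Finset P) := by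
    intro τ hτ
    have h1 : ∃ σ ∈ z₁.support, τ ⊆ σ := by
      refine supp_map (bd P M) z₁ (fun τ => ∃ σ ∈ z₁.support, τ ⊆ σ) ?_ τ hτ
      intro σ hσ τ hτ
      obtain ⟨u, -, rfl⟩ := supp_bd_single hτ
      exact ⟨σ, hσ, Finset.erase_subset _ _⟩
    obtain ⟨σ, hσ, hτσ⟩ := h1
    refine ⟨(hins₁ σ hσ).mono (Finset.insert_subset_insert _ hτσ), ?_⟩
    rw [hD, Finsupp.support_neg] at hτ
    have h2 := (hV2.bd τ hτ).2
    rw [Finset.coe_insert]
    exact Set.insert_subset (Finset.mem_coe.2 (Finset.mem_erase.2 ⟨hwne, hw⟩)) h2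
  have hjb : SuppIn ((V.erase v : Finset P) : Set P) (jn P M w (bd P M z₁)) := by
    refine supp_map _ (bd P M z₁) _ fun σ hσ τ hτ => ?_
    rw [supp_jn_single hτ]
    exact hDs σ hσ
  set z₃ := z₂ + jn P M w (bd P M z₁) with hz₃
  have hz₃' : z = z₃ + bd P M (jn P M w z₁) := by
    rw [hz₃, add_assoc, add_comm (jn P M w (bd P M z₁)), hhom, add_comm z₂, hzz]
  have hb₃ : bd P M z₃ = 0 := by
    have h1 := hbz
    rw [hz₃', map_add, bd_bd hj, add_zero] at h1
    exact h1
  obtain ⟨y, hy, hy'⟩ := ih z₃ (hV2.add hjb) hb₃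
  refine ⟨y + jn P M w z₁, (hy.mono (Finset.coe_subset.2 (Finset.erase_subset _ _))).add hj,
    ?_⟩
  rw [map_add, hy', ← hz₃']

/-- **dismantling**: `F ⊆ V`, and whenever `F ⊂ V' ⊆ V` some `v ∈ V' ∖ F` is dominated in `V'`
by an element of `F` -/
theorem ex_retr {V F : Finset P} (hF : F ⊆ V) (sel : ∀ V' : Finset P, F ⊆ V' → V' ⊆ V →
      (∃ x ∈ V', x ∉ F) → ∃ v ∈ V', v ∉ F ∧ ∃ w ∈ F, (v ≤ w ∨ w ≤ v) ∧
        ∀ y ∈ V', (y ≤ v ∨ v ≤ y) → (y ≤ w ∨ w ≤ y))
    (hEx : Ex M F) : Ex M V := by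
  classical
  suffices h : ∀ (n : ℕ) (V' : Finset P), F ⊆ V' → V' ⊆ V → V'.card = n → Ex M V' from
    h _ V hF (Finset.Subset.refl V) rfl
  intro n
  induction n with
  | zero =>
    intro V' h1 h2 h3
    have h4 : V' = F := by
      rw [Finset.card_eq_zero] at h3
      rw [h3] at h1 ⊢
      exact (Finset.subset_empty.1 h1).symm
    rw [h4]
    exact hEx
  | succ n ih =>
    intro V' h1 h2 h3
    by_cases hc : ∃ x ∈ V', x ∉ F
    · obtain ⟨v, hv, hvF, w, hw, hvw, hdom⟩ := sel V' h1 h2 hc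
      refine ex_step hv (h1 hw) (fun h => hvF (h ▸ hw)) hvw hdom (ih _ ?_
        ((Finset.erase_subset _ _).trans h2) ?_)
      · intro x hx
        exact Finset.mem_erase.2 ⟨fun h => hvF (h ▸ hx), h1 hx⟩
      · rw [Finset.card_erase_of_mem hv, h3]
        rfl
    · push Not at hc
      have h4 : V' = F := Finset.Subset.antisymm hc h1
      rw [h4]
      exact hEx

/-- dismantling upwards -/
theorem ex_up {V F : Finset P} (hF : F ⊆ V) (ρ : P → P) (h1 : ∀ v ∈ V, v ∉ F → ρ v ∈ F)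
    (h2 : ∀ v ∈ V, v ∉ F → v ≤ ρ v) (h3 : ∀ v ∈ V, v ∉ F → ∀ y ∈ F, v ≤ y → ρ v ≤ y)
    (hEx : Ex M F) : Ex M V := by
  classical
  refine ex_retr hF (fun V' hV' hV'' hx => ?_) hEx
  obtain ⟨x, hx, hxF⟩ := hx
  obtain ⟨v, -, hv⟩ := Finset.exists_le_maximal (V' \ F) (Finset.mem_sdiff.2 ⟨hx, hxF⟩)
  have hv' := Finset.mem_sdiff.1 hv.1
  refine ⟨v, hv'.1, hv'.2, ρ v, h1 v (hV'' hv'.1) hv'.2, Or.inl (h2 v (hV'' hv'.1) hv'.2), ?_⟩
  rintro y hy (h | h)
  · exact Or.inl (h.trans (h2 v (hV'' hv'.1) hv'.2))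
  · by_cases hyF : y ∈ F
    · exact Or.inr (h3 v (hV'' hv'.1) hv'.2 y hyF h)
    · have h4 : y ≤ v := hv.2 (Finset.mem_sdiff.2 ⟨hy, hyF⟩) h
      exact Or.inl (h4.trans (h2 v (hV'' hv'.1) hv'.2))

/-- dismantling downwards -/
theorem ex_down {V F : Finset P} (hF : F ⊆ V) (ρ : P → P) (h1 : ∀ v ∈ V, v ∉ F → ρ v ∈ F)
    (h2 : ∀ v ∈ V, v ∉ F → ρ v ≤ v) (h3 : ∀ v ∈ V, v ∉ F → ∀ y ∈ F, y ≤ v → y ≤ ρ v)
    (hEx : Ex M F) : Ex M V := by
  classical
  refine ex_retr hF (fun V' hV' hV'' hx => ?_) hEx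
  obtain ⟨x, hx, hxF⟩ := hx
  obtain ⟨v, -, hv⟩ := Finset.exists_le_minimal (V' \ F) (Finset.mem_sdiff.2 ⟨hx, hxF⟩)
  have hv' := Finset.mem_sdiff.1 hv.1
  refine ⟨v, hv'.1, hv'.2, ρ v, h1 v (hV'' hv'.1) hv'.2, Or.inr (h2 v (hV'' hv'.1) hv'.2), ?_⟩
  rintro y hy (h | h)
  · by_cases hyF : y ∈ F
    · exact Or.inl (h3 v (hV'' hv'.1) hv'.2 y hyF h)
    · have h4 : v ≤ y := hv.2 (Finset.mem_sdiff.2 ⟨hy, hyF⟩) h
      exact Or.inr ((h2 v (hV'' hv'.1) hv'.2).trans h4)
  · exact Or.inr ((h2 v (hV'' hv'.1) hv'.2).trans h)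

end

end Pool.Agent.UPV.Fr
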