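import Mathlib
import Pool.Agent.Lib.UPV.Defs
import Pool.Agent.Lib.UPV.F2a

/-!
# The resolution given by a group acting on a partially ordered set
-/

open MonoidAlgebra

namespace Pool.Agent.UPV.Fr

universe u v

/-- an action by automorphisms of the order -/
class OrdAct (H : Type v) (P : Type v) [Group H] [PartialOrder P] [MulAction H P] : Prop where
  le_iff : ∀ (g : H) (x y : P), g • x ≤ g • y ↔ x ≤ y

section
variable (H : Type v) {P : Type v} [Group H] [PartialOrder P] [MulAction H P]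

omit [PartialOrder P] in
/-- the action on finite sets -/
def act (g : H) (σ : Finset P) : Finset P :=
  σ.map (MulAction.toPerm g : Equiv.Perm P).toEmbedding

variable {H}

omit [PartialOrder P] in
theorem mem_act {g : H} {σ : Finset P} {x : P} : x ∈ act H g σ ↔ ∃ y ∈ σ, g • y = x := by
  rw [act, Finset.mem_map]
  rfl

omit [PartialOrder P] in
theorem smul_mem_act {g : H} {σ : Finset P} {x : P} : g • x ∈ act H g σ ↔ x ∈ σ := by
  rw [mem_act]
  constructor
  · rintro ⟨y, hy, h⟩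
    rwa [← smul_left_cancel g h]
  · exact fun h => ⟨x, h, rfl⟩

omit [PartialOrder P] in
theorem card_act (g : H) (σ : Finset P) : (act H g σ).card = σ.card :=
  Finset.card_map _

omit [PartialOrder P] in
theorem act_mul (g g' : H) (σ : Finset P) : act H (g * g') σ = act H g (act H g' σ) := by
  ext x
  rw [mem_act, mem_act]
  constructor
  · rintro ⟨y, hy, rfl⟩
    exact ⟨g' • y, smul_mem_act.2 hy, (mul_smul g g' y).symm⟩
  · rintro ⟨y, hy, rfl⟩
    obtain ⟨z, hz, rfl⟩ := mem_act.1 hy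
    exact ⟨z, hz, mul_smul g g' z⟩

omit [PartialOrder P] in
theorem act_one (σ : Finset P) : act H 1 σ = σ := by
  ext x
  rw [mem_act]
  constructor
  · rintro ⟨y, hy, rfl⟩
    rwa [one_smul]
  · exact fun h => ⟨x, h, one_smul H x⟩

variable [OrdAct H P]

theorem act_isCh {g : H} {σ : Finset P} (h : IsCh σ) : IsCh (act H g σ) := by
  intro x' hx' y' hy'
  obtain ⟨x, hx, rfl⟩ := mem_act.1 hx'
  obtain ⟨y, hy, rfl⟩ := mem_act.1 hy'
  exact (h x hx y hy).imp (OrdAct.le_iff g x y).2 (OrdAct.le_iff g y x).2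

variable (P) in
/-- chains with `k` elements -/
abbrev Ch (k : ℕ) : Type v := {σ : Finset P // IsCh σ ∧ σ.card = k}

instance (k : ℕ) : MulAction H (Ch P k) where
  smul g σ := ⟨act H g σ.1, act_isCh σ.2.1, (card_act g σ.1).trans σ.2.2⟩
  one_smul σ := Subtype.ext (act_one σ.1)
  mul_smul g g' σ := Subtype.ext (act_mul g g' σ.1)

theorem Ch.smul_val {k : ℕ} (g : H) (σ : Ch P k) : (g • σ).1 = act H g σ.1 := rfl

theorem Ch.fix {k : ℕ} (σ : Ch P (k + 1)) {g : H} (h : g • σ = σ) : ∃ x : P, g • x = x := by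
  have hne : σ.1.Nonempty := by
    rw [← Finset.card_pos, σ.2.2]
    omega
  obtain ⟨x, hx⟩ := σ.1.exists_minimal hne
  have h1 : act H g σ.1 = σ.1 := congrArg Subtype.val h
  have h2 : g • x ∈ σ.1 := by
    have := (smul_mem_act (g := g)).2 hx.1
    rwa [h1] at this
  have h3 : g⁻¹ • x ∈ σ.1 := by
    have h4 : g • (g⁻¹ • x) ∈ act H g σ.1 := by rw [smul_inv_smul, h1]; exact hx.1
    exact smul_mem_act.1 h4
  have h4 : x ≤ g • x := (σ.2.1 x hx.1 _ h2).elim id (hx.2 h2)
  have h5 : x ≤ g⁻¹ • x := (σ.2.1 x hx.1 _ h3).elim id (hx.2 h3)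
  have h6 : g • x ≤ x := by
    have h7 := (OrdAct.le_iff g _ _).2 h5
    rwa [smul_inv_smul] at h7
  exact ⟨x, le_antisymm h6 h4⟩

open Classical in
theorem sg_act (g : H) (v : P) (σ : Finset P) : sg (g • v) (act H g σ) = sg v σ := by
  rw [sg, sg]
  have h1 : (act H g σ).filter (· < g • v) = act H g (σ.filter (· < v)) := by
    ext x
    simp only [Finset.mem_filter, mem_act]
    constructor
    · rintro ⟨⟨y, hy, rfl⟩, h2⟩
      refine ⟨y, ⟨hy, ?_⟩, rfl⟩
      exact lt_of_le_not_ge ((OrdAct.le_iff g _ _).1 h2.le)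
        fun h3 => h2.not_ge ((OrdAct.le_iff g _ _).2 h3)
    · rintro ⟨y, ⟨hy, h2⟩, rfl⟩
      exact ⟨⟨y, hy, rfl⟩, lt_of_le_not_ge ((OrdAct.le_iff g _ _).2 h2.le)
        fun h3 => h2.not_ge ((OrdAct.le_iff g _ _).1 h3)⟩
  rw [h1, card_act]

omit [PartialOrder P] [OrdAct H P] in
open Classical in
theorem act_erase (g : H) (v : P) (σ : Finset P) :
    act H g (σ.erase v) = (act H g σ).erase (g • v) := by
  ext x
  rw [Finset.mem_erase, mem_act, mem_act]
  constructor
  · rintro ⟨y, hy, rfl⟩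
    exact ⟨fun h => (Finset.mem_erase.1 hy).1 (smul_left_cancel g h),
      y, (Finset.mem_erase.1 hy).2, rfl⟩
  · rintro ⟨h, y, hy, rfl⟩
    exact ⟨y, Finset.mem_erase.2 ⟨fun h' => h (by rw [h']), hy⟩, rfl⟩

omit [Group H] [MulAction H P] [OrdAct H P] in
variable (H) in
open Classical in
/-- a face -/
noncomputable def Ch.face {k : ℕ} (σ : Ch P (k + 1)) (v : P) (hv : v ∈ σ.1) : Ch P k :=
  ⟨σ.1.erase v, σ.2.1.mono (Finset.erase_subset _ _), by
    have := Finset.card_erase_add_one hv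
    have h2 := σ.2.2
    omega⟩

variable (H P)
variable (A : Type u) [CommRing A] (M : Type (max u v)) [AddCommGroup M]

/-- the terms of the boundary -/
noncomputable def bdT (k : ℕ) (σ : Ch P (k + 1)) : M →+ Tw A H (Ch P k) M where
  toFun m := ∑ v : {x // x ∈ σ.1}, Tw.mk A H (σ.face v.1 v.2) (sg v.1 σ.1 • m)
  map_zero' := Finset.sum_eq_zero fun v _ => by
    rw [smul_zero]
    exact Finsupp.single_zero _
  map_add' m m' := by
    rw [← Finset.sum_add_distrib]
    refine Finset.sum_congr rfl fun v _ => ?_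
    rw [smul_add, Tw.mk_add]

omit [Group H] [MulAction H P] [OrdAct H P] [CommRing A] in
theorem bdT_apply (k : ℕ) (σ : Ch P (k + 1)) (m : M) :
    bdT H P A M k σ m = ∑ v : {x // x ∈ σ.1}, Tw.mk A H (σ.face v.1 v.2) (sg v.1 σ.1 • m) := rfl

variable [Module (MonoidAlgebra A H) M]

theorem bdT_equiv (k : ℕ) (g : H) (a : A) (σ : Ch P (k + 1)) (m : M) :
    bdT H P A M k (g • σ) ((single g a : MonoidAlgebra A H) • m) =
      (single g a : MonoidAlgebra A H) • bdT H P A M k σ m := by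
  rw [bdT_apply, bdT_apply, Finset.smul_sum]
  refine (Finset.sum_bij' (fun v _ => (⟨g • v.1, smul_mem_act.2 v.2⟩ :
    {x // x ∈ (g • σ).1})) (fun w _ => (⟨g⁻¹ • w.1, by
      have h1 : w.1 ∈ act H g σ.1 := w.2
      have h2 : g • (g⁻¹ • w.1) ∈ act H g σ.1 := by rwa [smul_inv_smul]
      exact smul_mem_act.1 h2⟩ : {x // x ∈ σ.1})) (fun _ _ => Finset.mem_univ _)
    (fun _ _ => Finset.mem_univ _) (fun v _ => Subtype.ext (inv_smul_smul g v.1))
    (fun w _ => Subtype.ext (smul_inv_smul g w.1)) ?_).symm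
  intro v _
  rw [Tw.single_smul, smul_comm (single g a : MonoidAlgebra A H) (sg v.1 σ.1) m]
  have h1 : g • σ.face v.1 v.2 = (g • σ).face (g • v.1) (smul_mem_act.2 v.2) :=
    Subtype.ext (act_erase g v.1 σ.1)
  rw [h1]
  change _ = Tw.mk A H _ (sg (g • v.1) (act H g σ.1) • _)
  rw [sg_act]

/-- the boundary -/
noncomputable def bdD (k : ℕ) :
    Tw A H (Ch P (k + 1)) M →ₗ[MonoidAlgebra A H] Tw A H (Ch P k) M :=
  Tw.lift A H (bdT H P A M k) (bdT_equiv H P A M k)

theorem bdD_mk (k : ℕ) (σ : Ch P (k + 1)) (m : M) :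
    bdD H P A M k (Tw.mk A H σ m) =
      ∑ v : {x // x ∈ σ.1}, Tw.mk A H (σ.face v.1 v.2) (sg v.1 σ.1 • m) :=
  Tw.lift_mk A H _ (bdT_equiv H P A M k) σ m

omit [MulAction H P] [OrdAct H P] [Module (MonoidAlgebra A H) M] in
/-- the embedding into the total complex -/
noncomputable def emb (k : ℕ) : Tw A H (Ch P k) M →+ (Finset P →₀ M) :=
  Finsupp.mapDomain.addMonoidHom (Subtype.val : Ch P k → Finset P)

omit [Group H] [MulAction H P] [OrdAct H P] [CommRing A] [Module (MonoidAlgebra A H) M] in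
theorem emb_mk (k : ℕ) (σ : Ch P k) (m : M) :
    emb H P A M k (Tw.mk A H σ m) = Finsupp.single σ.1 m := Finsupp.mapDomain_single

omit [Group H] [MulAction H P] [OrdAct H P] [CommRing A] [Module (MonoidAlgebra A H) M] in
theorem emb_inj (k : ℕ) : Function.Injective (emb H P A M k) :=
  Finsupp.mapDomain_injective Subtype.val_injective

omit [Group H] [MulAction H P] [OrdAct H P] [CommRing A] [Module (MonoidAlgebra A H) M] in
theorem emb_supp (k : ℕ) (z : Tw A H (Ch P k) M) : ∀ σ ∈ (emb H P A M k z).support,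
    IsCh σ ∧ σ.card = k := by
  refine supp_map (emb H P A M k : (Ch P k →₀ M) →+ (Finset P →₀ M)) z
    (fun σ => IsCh σ ∧ σ.card = k) ?_
  intro τ _ σ hσ
  obtain ⟨m, hm⟩ : ∃ m : M, σ ∈ (emb H P A M k (Tw.mk A H τ m)).support := ⟨_, hσ⟩
  rw [emb_mk] at hm
  rw [Finset.mem_singleton.1 (Finsupp.support_single_subset hm)]
  exact τ.2

omit [Group H] [MulAction H P] [OrdAct H P] [CommRing A] [Module (MonoidAlgebra A H) M] in
theorem emb_surj (k : ℕ) (y : Finset P →₀ M) (hy : ∀ σ ∈ y.support,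
    IsCh σ ∧ σ.card = k) : ∃ z : Tw A H (Ch P k) M, emb H P A M k z = y := by
  refine ⟨∑ σ : {x // x ∈ y.support}, Tw.mk A H (⟨σ.1, hy σ.1 σ.2⟩ : Ch P k) (y σ.1), ?_⟩
  rw [map_sum]
  simp only [emb_mk]
  rw [Finset.sum_coe_sort y.support (fun σ => Finsupp.single σ (y σ))]
  exact Finsupp.sum_single y

open Classical in
theorem emb_bd (k : ℕ) (z : Tw A H (Ch P (k + 1)) M) :
    emb H P A M k (bdD H P A M k z) = bd P M (emb H P A M (k + 1) z) := by
  have h : (emb H P A M k).comp (bdD H P A M k).toAddMonoidHom =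
      (bd P M).comp (emb H P A M (k + 1)) := by
    refine Tw.addHom_ext (A := A) (H := H) fun σ m => ?_
    change emb H P A M k (bdD H P A M k (Tw.mk A H σ m)) = bd P M (emb H P A M (k + 1)
      (Tw.mk A H σ m))
    rw [bdD_mk, map_sum, emb_mk, bd_single]
    simp only [emb_mk]
    exact Finset.sum_coe_sort σ.1 (fun v => Finsupp.single (σ.1.erase v) (sg v σ.1 • m))
  exact DFunLike.congr_fun h z

theorem bdD_bdD (k : ℕ) (z : Tw A H (Ch P (k + 1 + 1)) M) :
    bdD H P A M k (bdD H P A M (k + 1) z) = 0 := by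
  apply emb_inj H P A M k
  rw [emb_bd, emb_bd, map_zero]
  exact bd_bd (V := Set.univ) fun σ hσ =>
    ⟨(emb_supp H P A M _ z σ hσ).1, Set.subset_univ _⟩

open Classical in
/-- exactness -/
theorem bd_exact (hex : ∀ S : Finset P, ∃ V : Finset P, S ⊆ V ∧ Ex M V) (k : ℕ)
    (z : Tw A H (Ch P k) M) (hz : bd P M (emb H P A M k z) = 0) :
    ∃ y, bdD H P A M k y = z := by
  obtain ⟨V, hV, hVex⟩ := hex ((emb H P A M k z).support.biUnion id)
  obtain ⟨y, hy, hy'⟩ := hVex (emb H P A M k z) (fun σ hσ => ⟨(emb_supp H P A M _ z σ hσ).1,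
    fun x hx => hV (Finset.mem_biUnion.2 ⟨σ, hσ, hx⟩)⟩) hz
  set y₁ := y.filter (fun σ => σ.card = k + 1) with hy₁
  set y₂ := y.filter (fun σ => ¬ σ.card = k + 1) with hy₂
  have hyy : y₁ + y₂ = y := Finsupp.filter_add_filter_not y _
  have hs : ∀ σ ∈ y₁.support, IsCh σ ∧ σ.card = k + 1 := by
    intro σ hσ
    rw [hy₁, Finsupp.support_filter, Finset.mem_filter] at hσ
    exact ⟨(hy σ hσ.1).1, hσ.2⟩
  have h1 : bd P M y₁ = emb H P A M k z := by
    ext σ
    by_cases hσ : σ.card = k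
    · have h2 : bd P M y₂ σ = 0 := by
        by_contra h3
        have h4 : ∀ τ ∈ (bd P M y₂).support, τ.card ≠ k := by
          refine supp_map (bd P M) y₂ (fun τ => τ.card ≠ k) ?_
          intro ρ hρ τ hτ
          obtain ⟨v, hv, rfl⟩ := supp_bd_single hτ
          rw [hy₂, Finsupp.support_filter, Finset.mem_filter] at hρ
          have h5 := Finset.card_erase_add_one hv
          intro h6
          exact hρ.2 (by omega)
        exact h4 σ (Finsupp.mem_support_iff.2 h3) hσ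
      rw [← hy', ← hyy, map_add, Finsupp.add_apply, h2, add_zero]
    · have h2 : emb H P A M k z σ = 0 := by
        by_contra h3
        exact hσ (emb_supp H P A M k z σ (Finsupp.mem_support_iff.2 h3)).2
      rw [h2]
      by_contra h3
      have h4 : ∀ τ ∈ (bd P M y₁).support, τ.card = k := by
        refine supp_map (bd P M) y₁ (fun τ => τ.card = k) ?_
        intro ρ hρ τ hτ
        obtain ⟨v, hv, rfl⟩ := supp_bd_single hτ
        have h5 := Finset.card_erase_add_one hv
        have h6 := (hs ρ hρ).2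
        omega
      exact hσ (h4 σ (Finsupp.mem_support_iff.2 h3))
  obtain ⟨w, hw⟩ := emb_surj H P A M (k + 1) y₁ hs
  refine ⟨w, emb_inj H P A M k ?_⟩
  rw [emb_bd, hw, h1]

/-- the augmentation -/
noncomputable def aug : Tw A H (Ch P 1) M →ₗ[MonoidAlgebra A H] M :=
  Tw.lift A H (fun _ => AddMonoidHom.id M) (fun _ _ _ _ => rfl)

theorem aug_mk (σ : Ch P 1) (m : M) : aug H P A M (Tw.mk A H σ m) = m :=
  Tw.lift_mk A H (fun _ : Ch P 1 => AddMonoidHom.id M) (fun _ _ _ _ => rfl) σ m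

open Classical in
theorem bd_emb_one (z : Tw A H (Ch P 1) M) :
    bd P M (emb H P A M 1 z) = Finsupp.single ∅ (aug H P A M z) := by
  have h : (bd P M).comp (emb H P A M 1) =
      (Finsupp.singleAddHom (∅ : Finset P)).comp (aug H P A M).toAddMonoidHom := by
    refine Tw.addHom_ext (A := A) (H := H) fun σ m => ?_
    change bd P M (emb H P A M 1 (Tw.mk A H σ m)) =
      Finsupp.single (∅ : Finset P) (aug H P A M (Tw.mk A H σ m))
    obtain ⟨x, hx⟩ := Finset.card_eq_one.1 σ.2.2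
    rw [emb_mk, aug_mk, bd_single, hx, Finset.sum_singleton]
    have h1 : ({x} : Finset P).erase x = ∅ := by
      ext y
      simp
    have h2 : sg x ({x} : Finset P) = 1 := by
      rw [sg]
      have h3 : ({x} : Finset P).filter (· < x) = ∅ := by
        ext y
        simp only [Finset.mem_filter, Finset.mem_singleton, Finset.notMem_empty, iff_false,
          not_and]
        rintro rfl
        exact lt_irrefl y
      rw [h3, Finset.card_empty, pow_zero]
    rw [h1, h2, one_smul]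
  exact DFunLike.congr_fun h z

/-- **the resolution** -/
theorem exists_pres_poset (m : ℕ) (hlen : ∀ σ : Finset P, IsCh σ → σ.card ≤ m + 1) [Nonempty P]
    (hex : ∀ S : Finset P, ∃ V : Finset P, S ⊆ V ∧ Ex M V) :
    ∃ (X : ℕ → Type v) (_ : ∀ k, MulAction H (X k))
      (D : ∀ k, Tw A H (X (k + 1)) M →ₗ[MonoidAlgebra A H] Tw A H (X k) M)
      (ε : Tw A H (X 0) M →ₗ[MonoidAlgebra A H] M),
      Function.Surjective ε ∧ (∀ y, ε (D 0 y) = 0) ∧ (∀ z, ε z = 0 → ∃ y, D 0 y = z) ∧
      (∀ k y, D k (D (k + 1) y) = 0) ∧ (∀ k z, D k z = 0 → ∃ y, D (k + 1) y = z) ∧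
      (∀ k, m < k → IsEmpty (X k)) ∧
      (∀ k (x : X k) (g : H), g • x = x → ∃ p : P, g • p = p) := by
  refine ⟨fun k => Ch P (k + 1), fun k => inferInstance, fun k => bdD H P A M (k + 1),
    aug H P A M, ?_, ?_, ?_, ?_, ?_, ?_, ?_⟩
  · intro m
    obtain ⟨p⟩ : Nonempty P := inferInstance
    exact ⟨Tw.mk A H ⟨{p}, IsCh.singleton p, Finset.card_singleton p⟩ m, aug_mk H P A M _ m⟩
  · intro y
    have h1 := bd_emb_one H P A M (bdD H P A M 1 y)
    rw [emb_bd, bd_bd (V := Set.univ) fun σ hσ =>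
      ⟨(emb_supp H P A M _ y σ hσ).1, Set.subset_univ _⟩] at h1
    exact Finsupp.single_eq_zero.1 h1.symm
  · intro z hz
    refine bd_exact H P A M hex 1 z ?_
    rw [bd_emb_one, hz, Finsupp.single_zero]
  · intro k y
    exact bdD_bdD H P A M (k + 1) y
  · intro k z hz
    refine bd_exact H P A M hex (k + 1 + 1) z ?_
    have h1 := emb_bd H P A M (k + 1) z
    rw [← h1]
    exact (congrArg _ hz).trans (map_zero _)
  · intro k hk
    refine ⟨fun σ => ?_⟩
    have h1 := hlen σ.1 σ.2.1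
    rw [σ.2.2] at h1
    omega
  · intro k x g h
    exact Ch.fix x h

end

end Pool.Agent.UPV.Fr
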