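import Mathlib
import Pool.Agent.Lib.UPV.V2

/-!
# The lattice of a homomorphism `N → ℤ`, `N ≤ H` of finite index
-/

namespace Pool.Agent.UPV

universe v w

section
variable {H : Type v} [Group H] {N : Subgroup H} (φ : N →* Multiplicative ℤ)

/-- the functions `f : H → ℤ` with `f (n h) = φ n + f h` -/
abbrev LP : Type v := {f : H → ℤ // ∀ (n : N) (h : H), f (n * h) = (φ n).toAdd + f h}

noncomputable instance LP.dec : DecidableEq (LP φ) := fun a b => Classical.propDecidable (a = b)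

noncomputable instance : Lattice (LP φ) :=
  Subtype.lattice
    (fun f g hf hg n h => by
      rw [Pi.sup_apply, Pi.sup_apply, hf, hg]
      exact max_add_add_left _ _ _)
    (fun f g hf hg n h => by
      rw [Pi.inf_apply, Pi.inf_apply, hf, hg]
      exact min_add_add_left _ _ _)

theorem LP.le_iff {f g : LP φ} : f ≤ g ↔ ∀ h, f.1 h ≤ g.1 h := Iff.rfl

/-- the shift -/
def LP.T : LP φ ≃o LP φ where
  toFun f := ⟨fun h => f.1 h + 1, fun n h => by
    change f.1 (n * h) + 1 = (φ n).toAdd + (f.1 h + 1)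
    rw [f.2, add_assoc]⟩
  invFun f := ⟨fun h => f.1 h - 1, fun n h => by
    change f.1 (n * h) - 1 = (φ n).toAdd + (f.1 h - 1)
    rw [f.2, add_sub_assoc]⟩
  left_inv f := Subtype.ext (funext fun h => by simp)
  right_inv f := Subtype.ext (funext fun h => by simp)
  map_rel_iff' := by
    intro f g
    rw [LP.le_iff, LP.le_iff]
    exact forall_congr' fun h => add_le_add_iff_right 1

theorem LP.T_apply (f : LP φ) (h : H) : (LP.T φ f).1 h = f.1 h + 1 := rfl

theorem LP.T_symm_apply (f : LP φ) (h : H) : ((LP.T φ).symm f).1 h = f.1 h - 1 := rfl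

theorem LP.le_T (f : LP φ) : f ≤ LP.T φ f := fun h => by
  change f.1 h ≤ f.1 h + 1
  omega

theorem LP.dom (v b : LP φ) (_ : b ≤ v) (h : (LP.T φ).symm v ⊔ b = v) : v = b := by
  refine Subtype.ext (funext fun x => ?_)
  have h1 := congrFun (congrArg Subtype.val h) x
  change max (v.1 x - 1) (b.1 x) = v.1 x at h1
  omega

/-- the action -/
instance : MulAction H (LP φ) where
  smul g f := ⟨fun h => f.1 (h * g), fun n h => by
    change f.1 (n * h * g) = (φ n).toAdd + f.1 (h * g)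
    rw [mul_assoc, f.2]⟩
  one_smul f := Subtype.ext (funext fun h => by
    change f.1 (h * 1) = f.1 h
    rw [mul_one])
  mul_smul g g' f := Subtype.ext (funext fun h => by
    change f.1 (h * (g * g')) = f.1 (h * g * g')
    rw [mul_assoc])

theorem LP.smul_apply (g : H) (f : LP φ) (h : H) : (g • f).1 h = f.1 (h * g) := rfl

theorem LP.smul_le {g : H} {f f' : LP φ} : g • f ≤ g • f' ↔ f ≤ f' := by
  constructor
  · intro h x
    have := h (x * g⁻¹)
    rwa [LP.smul_apply, LP.smul_apply, inv_mul_cancel_right] at this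
  · intro h x
    exact h _

theorem LP.smul_T (g : H) (f : LP φ) : g • LP.T φ f = LP.T φ (g • f) := rfl

theorem LP.fix {g : H} (hg : g ∈ N) {f : LP φ} (h : g • f = f) : φ ⟨g, hg⟩ = 1 := by
  have h1 := congrFun (congrArg Subtype.val h) 1
  rw [LP.smul_apply, one_mul] at h1
  have h2 := f.2 ⟨g, hg⟩ 1
  rw [mul_one] at h2
  change f.1 g = _ at h2
  rw [h1] at h2
  have h3 : (φ ⟨g, hg⟩).toAdd = 0 := by omega
  exact Multiplicative.toAdd.injective h3

/-- the representatives -/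
noncomputable def rp (q : H ⧸ N) : H := (Quotient.out q)⁻¹

theorem rp_spec (h : H) : h * Quotient.out ((h⁻¹ : H) : H ⧸ N) ∈ N := by
  have h1 : ((h⁻¹ : H) : H ⧸ N) = ((Quotient.out ((h⁻¹ : H) : H ⧸ N) : H) : H ⧸ N) :=
    (QuotientGroup.out_eq' _).symm
  have h2 := QuotientGroup.eq.1 h1
  rwa [inv_inv] at h2

theorem LP.val_eq (f : LP φ) (h : H) : f.1 h =
    (φ ⟨h * Quotient.out ((h⁻¹ : H) : H ⧸ N), rp_spec h⟩).toAdd + f.1 (rp ((h⁻¹ : H) : H ⧸ N)) := by
  have h1 := f.2 ⟨h * Quotient.out ((h⁻¹ : H) : H ⧸ N), rp_spec h⟩ (rp ((h⁻¹ : H) : H ⧸ N))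
  rw [← h1]
  have h2 : h = h * Quotient.out ((h⁻¹ : H) : H ⧸ N) * (Quotient.out ((h⁻¹ : H) : H ⧸ N))⁻¹ :=
    (mul_inv_cancel_right _ _).symm
  exact congrArg f.1 h2

instance : Nonempty (LP φ) := by
  refine ⟨⟨fun h => (φ ⟨h * Quotient.out ((h⁻¹ : H) : H ⧸ N), rp_spec h⟩).toAdd, ?_⟩⟩
  intro n h
  have h1 : (((n * h : H)⁻¹ : H) : H ⧸ N) = ((h⁻¹ : H) : H ⧸ N) := by
    rw [QuotientGroup.eq, inv_inv, mul_inv_cancel_right]
    exact n.2
  have h2 : (⟨n * h * Quotient.out ((((n * h : H)⁻¹ : H) : H ⧸ N)), rp_spec (n * h)⟩ : N) =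
      n * ⟨h * Quotient.out ((h⁻¹ : H) : H ⧸ N), rp_spec h⟩ := by
    refine Subtype.ext ?_
    change (n : H) * h * Quotient.out (((n * h : H)⁻¹ : H) : H ⧸ N) =
      n * (h * Quotient.out ((h⁻¹ : H) : H ⧸ N))
    rw [h1, mul_assoc]
  change (φ ⟨n * h * Quotient.out ((((n * h : H)⁻¹ : H) : H ⧸ N)), rp_spec (n * h)⟩).toAdd = _
  rw [h2, map_mul]
  rfl

/-- the values at the representatives -/
noncomputable def LP.vals (f : LP φ) : (H ⧸ N) → ℤ := fun q => f.1 (rp q)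

theorem LP.vals_le {f g : LP φ} (h : ∀ q, LP.vals φ f q ≤ LP.vals φ g q) : f ≤ g := fun x => by
  rw [LP.val_eq, LP.val_eq φ g]
  exact add_le_add_right (h _) _

theorem LP.vals_inj : Function.Injective (LP.vals φ) := fun _ _ h =>
  le_antisymm (LP.vals_le φ fun q => (congrFun h q).le) (LP.vals_le φ fun q => (congrFun h q).ge)

theorem LP.finite_Icc [N.FiniteIndex] (a b : LP φ) : (Set.Icc a b).Finite := by
  classical
  have : Finite (H ⧸ N) := inferInstance
  have : Fintype (H ⧸ N) := Fintype.ofFinite _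
  refine Set.Finite.of_finite_image (f := LP.vals φ) ?_ (LP.vals_inj φ).injOn
  refine (Set.finite_Icc (LP.vals φ a) (LP.vals φ b)).subset ?_
  rintro _ ⟨f, hf, rfl⟩
  exact ⟨fun q => hf.1 _, fun q => hf.2 _⟩

theorem LP.card_le [N.FiniteIndex] {σ : Finset (LP φ)} (hσ : IsCl (LP.T φ) σ) :
    σ.card ≤ N.index + 1 := by
  classical
  have : Finite (H ⧸ N) := inferInstance
  have : Fintype (H ⧸ N) := Fintype.ofFinite _
  rcases σ.eq_empty_or_nonempty with rfl | hne
  · simp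
  obtain ⟨x, hx⟩ := σ.exists_minimal hne
  set S : LP φ → ℤ := fun f => ∑ q, LP.vals φ f q with hS
  have hmono : ∀ f g : LP φ, f ≤ g → S f ≤ S g := fun f g h =>
    Finset.sum_le_sum fun q _ => h _
  have hstrict : ∀ f g : LP φ, f ≤ g → S f = S g → f = g := by
    intro f g h hfg
    refine le_antisymm h (LP.vals_le φ fun q => ?_)
    by_contra hq
    push Not at hq
    have h1 : S f < S g := Finset.sum_lt_sum (fun q _ => h _) ⟨q, Finset.mem_univ q, hq⟩
    omega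
  have hinj : Set.InjOn S σ := by
    intro f hf g hg hfg
    rcases hσ.isCh f hf g hg with h | h
    · exact hstrict f g h hfg
    · exact (hstrict g f h hfg.symm).symm
  have hT : S (LP.T φ x) = S x + N.index := by
    have h1 : S (LP.T φ x) = ∑ q : H ⧸ N, (LP.vals φ x q + 1) := rfl
    rw [h1, Finset.sum_add_distrib, Finset.sum_const, Finset.card_univ, Subgroup.index,
      Nat.card_eq_fintype_card]
    simp [hS]
  have hsub : σ.image S ⊆ Finset.Icc (S x) (S x + N.index) := by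
    intro s hs
    obtain ⟨y, hy, rfl⟩ := Finset.mem_image.1 hs
    rw [Finset.mem_Icc]
    have h1 : x ≤ y ∧ y ≤ LP.T φ x := by
      rcases hσ x hx.1 y hy with h | h
      · exact h
      · have h2 : x ≤ y := hx.2 hy h.1
        have h3 : y = x := le_antisymm h.1 h2
        rw [h3]
        exact ⟨le_rfl, LP.le_T φ x⟩
    exact ⟨hmono _ _ h1.1, hT ▸ hmono _ _ h1.2⟩
  have h1 := Finset.card_le_card hsub
  rw [Finset.card_image_of_injOn hinj, Int.card_Icc] at h1
  omega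

/-- the action on finite sets -/
def LP.act (g : H) (σ : Finset (LP φ)) : Finset (LP φ) :=
  σ.map (MulAction.toPerm g : Equiv.Perm (LP φ)).toEmbedding

theorem LP.mem_act {g : H} {σ : Finset (LP φ)} {x : LP φ} :
    x ∈ LP.act φ g σ ↔ ∃ y ∈ σ, g • y = x := by
  rw [LP.act, Finset.mem_map]
  rfl

theorem LP.smul_mem_act {g : H} {σ : Finset (LP φ)} {x : LP φ} :
    g • x ∈ LP.act φ g σ ↔ x ∈ σ := by
  rw [LP.mem_act]
  constructor
  · rintro ⟨y, hy, h⟩
    rwa [← smul_left_cancel g h]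
  · exact fun h => ⟨x, h, rfl⟩

theorem LP.act_isCl {g : H} {σ : Finset (LP φ)} (h : IsCl (LP.T φ) σ) :
    IsCl (LP.T φ) (LP.act φ g σ) := by
  intro x' hx' y' hy'
  obtain ⟨x, hx, rfl⟩ := (LP.mem_act φ).1 hx'
  obtain ⟨y, hy, rfl⟩ := (LP.mem_act φ).1 hy'
  rcases h x hx y hy with h | h
  · exact Or.inl ⟨(LP.smul_le φ).2 h.1, by rw [← LP.smul_T]; exact (LP.smul_le φ).2 h.2⟩
  · exact Or.inr ⟨(LP.smul_le φ).2 h.1, by rw [← LP.smul_T]; exact (LP.smul_le φ).2 h.2⟩

theorem LP.card_act (g : H) (σ : Finset (LP φ)) : (LP.act φ g σ).card = σ.card :=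
  Finset.card_map _

theorem LP.act_mul (g g' : H) (σ : Finset (LP φ)) :
    LP.act φ (g * g') σ = LP.act φ g (LP.act φ g' σ) := by
  ext x
  rw [LP.mem_act, LP.mem_act]
  constructor
  · rintro ⟨y, hy, rfl⟩
    exact ⟨g' • y, (LP.smul_mem_act φ).2 hy, (mul_smul g g' y).symm⟩
  · rintro ⟨y, hy, rfl⟩
    obtain ⟨z, hz, rfl⟩ := (LP.mem_act φ).1 hy
    exact ⟨z, hz, mul_smul g g' z⟩

theorem LP.act_one (σ : Finset (LP φ)) : LP.act φ 1 σ = σ := by
  ext x
  rw [LP.mem_act]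
  constructor
  · rintro ⟨y, hy, rfl⟩
    rwa [one_smul]
  · exact fun h => ⟨x, h, one_smul H x⟩

/-- cliques with `k` elements -/
abbrev Cl (k : ℕ) : Type v := {σ : Finset (LP φ) // IsCl (LP.T φ) σ ∧ σ.card = k}

instance (k : ℕ) : MulAction H (Cl φ k) where
  smul g σ := ⟨LP.act φ g σ.1, LP.act_isCl φ σ.2.1, (LP.card_act φ g σ.1).trans σ.2.2⟩
  one_smul σ := Subtype.ext (LP.act_one φ σ.1)
  mul_smul g g' σ := Subtype.ext (LP.act_mul φ g g' σ.1)

theorem Cl.smul_val {k : ℕ} (g : H) (σ : Cl φ k) : (g • σ).1 = LP.act φ g σ.1 := rfl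

theorem Cl.fix {k : ℕ} (σ : Cl φ (k + 1)) {g : H} (hg : g ∈ N) (h : g • σ = σ) :
    φ ⟨g, hg⟩ = 1 := by
  have hne : σ.1.Nonempty := by
    rw [← Finset.card_pos, σ.2.2]
    omega
  obtain ⟨x, hx⟩ := σ.1.exists_minimal hne
  have h1 : LP.act φ g σ.1 = σ.1 := congrArg Subtype.val h
  have h2 : g • x ∈ σ.1 := by
    have := (LP.smul_mem_act φ (g := g)).2 hx.1
    rwa [h1] at this
  have h3 : g⁻¹ • x ∈ σ.1 := by
    have h4 : g • (g⁻¹ • x) ∈ LP.act φ g σ.1 := by rw [smul_inv_smul, h1]; exact hx.1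
    exact (LP.smul_mem_act φ).1 h4
  have h4 : x ≤ g • x := (σ.2.1.isCh x hx.1 _ h2).elim id (hx.2 h2)
  have h5 : x ≤ g⁻¹ • x := (σ.2.1.isCh x hx.1 _ h3).elim id (hx.2 h3)
  have h6 : g • x ≤ x := by
    have h7 := (LP.smul_le φ (g := g)).2 h5
    rwa [smul_inv_smul] at h7
  exact LP.fix φ hg (le_antisymm h6 h4)

theorem Cl.isEmpty [N.FiniteIndex] {k : ℕ} (hk : N.index + 1 < k) : IsEmpty (Cl φ k) :=
  ⟨fun σ => by
    have h1 := LP.card_le φ σ.2.1
    rw [σ.2.2] at h1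
    omega⟩

end

end Pool.Agent.UPV
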