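import Mathlib
import Pool.Agent.Lib.UP.FLat
import Pool.Agent.Lib.UPV.V3
import Pool.Agent.Lib.UPV.F2b

/-!
# The poset of a homomorphism `N → F(X)`, `N ≤ H` of finite index

The functions from `H` to the faces of the Cayley tree of `F(X)` with `f (n h) = φ n • f h`; a face
is the set of its vertices.
-/

open Pointwise Pool.Agent.UP

namespace Pool.Agent.UPV.Fr

universe v w

/-! ### the tree -/

section tree
variable {X : Type}

/-- the faces of the Cayley tree -/
def IsFace (s : Set (FreeGroup X)) : Prop :=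
  (∃ g, s = {g}) ∨ ∃ g x, s = {g, g * FreeGroup.of x}

theorem IsFace.smul {s : Set (FreeGroup X)} (h : IsFace s) (g : FreeGroup X) :
    IsFace (g • s) := by
  rcases h with ⟨a, rfl⟩ | ⟨a, x, rfl⟩
  · exact Or.inl ⟨g * a, by rw [Set.smul_set_singleton, smul_eq_mul]⟩
  · refine Or.inr ⟨g * a, x, ?_⟩
    rw [Set.smul_set_insert, Set.smul_set_singleton, smul_eq_mul, smul_eq_mul, mul_assoc]

theorem IsFace.nonempty {s : Set (FreeGroup X)} (h : IsFace s) : s.Nonempty := by
  rcases h with ⟨a, rfl⟩ | ⟨a, x, rfl⟩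
  · exact Set.singleton_nonempty a
  · exact ⟨a, Or.inl rfl⟩

theorem IsFace.finite {s : Set (FreeGroup X)} (h : IsFace s) : s.Finite := by
  rcases h with ⟨a, rfl⟩ | ⟨a, x, rfl⟩
  · exact Set.finite_singleton a
  · exact Set.toFinite _

theorem IsFace.ncard_le {s : Set (FreeGroup X)} (h : IsFace s) : s.ncard ≤ 2 := by
  rcases h with ⟨a, rfl⟩ | ⟨a, x, rfl⟩
  · rw [Set.ncard_singleton]
    omega
  · exact Set.ncard_insert_le _ _ |>.trans (by rw [Set.ncard_singleton])

theorem of_ne_one (x : X) : FreeGroup.of x ≠ 1 := FreeGroup.of_ne_one x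

theorem of_mul_of_ne_one (x : X) : FreeGroup.of x * FreeGroup.of x ≠ 1 := by
  intro h
  have h1 := congrArg (FreeGroup.lift fun _ : X => Multiplicative.ofAdd (1 : ℤ)) h
  rw [MonoidHom.map_mul, FreeGroup.lift_apply_of, MonoidHom.map_one] at h1
  have h2 : (1 : ℤ) + 1 = 0 := congrArg Multiplicative.toAdd h1
  omega

theorem IsFace.fix {s : Set (FreeGroup X)} (h : IsFace s) {g : FreeGroup X} (hg : g • s = s) :
    g = 1 := by
  rcases h with ⟨a, rfl⟩ | ⟨a, x, rfl⟩
  · rw [Set.smul_set_singleton, smul_eq_mul, Set.singleton_eq_singleton_iff] at hg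
    exact mul_eq_right.1 hg
  · rw [Set.smul_set_insert, Set.smul_set_singleton, smul_eq_mul, smul_eq_mul] at hg
    have h1 : g * a ∈ ({a, a * FreeGroup.of x} : Set (FreeGroup X)) := by
      rw [← hg]
      exact Or.inl rfl
    have h2 : g * (a * FreeGroup.of x) ∈ ({a, a * FreeGroup.of x} : Set (FreeGroup X)) := by
      rw [← hg]
      exact Or.inr rfl
    rcases h1 with h1 | h1
    · exact mul_eq_right.1 h1
    · rw [Set.mem_singleton_iff] at h1
      rw [← mul_assoc, h1] at h2
      rcases h2 with h2 | h2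
      · rw [mul_assoc] at h2
        exact absurd (mul_eq_left.1 h2) (of_mul_of_ne_one x)
      · rw [Set.mem_singleton_iff] at h2
        exact absurd (mul_eq_left.1 h2) (of_ne_one x)

variable [DecidableEq X]

theorem exists_par {w : FreeGroup X} (hw : w ≠ 1) :
    ∃ s : X × Bool, (w * ltr s).norm + 1 = w.norm := by
  have h1 : (w⁻¹).toWord ≠ [] := by
    intro h
    exact hw (inv_eq_one.1 (FreeGroup.toWord_eq_nil_iff.1 h))
  obtain ⟨s, tl, h2⟩ := List.exists_cons_of_ne_nil h1
  refine ⟨s, ?_⟩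
  have h3 : w⁻¹ = ltr s * FreeGroup.mk tl := by
    rw [ltr, FreeGroup.mul_mk, List.singleton_append, ← h2, FreeGroup.mk_toWord]
  have h4 : w * ltr s = (FreeGroup.mk tl)⁻¹ := by
    rw [eq_inv_iff_mul_eq_one, mul_assoc, ← h3, mul_inv_cancel]
  have h5 : (w * ltr s).norm ≤ tl.length := by
    rw [h4, FreeGroup.norm_inv_eq]
    exact FreeGroup.norm_mk_le
  have h6 : w.norm = tl.length + 1 := by
    rw [← FreeGroup.norm_inv_eq, FreeGroup.norm, h2, List.length_cons]
  rcases norm_mul_ltr w s with h7 | ⟨-, h7⟩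
  · omega
  · exact h7

omit [DecidableEq X] in
theorem isFace_edge (w : FreeGroup X) (s : X × Bool) : IsFace {w, w * ltr s} := by
  obtain ⟨x, b⟩ := s
  cases b
  · refine Or.inr ⟨w * (FreeGroup.of x)⁻¹, x, ?_⟩
    rw [ltr_false, inv_mul_cancel_right, Set.pair_comm]
  · exact Or.inr ⟨w, x, by rw [ltr_true]⟩

theorem face_mem {B : Set (FreeGroup X)} {w : FreeGroup X} {s : X × Bool}
    (hmax : ∀ v ∈ B, v.norm ≤ w.norm) (hs : (w * ltr s).norm + 1 = w.norm)
    {t : Set (FreeGroup X)} (ht : IsFace t) (htB : t ⊆ B) (hw : w ∈ t) :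
    t = {w} ∨ t = {w, w * ltr s} := by
  rcases ht with ⟨a, rfl⟩ | ⟨a, x, rfl⟩
  · rw [Set.mem_singleton_iff] at hw
    exact Or.inl (by rw [hw])
  · right
    rcases hw with hw | hw
    · have h1 : (w * ltr (x, true)).norm ≤ w.norm := by
        refine hmax _ (htB ?_)
        rw [ltr_true, hw]
        exact Or.inr rfl
      rw [ltr_unique (s := s) (s' := (x, true)) (by omega) h1, ltr_true, hw]
    · rw [Set.mem_singleton_iff] at hw
      have h2 : w * ltr (x, false) = a := by
        rw [ltr_false, hw, mul_inv_cancel_right]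
      have h1 : (w * ltr (x, false)).norm ≤ w.norm := by
        refine hmax _ (htB ?_)
        rw [h2]
        exact Or.inl rfl
      rw [ltr_unique (s := s) (s' := (x, false)) (by omega) h1, h2, Set.pair_comm, hw]

/-- finite subtrees containing `1` -/
def Cld (B : Set (FreeGroup X)) : Prop :=
  1 ∈ B ∧ ∀ w ∈ B, ∀ s : X × Bool, (w * ltr s).norm < w.norm → w * ltr s ∈ B

theorem exists_cld_one (n : ℕ) : ∀ w : FreeGroup X, w.norm = n →
    ∃ B : Set (FreeGroup X), B.Finite ∧ Cld B ∧ w ∈ B := by
  induction n with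
  | zero =>
    intro w hw
    have h1 : w = 1 := FreeGroup.norm_eq_zero.1 hw
    refine ⟨{1}, Set.finite_singleton 1, ⟨rfl, ?_⟩, h1⟩
    intro v hv s hs
    rw [Set.mem_singleton_iff] at hv
    rw [hv, FreeGroup.norm_one] at hs
    omega
  | succ n ih =>
    intro w hw
    have h1 : w ≠ 1 := by
      rintro rfl
      rw [FreeGroup.norm_one] at hw
      omega
    obtain ⟨s, hs⟩ := exists_par h1
    obtain ⟨B, hB, hC, hwB⟩ := ih (w * ltr s) (by omega)
    refine ⟨insert w B, hB.insert w, ⟨Or.inr hC.1, ?_⟩, Or.inl rfl⟩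
    intro v hv s' hs'
    rcases hv with hv | hv
    · subst hv
      rw [← ltr_unique (v := v) (s := s) (s' := s') (by omega) (by omega)]
      exact Or.inr hwB
    · exact Or.inr (hC.2 v hv s' hs')

theorem exists_cld (S : Set (FreeGroup X)) (hS : S.Finite) :
    ∃ B : Set (FreeGroup X), B.Finite ∧ Cld B ∧ S ⊆ B := by
  induction S, hS using Set.Finite.induction_on with
  | empty =>
    obtain ⟨B, hB, hC, -⟩ := exists_cld_one 0 (1 : FreeGroup X) FreeGroup.norm_one
    exact ⟨B, hB, hC, Set.empty_subset B⟩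
  | @insert a S _ _ ih =>
    obtain ⟨B, hB, hC, hSB⟩ := ih
    obtain ⟨B', hB', hC', ha⟩ := exists_cld_one _ a rfl
    refine ⟨B ∪ B', hB.union hB', ⟨Or.inl hC.1, ?_⟩, ?_⟩
    · rintro w (hw | hw) s hs
      · exact Or.inl (hC.2 w hw s hs)
      · exact Or.inr (hC'.2 w hw s hs)
    · intro x hx
      rcases hx with rfl | hx
      · exact Or.inr ha
      · exact Or.inl (hSB hx)

end tree

/-! ### the poset -/

section
variable {H : Type v} [Group H] {N : Subgroup H} {X : Type} (φ : N →* FreeGroup X)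

/-- the functions from `H` to the faces of the tree with `f (n h) = φ n • f h` -/
abbrev FP : Type v := {f : H → Set (FreeGroup X) // (∀ h, IsFace (f h)) ∧
  ∀ (n : N) (h : H), f (n * h) = φ n • f h}

theorem FP.le_iff {f g : FP φ} : f ≤ g ↔ ∀ h, f.1 h ⊆ g.1 h := Iff.rfl

/-- the action -/
instance : MulAction H (FP φ) where
  smul g f := ⟨fun h => f.1 (h * g), fun h => f.2.1 _, fun n h => by
    change f.1 (n * h * g) = φ n • f.1 (h * g)
    rw [mul_assoc, f.2.2]⟩
  one_smul f := Subtype.ext (funext fun h => by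
    change f.1 (h * 1) = f.1 h
    rw [mul_one])
  mul_smul g g' f := Subtype.ext (funext fun h => by
    change f.1 (h * (g * g')) = f.1 (h * g * g')
    rw [mul_assoc])

theorem FP.smul_apply (g : H) (f : FP φ) (h : H) : (g • f).1 h = f.1 (h * g) := rfl

instance : OrdAct H (FP φ) where
  le_iff g f f' := by
    constructor
    · intro h x
      have := h (x * g⁻¹)
      rwa [FP.smul_apply, FP.smul_apply, inv_mul_cancel_right] at this
    · intro h x
      exact h _

theorem FP.fix {g : H} (hg : g ∈ N) {f : FP φ} (h : g • f = f) : φ ⟨g, hg⟩ = 1 := by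
  have h1 := congrFun (congrArg Subtype.val h) 1
  rw [FP.smul_apply, one_mul] at h1
  have h2 := f.2.2 ⟨g, hg⟩ 1
  rw [mul_one] at h2
  change f.1 g = _ at h2
  rw [h1] at h2
  exact (f.2.1 1).fix h2.symm

theorem FP.val_eq (f : FP φ) (h : H) : f.1 h =
    φ ⟨h * Quotient.out ((h⁻¹ : H) : H ⧸ N), rp_spec h⟩ • f.1 (rp ((h⁻¹ : H) : H ⧸ N)) := by
  have h1 := f.2.2 ⟨h * Quotient.out ((h⁻¹ : H) : H ⧸ N), rp_spec h⟩ (rp ((h⁻¹ : H) : H ⧸ N))
  rw [← h1]
  have h2 : h = h * Quotient.out ((h⁻¹ : H) : H ⧸ N) * (Quotient.out ((h⁻¹ : H) : H ⧸ N))⁻¹ :=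
    (mul_inv_cancel_right _ _).symm
  exact congrArg f.1 h2

/-- the function with given values at the representatives -/
noncomputable def FP.mk (g : H ⧸ N → Set (FreeGroup X)) (hg : ∀ q, IsFace (g q)) : FP φ := by
  refine ⟨fun h => φ ⟨h * Quotient.out ((h⁻¹ : H) : H ⧸ N), rp_spec h⟩ • g ((h⁻¹ : H) : H ⧸ N),
    fun h => (hg _).smul _, ?_⟩
  intro n h
  have h1 : (((n * h : H)⁻¹ : H) : H ⧸ N) = ((h⁻¹ : H) : H ⧸ N) := by
    rw [QuotientGroup.eq, inv_inv, mul_inv_cancel_right]
    exact n.2
  have h2 : (⟨n * h * Quotient.out ((((n * h : H)⁻¹ : H) : H ⧸ N)), rp_spec (n * h)⟩ : N) =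
      n * ⟨h * Quotient.out ((h⁻¹ : H) : H ⧸ N), rp_spec h⟩ := by
    refine Subtype.ext ?_
    change (n : H) * h * Quotient.out (((n * h : H)⁻¹ : H) : H ⧸ N) =
      n * (h * Quotient.out ((h⁻¹ : H) : H ⧸ N))
    rw [h1, mul_assoc]
  change φ ⟨n * h * Quotient.out ((((n * h : H)⁻¹ : H) : H ⧸ N)), rp_spec (n * h)⟩ •
    g (((n * h : H)⁻¹ : H) : H ⧸ N) = _
  rw [h2, map_mul, mul_smul, h1]

theorem FP.mk_rp (g : H ⧸ N → Set (FreeGroup X)) (hg : ∀ q, IsFace (g q)) (q : H ⧸ N) :
    (FP.mk φ g hg).1 (rp q) = g q := by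
  have h1 : (((rp q)⁻¹ : H) : H ⧸ N) = q := by
    rw [rp, inv_inv]
    exact QuotientGroup.out_eq' q
  have h2 : (⟨rp q * Quotient.out (((rp q)⁻¹ : H) : H ⧸ N), rp_spec (rp q)⟩ : N) = 1 := by
    refine Subtype.ext ?_
    change rp q * Quotient.out (((rp q)⁻¹ : H) : H ⧸ N) = 1
    rw [h1, rp, inv_mul_cancel]
  change φ ⟨rp q * Quotient.out (((rp q)⁻¹ : H) : H ⧸ N), rp_spec (rp q)⟩ •
    g (((rp q)⁻¹ : H) : H ⧸ N) = g q
  rw [h2, map_one, one_smul, h1]

theorem FP.le_of_vals {f g : FP φ} (h : ∀ q : H ⧸ N, f.1 (rp q) ⊆ g.1 (rp q)) : f ≤ g :=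
  fun x => by
    rw [FP.val_eq, FP.val_eq φ g]
    exact Set.smul_set_subset_smul_set_iff.2 (h _)

theorem FP.ext_vals {f g : FP φ} (h : ∀ q : H ⧸ N, f.1 (rp q) = g.1 (rp q)) : f = g :=
  le_antisymm (FP.le_of_vals φ fun q => (h q).le) (FP.le_of_vals φ fun q => (h q).ge)

instance : Nonempty (FP φ) := ⟨FP.mk φ (fun _ => {1}) fun _ => Or.inl ⟨1, rfl⟩⟩

theorem FP.card_le [N.FiniteIndex] {σ : Finset (FP φ)} (hσ : IsCh σ) :
    σ.card ≤ N.index + 1 := by
  classical
  have : Finite (H ⧸ N) := inferInstance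
  have : Fintype (H ⧸ N) := Fintype.ofFinite _
  set S : FP φ → ℕ := fun f => ∑ q : H ⧸ N, (f.1 (rp q)).ncard with hS
  have hmono : ∀ f g : FP φ, f ≤ g → S f ≤ S g := fun f g h =>
    Finset.sum_le_sum fun q _ => Set.ncard_le_ncard (h _) (g.2.1 _).finite
  have hstrict : ∀ f g : FP φ, f ≤ g → S f = S g → f = g := by
    intro f g h hfg
    refine FP.ext_vals φ fun q => ?_
    by_contra hq
    have h1 : S f < S g := Finset.sum_lt_sum
      (fun q _ => Set.ncard_le_ncard (h _) (g.2.1 _).finite)
      ⟨q, Finset.mem_univ q, Set.ncard_lt_ncard (lt_of_le_of_ne (h _) hq) (g.2.1 _).finite⟩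
    omega
  have hinj : Set.InjOn S σ := by
    intro f hf g hg hfg
    rcases hσ f hf g hg with h | h
    · exact hstrict f g h hfg
    · exact (hstrict g f h hfg.symm).symm
  have hcard : Fintype.card (H ⧸ N) = N.index := by
    rw [Subgroup.index, Nat.card_eq_fintype_card]
  have hsub : σ.image S ⊆ Finset.Icc N.index (N.index + N.index) := by
    intro s hs
    obtain ⟨y, hy, rfl⟩ := Finset.mem_image.1 hs
    rw [Finset.mem_Icc]
    constructor
    · have h1 : ∑ _q : H ⧸ N, 1 ≤ S y := Finset.sum_le_sum fun q _ => by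
        have h2 := (Set.ncard_pos (y.2.1 (rp q)).finite).2 (y.2.1 (rp q)).nonempty
        omega
      rw [Finset.sum_const, Finset.card_univ, hcard, smul_eq_mul, mul_one] at h1
      exact h1
    · have h1 : S y ≤ ∑ _q : H ⧸ N, 2 := Finset.sum_le_sum fun q _ => (y.2.1 (rp q)).ncard_le
      rw [Finset.sum_const, Finset.card_univ, hcard, smul_eq_mul] at h1
      omega
  have h1 := Finset.card_le_card hsub
  rw [Finset.card_image_of_injOn hinj, Nat.card_Icc] at h1
  omega

variable [N.FiniteIndex]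

theorem FP.finite_vb (B : Set (FreeGroup X)) (hB : B.Finite) :
    {f : FP φ | ∀ q : H ⧸ N, f.1 (rp q) ⊆ B}.Finite := by
  classical
  have : Finite (H ⧸ N) := inferInstance
  refine Set.Finite.of_finite_image (f := fun (f : FP φ) (q : H ⧸ N) => f.1 (rp q)) ?_ ?_
  · refine (Set.Finite.pi (t := fun _ : H ⧸ N => {s : Set (FreeGroup X) | s ⊆ B})
      fun _ => hB.finite_subsets).subset ?_
    rintro _ ⟨f, hf, rfl⟩ q _
    exact hf q
  · intro f _ g _ h
    exact FP.ext_vals φ fun q => congrFun h q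

/-- the functions with values in the subtree `B` at the representatives -/
noncomputable def VB (B : Set (FreeGroup X)) (hB : B.Finite) : Finset (FP φ) :=
  (FP.finite_vb φ B hB).toFinset

theorem mem_VB {B : Set (FreeGroup X)} {hB : B.Finite} {f : FP φ} :
    f ∈ VB φ B hB ↔ ∀ q : H ⧸ N, f.1 (rp q) ⊆ B := Set.Finite.mem_toFinset _

variable [DecidableEq X] (M : Type w) [AddCommGroup M]

/-- **exactness on the functions with values in a finite subtree** -/
theorem ex_VB (n : ℕ) : ∀ (B : Set (FreeGroup X)) (hB : B.Finite), Cld B → B.ncard = n →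
    Ex M (VB φ B hB) := by
  classical
  induction n with
  | zero =>
    intro B hB hC hn
    rw [Set.ncard_eq_zero hB] at hn
    rw [hn] at hC
    exact absurd hC.1 (Set.notMem_empty _)
  | succ n ih =>
    intro B hB hC hn
    obtain ⟨w, hwB, hmax'⟩ := hB.exists_maximalFor FreeGroup.norm B ⟨1, hC.1⟩
    have hmax : ∀ v ∈ B, v.norm ≤ w.norm := fun v hv => by
      by_contra hc
      push Not at hc
      have := hmax' hv hc.le
      omega
    by_cases hw1 : w = 1
    · -- the base
      have hB1 : B = {1} := by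
        refine Set.eq_singleton_iff_unique_mem.2 ⟨hC.1, fun v hv => ?_⟩
        have h1 := hmax v hv
        rw [hw1, FreeGroup.norm_one] at h1
        exact FreeGroup.norm_eq_zero.1 (by omega)
      have hval : ∀ f ∈ VB φ B hB, ∀ q : H ⧸ N, f.1 (rp q) = {1} := by
        intro f hf q
        have h1 := (mem_VB φ).1 hf q
        rw [hB1] at h1
        exact (Set.subset_singleton_iff_eq.1 h1).resolve_left
          (f.2.1 (rp q)).nonempty.ne_empty
      set b : FP φ := FP.mk φ (fun _ => {1}) fun _ => Or.inl ⟨1, rfl⟩ with hb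
      have hb1 : ∀ q : H ⧸ N, b.1 (rp q) = {1} := fun q => FP.mk_rp φ _ _ q
      refine ex_cone (b := b) ?_ fun x hx => Or.inl ?_
      · rw [mem_VB]
        intro q
        rw [hb1, hB1]
      · exact FP.le_of_vals φ fun q => by rw [hb1, hval x hx q]
    · obtain ⟨s, hs⟩ := exists_par hw1
      have hpB : w * ltr s ∈ B := hC.2 w hwB s (by omega)
      set p := w * ltr s with hp
      have hpw : p ≠ w := by
        intro h
        rw [h] at hs
        omega
      have hedge : IsFace {w, p} := isFace_edge w s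
      have hface : ∀ f ∈ VB φ B hB, ∀ q : H ⧸ N, w ∈ f.1 (rp q) →
          f.1 (rp q) = {w} ∨ f.1 (rp q) = {w, p} := fun f hf q hq =>
        face_mem hmax hs (f.2.1 _) ((mem_VB φ).1 hf q) hq
      have hwp : ({w, p} : Set (FreeGroup X)) ≠ {w} := by
        intro h
        have h1 : p ∈ ({w} : Set (FreeGroup X)) := by
          rw [← h]
          exact Or.inr rfl
        exact hpw h1
      -- the two steps
      have hB' : (B \ {w}).Finite := hB.subset Set.sdiff_subset
      set F₁ : Finset (FP φ) := (VB φ B hB).filter (fun f => ∀ q : H ⧸ N, f.1 (rp q) ≠ {w})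
        with hF₁
      have hF₂ : Ex M (VB φ (B \ {w}) hB') := by
        refine ih _ hB' ⟨⟨hC.1, fun h => hw1 h.symm⟩, ?_⟩ ?_
        · rintro v ⟨hv, hvw⟩ s' hs'
          refine ⟨hC.2 v hv s' hs', ?_⟩
          intro h
          have h1 := hmax v hv
          rw [Set.mem_singleton_iff.1 h] at hs'
          omega
        · rw [Set.ncard_sdiff_singleton_of_mem hwB, hn]
          rfl
      have h₁ : Ex M F₁ := by
        let ρ : FP φ → FP φ := fun f => FP.mk φ
          (fun q => if w ∈ f.1 (rp q) then {p} else f.1 (rp q)) fun q => by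
            split_ifs
            · exact Or.inl ⟨p, rfl⟩
            · exact f.2.1 _
        have hρ : ∀ f q, (ρ f).1 (rp q) = if w ∈ f.1 (rp q) then {p} else f.1 (rp q) :=
          fun f q => FP.mk_rp φ _ _ q
        refine ex_down (F := VB φ (B \ {w}) hB') ?_ ρ ?_ ?_ ?_ hF₂
        · intro f hf
          rw [mem_VB] at hf
          rw [hF₁, Finset.mem_filter, mem_VB]
          refine ⟨fun q => (hf q).trans Set.sdiff_subset, fun q h => ?_⟩
          have h1 : w ∈ B \ {w} := hf q (by rw [h]; rfl)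
          exact h1.2 rfl
        · intro f hf _
          rw [hF₁, Finset.mem_filter] at hf
          rw [mem_VB]
          intro q
          rw [hρ]
          split_ifs with h
          · rintro x rfl
            exact ⟨hpB, hpw⟩
          · exact fun x hx => ⟨(mem_VB φ).1 hf.1 q hx, fun h' => h (h' ▸ hx)⟩
        · intro f hf _
          rw [hF₁, Finset.mem_filter] at hf
          refine FP.le_of_vals φ fun q => ?_
          rw [hρ]
          split_ifs with h
          · rcases hface f hf.1 q h with h1 | h1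
            · exact absurd h1 (hf.2 q)
            · rw [h1]
              exact fun x hx => Or.inr hx
          · exact subset_rfl
        · intro f hf _ y hy hyf
          rw [hF₁, Finset.mem_filter] at hf
          refine FP.le_of_vals φ fun q => ?_
          rw [hρ]
          split_ifs with h
          · intro x hx
            have h2 : x ∈ B \ {w} := (mem_VB φ).1 hy q hx
            have h3 : x ∈ f.1 (rp q) := hyf _ hx
            rcases hface f hf.1 q h with h1 | h1
            · exact absurd h1 (hf.2 q)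
            · rw [h1] at h3
              exact h3.resolve_left h2.2
          · exact hyf _
      -- the leaves
      let ρ : FP φ → FP φ := fun f => FP.mk φ
        (fun q => if f.1 (rp q) = {w} then {w, p} else f.1 (rp q)) fun q => by
          split_ifs
          · exact hedge
          · exact f.2.1 _
      have hρ : ∀ f q, (ρ f).1 (rp q) = if f.1 (rp q) = {w} then {w, p} else f.1 (rp q) :=
        fun f q => FP.mk_rp φ _ _ q
      refine ex_up (F := F₁) (Finset.filter_subset _ _) ρ ?_ ?_ ?_ h₁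
      · intro f hf _
        rw [hF₁, Finset.mem_filter, mem_VB]
        refine ⟨fun q => ?_, fun q => ?_⟩
        · rw [hρ]
          split_ifs
          · rintro x (rfl | hx)
            · exact hwB
            · rw [Set.mem_singleton_iff] at hx
              rw [hx]
              exact hpB
          · exact (mem_VB φ).1 hf q
        · rw [hρ]
          split_ifs with h
          · exact hwp
          · exact h
      · intro f _ _
        refine FP.le_of_vals φ fun q => ?_
        rw [hρ]
        split_ifs with h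
        · rw [h]
          exact fun x hx => Or.inl hx
        · exact subset_rfl
      · intro f hf _ y hy hfy
        rw [hF₁, Finset.mem_filter] at hy
        refine FP.le_of_vals φ fun q => ?_
        rw [hρ]
        split_ifs with h
        · have h1 : w ∈ y.1 (rp q) := hfy _ (by rw [h]; rfl)
          rcases hface y hy.1 q h1 with h2 | h2
          · exact absurd h2 (hy.2 q)
          · rw [h2]
        · exact hfy _

/-- **exactness** -/
theorem FP.exists_ex (S : Finset (FP φ)) : ∃ V : Finset (FP φ), S ⊆ V ∧ Ex M V := by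
  classical
  have : Finite (H ⧸ N) := inferInstance
  obtain ⟨B, hB, hC, hSB⟩ := exists_cld (⋃ f ∈ S, ⋃ q : H ⧸ N, f.1 (rp q)) (by
    refine Set.Finite.biUnion S.finite_toSet fun f _ => ?_
    exact Set.finite_iUnion fun q => (f.2.1 _).finite)
  refine ⟨VB φ B hB, fun f hf => (mem_VB φ).2 fun q x hx => hSB ?_, ex_VB φ M _ B hB hC rfl⟩
  exact Set.mem_biUnion hf (Set.mem_iUnion.2 ⟨q, hx⟩)

end

end Pool.Agent.UPV.Fr
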