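import Pool.Agent.Lib.UPV.Defs

/-! # Twisted permutation modules are projective -/

open MonoidAlgebra CategoryTheory

namespace Pool.Agent.UPV

universe u v w x

section
variable {A : Type u} [CommRing A] {H : Type v} [Group H]

/-- an additive map which commutes with the elements `a g` is linear -/
theorem smul_of_single {M : Type w} [AddCommGroup M] [Module A[H] M] {N : Type x} [AddCommGroup N]
    [Module A[H] N] (φ : M →+ N)
    (h : ∀ (g : H) (a : A) m, φ ((single g a : A[H]) • m) = (single g a : A[H]) • φ m) (r : A[H])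
    (m : M) : φ (r • m) = r • φ m := by
  induction r using MonoidAlgebra.induction_linear with
  | zero => simp
  | add x y hx hy => rw [add_smul, add_smul, map_add, hx, hy]
  | single g a => exact h g a m

/-- the linear map -/
def linOfSingle {M : Type w} [AddCommGroup M] [Module A[H] M] {N : Type x} [AddCommGroup N]
    [Module A[H] N] (φ : M →+ N)
    (h : ∀ (g : H) (a : A) m, φ ((single g a : A[H]) • m) = (single g a : A[H]) • φ m) :
    M →ₗ[A[H]] N :=
  { φ with map_smul' := smul_of_single φ h }

theorem resM_single (S : Subgroup H) (M : Type w) [AddCommGroup M] [Module A[H] M] (g : S) (a : A)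
    (m : M) :
    (letI := resM A H S M; (single g a : A[S]) • m) = (single (g : H) a : A[H]) • m := by
  change (mapDomainRingHom A S.subtype (single g a) : A[H]) • m = _
  rw [mapDomainRingHom_apply, mapDomain_single]
  rfl

end

section
variable {A : Type u} [CommRing A] {H : Type v} [Group H] {X : Type v} [MulAction H X]
  {M : Type w} [AddCommGroup M] [Module A[H] M]

theorem exists_theta (x : X) (hp : ProjOn A H (MulAction.stabilizer H x) M) {E : Type x}
    [AddCommGroup E] [Module A[H] E]
    (f : E →ₗ[A[H]] Tw A H X M) (hf : Function.Surjective f) :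
    ∃ θ : M →+ E, (∀ m, f (θ m) = Tw.mk A H x m) ∧
      ∀ (g : H) (a : A) m, g • x = x →
        θ ((single g a : A[H]) • m) = (single g a : A[H]) • θ m := by
  unfold ProjOn at hp
  have hmem : ∀ g, g ∈ MulAction.stabilizer H x ↔ g • x = x := fun g =>
    MulAction.mem_stabilizer_iff
  generalize MulAction.stabilizer H x = S at hp hmem
  let i1 := resM A H S M
  let i2 := resM A H S E
  let i3 := resM A H S (Tw A H X M)
  let F : E →ₗ[A[S]] Tw A H X M :=
    linOfSingle (M := E) (N := Tw A H X M) f.toAddMonoidHom
      (fun g a m => by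
        rw [resM_single, resM_single]
        exact f.map_smul _ m)
  let G : M →ₗ[A[S]] Tw A H X M :=
    linOfSingle (M := M) (N := Tw A H X M)
      ⟨⟨fun m => Tw.mk A H x m, Finsupp.single_zero _⟩, Tw.mk_add A H x⟩
      (fun g a m => by
        rw [resM_single, resM_single]
        change Tw.mk A H x _ = _ • Tw.mk A H x _
        rw [Tw.single_smul, (hmem g).1 g.2])
  obtain ⟨h, hh⟩ := Module.projective_lifting_property F G hf
  refine ⟨h.toAddMonoidHom, fun m => congrArg (fun k : M →ₗ[A[S]] Tw A H X M =>
    k m) hh, fun g a m hg => ?_⟩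
  have := h.map_smul (single (⟨g, (hmem g).2 hg⟩ : S) a : A[S]) m
  rw [resM_single, resM_single] at this
  exact this

/-- the orbit representative -/
noncomputable def rep (H : Type v) [Group H] {X : Type w} [MulAction H X] (x : X) : X :=
  (Quotient.mk (MulAction.orbitRel H X) x).out

theorem rep_smul (g : H) (x : X) : rep H (g • x) = rep H x := by
  unfold rep
  congr 1
  exact Quotient.sound (MulAction.mem_orbit x g)

theorem exists_rep (x : X) : ∃ g : H, g • rep H x = x := by
  have h := Quotient.exact (Quotient.out_eq (Quotient.mk (MulAction.orbitRel H X) x))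
  have h2 : x ∈ MulAction.orbit H (rep H x) := by
    rw [← MulAction.orbitRel_apply]
    exact (MulAction.orbitRel H X).symm h
  obtain ⟨g, hg⟩ := h2
  exact ⟨g, hg⟩

/-- **Twisted permutation modules are projective** if the restrictions of `M` to the stabilisers
are projective. -/
theorem tw_projective' (hp : ∀ x : X, ProjOn A H (MulAction.stabilizer H x) M) :
    Module.Projective A[H] (Tw A H X M) := by
  refine Module.Projective.of_lifting_property'' fun f hf => ?_
  choose θ hθ1 hθ2 using fun x : X => exists_theta x (hp x) f hf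
  choose γ hγ using fun x : X => exists_rep (H := H) x
  -- the translate of the lift
  let Θ : X → (M →+ (Tw A H X M →₀ A[H])) := fun x =>
    (DistribSMul.toAddMonoidHom _ (single (γ x) 1 : A[H])).comp
      ((θ (rep H x)).comp (DistribSMul.toAddMonoidHom _ (single (γ x)⁻¹ 1 : A[H])))
  have hΘ : ∀ x m, Θ x m = (single (γ x) 1 : A[H]) •
      θ (rep H x) ((single (γ x)⁻¹ 1 : A[H]) • m) := fun x m => rfl
  have hΘ1 : ∀ x m, f (Θ x m) = Tw.mk A H x m := by
    intro x m
    rw [hΘ, map_smul, hθ1, Tw.single_smul, hγ, ← mul_smul, MonoidAlgebra.single_mul_single,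
      mul_inv_cancel, one_mul, ← MonoidAlgebra.one_def, one_smul]
  have hΘ2 : ∀ (g : H) (a : A) x m, Θ (g • x) ((single g a : A[H]) • m) =
      (single g a : A[H]) • Θ x m := by
    intro g a x m
    rw [hΘ, hΘ, rep_smul, ← mul_smul, ← mul_smul, MonoidAlgebra.single_mul_single,
      MonoidAlgebra.single_mul_single]
    have h1 : ((γ (g • x))⁻¹ * g * γ x) • rep H x = rep H x := by
      rw [mul_smul, mul_smul, hγ, inv_smul_eq_iff]
      have := hγ (g • x)
      rw [rep_smul] at this
      exact this.symm
    have h2 := hθ2 (rep H x) ((γ (g • x))⁻¹ * g * γ x) a ((single (γ x)⁻¹ 1 : A[H]) • m) h1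
    rw [← mul_smul, MonoidAlgebra.single_mul_single, mul_one, mul_inv_cancel_right] at h2
    rw [one_mul, h2, ← mul_smul, MonoidAlgebra.single_mul_single, one_mul, mul_one]
    congr 2
    group
  refine ⟨Tw.lift A H Θ hΘ2, ?_⟩
  have : (f.comp (Tw.lift A H Θ hΘ2)).toAddMonoidHom =
      (LinearMap.id : Tw A H X M →ₗ[A[H]] Tw A H X M).toAddMonoidHom := by
    refine Tw.addHom_ext A H fun x m => ?_
    change f (Tw.lift A H Θ hΘ2 (Tw.mk A H x m)) = Tw.mk A H x m
    rw [Tw.lift_mk, hΘ1]
  exact LinearMap.toAddMonoidHom_injective this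

end

theorem tw_projective {A : Type u} {H : Type v} [CommRing A] [Group H] (X : Type v) [MulAction H X]
    (M : Type (max u v)) [AddCommGroup M] [Module (MonoidAlgebra A H) M]
    (h : ∀ x : X, ProjOn A H (MulAction.stabilizer H x) M) :
    Module.Projective (MonoidAlgebra A H) (Tw A H X M) := tw_projective' h

end Pool.Agent.UPV
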