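import Pool.Agent.Lib.UPV.Defs
import Pool.Agent.Lib.UPV.V1

/-! # Projective dimension from the complex of twisted permutation modules -/

open MonoidAlgebra CategoryTheory

namespace Pool.Agent.UPV

universe u v w

/-- the projective dimension by means of a finite projective resolution -/
theorem pd_of_res {R : Type u} [Ring R] (n : ℕ) (P : ℕ → Type u) [∀ k, AddCommGroup (P k)]
    [∀ k, Module R (P k)] (hP : ∀ k, Module.Projective R (P k))
    (D : ∀ k, P (k + 1) →ₗ[R] P k) (M : Type u) [AddCommGroup M] [Module R M]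
    (ε : P 0 →ₗ[R] M) (hs : Function.Surjective ε) (h0 : ∀ y, ε (D 0 y) = 0)
    (hk : ∀ z, ε z = 0 → ∃ y, D 0 y = z) (hDD : ∀ k y, D k (D (k + 1) y) = 0)
    (hex : ∀ k z, D k z = 0 → ∃ y, D (k + 1) y = z) (he : ∀ k, n < k → Subsingleton (P k)) :
    Pd R M (n + 1) := by
  induction n generalizing P M with
  | zero =>
    have h1 : Function.Injective ε := by
      rw [injective_iff_map_eq_zero]
      intro z hz
      obtain ⟨y, rfl⟩ := hk z hz
      have := he 1 (by omega)
      rw [Subsingleton.elim y 0, map_zero]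
    have h2 : Module.Projective R M := by
      have := hP 0
      exact Module.Projective.of_equiv (LinearEquiv.ofBijective ε ⟨h1, hs⟩)
    have := (IsProjective.iff_projective (R := R) M).1 h2
    change HasProjectiveDimensionLT (ModuleCat.of R M) 1
    infer_instance
  | succ n ih =>
    let D0 : P 1 →ₗ[R] LinearMap.ker ε := (D 0).codRestrict (LinearMap.ker ε) fun y => h0 y
    have h1 : Pd R (LinearMap.ker ε) (n + 1) := by
      refine ih (fun k => P (k + 1)) (fun k => hP (k + 1)) (fun k => D (k + 1))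
        (LinearMap.ker ε) D0 ?_ ?_ ?_ (fun k y => hDD (k + 1) y) (fun k z => hex (k + 1) z)
        (fun k hk => he (k + 1) (by omega))
      · rintro ⟨z, hz⟩
        obtain ⟨y, hy⟩ := hk z hz
        exact ⟨y, Subtype.ext hy⟩
      · intro y
        exact Subtype.ext (hDD 0 y)
      · intro z hz
        exact hex 0 z (congrArg Subtype.val hz)
    have hS : (ModuleCat.shortComplexOfCompEqZero (LinearMap.ker ε).subtype ε (by
        refine LinearMap.ext ?_
        rintro ⟨z, hz⟩
        exact hz)).ShortExact := by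
      apply ModuleCat.shortComplex_shortExact
      · intro x
        constructor
        · intro hx
          exact ⟨⟨x, hx⟩, rfl⟩
        · rintro ⟨⟨z, hz⟩, rfl⟩
          exact hz
      · exact (LinearMap.ker ε).subtype_injective
      · exact hs
    have h2 : Projective (ModuleCat.of R (P 0)) :=
      (IsProjective.iff_projective (R := R) (P 0)).1 (hP 0)
    exact hS.hasProjectiveDimensionLT_X₃ (n + 1) h1
      (hasProjectiveDimensionLT_of_ge (ModuleCat.of R (P 0)) 1 _ (by omega))

instance tw_subsingleton (A : Type u) (H : Type v) (X : Type v) [IsEmpty X] (M : Type w)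
    [AddCommGroup M] : Subsingleton (Tw A H X M) :=
  inferInstanceAs (Subsingleton (X →₀ M))

/-- V4, given the presentation `exists_pres` -/
theorem pd_of_pres {A : Type u} {H : Type v} [CommRing A] [Group H] (N : Subgroup H)
    (φ : N →* Multiplicative ℤ) (M : Type (max u v)) [AddCommGroup M]
    [Module (MonoidAlgebra A H) M]
    (hp : ∃ (X : ℕ → Type v) (_ : ∀ k, MulAction H (X k))
      (D : ∀ k, Tw A H (X (k + 1)) M →ₗ[MonoidAlgebra A H] Tw A H (X k) M)
      (ε : Tw A H (X 0) M →ₗ[MonoidAlgebra A H] M),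
      Function.Surjective ε ∧ (∀ y, ε (D 0 y) = 0) ∧ (∀ z, ε z = 0 → ∃ y, D 0 y = z) ∧
      (∀ k y, D k (D (k + 1) y) = 0) ∧ (∀ k z, D k z = 0 → ∃ y, D (k + 1) y = z) ∧
      (∀ k, N.index < k → IsEmpty (X k)) ∧
      (∀ k (x : X k) (g : H) (hg : g ∈ N), g • x = x → φ ⟨g, hg⟩ = 1))
    (h : ∀ S : Subgroup H, (∀ g ∈ S, ∀ hg : g ∈ N, φ ⟨g, hg⟩ = 1) → ProjOn A H S M) :
    Pd (MonoidAlgebra A H) M (N.index + 1) := by
  obtain ⟨X, _, D, ε, h1, h2, h3, h4, h5, h6, h7⟩ := hp
  refine pd_of_res N.index (fun k => Tw A H (X k) M) (fun k => ?_) D M ε h1 h2 h3 h4 h5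
    (fun k hk => ?_)
  · exact tw_projective (X k) M fun x => h _ fun g hg hgN => h7 k x g hgN hg
  · have := h6 k hk
    exact tw_subsingleton A H (X k) M

end Pool.Agent.UPV
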