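import Mathlib
import Pool.Agent.Lib.UPV.Defs
import Pool.Agent.Lib.UPV.V3

/-!
# The resolution by twisted permutation modules
-/

open MonoidAlgebra

namespace Pool.Agent.UPV

universe u v

section
variable {H : Type v} [Group H] {N : Subgroup H} (φ : N →* Multiplicative ℤ)

open Classical in
theorem sg_act (g : H) (v : LP φ) (σ : Finset (LP φ)) :
    sg (g • v) (LP.act φ g σ) = sg v σ := by
  rw [sg, sg]
  have h1 : (LP.act φ g σ).filter (· < g • v) = LP.act φ g (σ.filter (· < v)) := by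
    ext x
    simp only [Finset.mem_filter, LP.mem_act]
    constructor
    · rintro ⟨⟨y, hy, rfl⟩, h2⟩
      refine ⟨y, ⟨hy, ?_⟩, rfl⟩
      exact lt_of_le_not_ge ((LP.smul_le φ).1 h2.le) fun h3 => h2.not_ge ((LP.smul_le φ).2 h3)
    · rintro ⟨y, ⟨hy, h2⟩, rfl⟩
      exact ⟨⟨y, hy, rfl⟩, lt_of_le_not_ge ((LP.smul_le φ).2 h2.le)
        fun h3 => h2.not_ge ((LP.smul_le φ).1 h3)⟩
  rw [h1, LP.card_act]

theorem act_erase (g : H) (v : LP φ) (σ : Finset (LP φ)) :
    LP.act φ g (σ.erase v) = (LP.act φ g σ).erase (g • v) := by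
  ext x
  rw [Finset.mem_erase, LP.mem_act, LP.mem_act]
  constructor
  · rintro ⟨y, hy, rfl⟩
    exact ⟨fun h => (Finset.mem_erase.1 hy).1 (smul_left_cancel g h),
      y, (Finset.mem_erase.1 hy).2, rfl⟩
  · rintro ⟨h, y, hy, rfl⟩
    exact ⟨y, Finset.mem_erase.2 ⟨fun h' => h (by rw [h']), hy⟩, rfl⟩

variable {φ} in
/-- a face -/
noncomputable def Cl.face {k : ℕ} (σ : Cl φ (k + 1)) (v : LP φ) (hv : v ∈ σ.1) : Cl φ k :=
  ⟨σ.1.erase v, σ.2.1.mono (Finset.erase_subset _ _), by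
    have := Finset.card_erase_add_one hv
    have h2 := σ.2.2
    omega⟩

variable (A : Type u) [CommRing A] (M : Type (max u v)) [AddCommGroup M]

/-- the terms of the boundary -/
noncomputable def bdT (k : ℕ) (σ : Cl φ (k + 1)) : M →+ Tw A H (Cl φ k) M where
  toFun m := ∑ v : {x // x ∈ σ.1}, Tw.mk A H (σ.face v.1 v.2) (sg v.1 σ.1 • m)
  map_zero' := Finset.sum_eq_zero fun v _ => by
    rw [smul_zero]
    exact Finsupp.single_zero _
  map_add' m m' := by
    rw [← Finset.sum_add_distrib]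
    refine Finset.sum_congr rfl fun v _ => ?_
    rw [smul_add, Tw.mk_add]

omit [CommRing A] in
theorem bdT_apply (k : ℕ) (σ : Cl φ (k + 1)) (m : M) :
    bdT φ A M k σ m = ∑ v : {x // x ∈ σ.1}, Tw.mk A H (σ.face v.1 v.2) (sg v.1 σ.1 • m) := rfl

variable [Module (MonoidAlgebra A H) M]

theorem bdT_equiv (k : ℕ) (g : H) (a : A) (σ : Cl φ (k + 1)) (m : M) :
    bdT φ A M k (g • σ) ((single g a : MonoidAlgebra A H) • m) =
      (single g a : MonoidAlgebra A H) • bdT φ A M k σ m := by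
  rw [bdT_apply, bdT_apply, Finset.smul_sum]
  refine (Finset.sum_bij' (fun v _ => (⟨g • v.1, (LP.smul_mem_act φ).2 v.2⟩ :
    {x // x ∈ (g • σ).1})) (fun w _ => (⟨g⁻¹ • w.1, by
      have h1 : w.1 ∈ LP.act φ g σ.1 := w.2
      have h2 : g • (g⁻¹ • w.1) ∈ LP.act φ g σ.1 := by rwa [smul_inv_smul]
      exact (LP.smul_mem_act φ).1 h2⟩ : {x // x ∈ σ.1})) (fun _ _ => Finset.mem_univ _)
    (fun _ _ => Finset.mem_univ _) (fun v _ => Subtype.ext (inv_smul_smul g v.1))
    (fun w _ => Subtype.ext (smul_inv_smul g w.1)) ?_).symm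
  intro v _
  rw [Tw.single_smul, smul_comm (single g a : MonoidAlgebra A H) (sg v.1 σ.1) m]
  have h1 : g • σ.face v.1 v.2 = (g • σ).face (g • v.1) ((LP.smul_mem_act φ).2 v.2) :=
    Subtype.ext (act_erase φ g v.1 σ.1)
  rw [h1]
  change _ = Tw.mk A H _ (sg (g • v.1) (LP.act φ g σ.1) • _)
  rw [sg_act]

/-- the boundary -/
noncomputable def bdD (k : ℕ) :
    Tw A H (Cl φ (k + 1)) M →ₗ[MonoidAlgebra A H] Tw A H (Cl φ k) M :=
  Tw.lift A H (bdT φ A M k) (bdT_equiv φ A M k)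

theorem bdD_mk (k : ℕ) (σ : Cl φ (k + 1)) (m : M) :
    bdD φ A M k (Tw.mk A H σ m) =
      ∑ v : {x // x ∈ σ.1}, Tw.mk A H (σ.face v.1 v.2) (sg v.1 σ.1 • m) :=
  Tw.lift_mk A H _ (bdT_equiv φ A M k) σ m

omit [Module (MonoidAlgebra A H) M] in
/-- the embedding into the total complex -/
noncomputable def emb (k : ℕ) : Tw A H (Cl φ k) M →+ (Finset (LP φ) →₀ M) :=
  Finsupp.mapDomain.addMonoidHom (Subtype.val : Cl φ k → Finset (LP φ))

omit [CommRing A] [Module (MonoidAlgebra A H) M] in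
theorem emb_mk (k : ℕ) (σ : Cl φ k) (m : M) :
    emb φ A M k (Tw.mk A H σ m) = Finsupp.single σ.1 m := Finsupp.mapDomain_single

omit [CommRing A] [Module (MonoidAlgebra A H) M] in
theorem emb_inj (k : ℕ) : Function.Injective (emb φ A M k) :=
  Finsupp.mapDomain_injective Subtype.val_injective

omit [CommRing A] [Module (MonoidAlgebra A H) M] in
theorem emb_supp (k : ℕ) (z : Tw A H (Cl φ k) M) : ∀ σ ∈ (emb φ A M k z).support,
    IsCl (LP.T φ) σ ∧ σ.card = k := by
  refine supp_map (emb φ A M k : (Cl φ k →₀ M) →+ (Finset (LP φ) →₀ M)) z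
    (fun σ => IsCl (LP.T φ) σ ∧ σ.card = k) ?_
  intro τ _ σ hσ
  obtain ⟨m, hm⟩ : ∃ m : M, σ ∈ (emb φ A M k (Tw.mk A H τ m)).support := ⟨_, hσ⟩
  rw [emb_mk] at hm
  rw [Finset.mem_singleton.1 (Finsupp.support_single_subset hm)]
  exact τ.2

omit [CommRing A] [Module (MonoidAlgebra A H) M] in
theorem emb_surj (k : ℕ) (y : Finset (LP φ) →₀ M) (hy : ∀ σ ∈ y.support,
    IsCl (LP.T φ) σ ∧ σ.card = k) : ∃ z : Tw A H (Cl φ k) M, emb φ A M k z = y := by
  refine ⟨∑ σ : {x // x ∈ y.support}, Tw.mk A H (⟨σ.1, hy σ.1 σ.2⟩ : Cl φ k) (y σ.1), ?_⟩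
  rw [map_sum]
  simp only [emb_mk]
  rw [Finset.sum_coe_sort y.support (fun σ => Finsupp.single σ (y σ))]
  exact Finsupp.sum_single y

theorem emb_bd (k : ℕ) (z : Tw A H (Cl φ (k + 1)) M) :
    emb φ A M k (bdD φ A M k z) = bd (LP φ) M (emb φ A M (k + 1) z) := by
  have h : (emb φ A M k).comp (bdD φ A M k).toAddMonoidHom =
      (bd (LP φ) M).comp (emb φ A M (k + 1)) := by
    refine Tw.addHom_ext (A := A) (H := H) fun σ m => ?_
    change emb φ A M k (bdD φ A M k (Tw.mk A H σ m)) = bd (LP φ) M (emb φ A M (k + 1)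
      (Tw.mk A H σ m))
    rw [bdD_mk, map_sum, emb_mk, bd_single]
    simp only [emb_mk]
    exact Finset.sum_coe_sort σ.1 (fun v => Finsupp.single (σ.1.erase v) (sg v σ.1 • m))
  exact DFunLike.congr_fun h z

theorem bdD_bdD (k : ℕ) (z : Tw A H (Cl φ (k + 1 + 1)) M) :
    bdD φ A M k (bdD φ A M (k + 1) z) = 0 := by
  apply emb_inj φ A M k
  rw [emb_bd, emb_bd, map_zero]
  exact bd_bd (T := LP.T φ) (V := Set.univ) fun σ hσ =>
    ⟨(emb_supp φ A M _ z σ hσ).1, Set.subset_univ _⟩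

/-- exactness -/
theorem bd_exact [N.FiniteIndex] (k : ℕ) (z : Tw A H (Cl φ k) M)
    (hz : bd (LP φ) M (emb φ A M k z) = 0) : ∃ y, bdD φ A M k y = z := by
  obtain ⟨y, hy, hy'⟩ := clique_exact (LP.T φ) (LP.le_T φ) (LP.dom φ) (LP.finite_Icc φ)
    (emb φ A M k z) (fun σ hσ => ⟨(emb_supp φ A M _ z σ hσ).1, Set.subset_univ _⟩) hz
  set y₁ := y.filter (fun σ => σ.card = k + 1) with hy₁
  set y₂ := y.filter (fun σ => ¬ σ.card = k + 1) with hy₂
  have hyy : y₁ + y₂ = y := Finsupp.filter_add_filter_not y _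
  have hs : ∀ σ ∈ y₁.support, IsCl (LP.T φ) σ ∧ σ.card = k + 1 := by
    intro σ hσ
    rw [hy₁, Finsupp.support_filter, Finset.mem_filter] at hσ
    exact ⟨(hy σ hσ.1).1, hσ.2⟩
  have h1 : bd (LP φ) M y₁ = emb φ A M k z := by
    ext σ
    by_cases hσ : σ.card = k
    · have h2 : bd (LP φ) M y₂ σ = 0 := by
        by_contra h3
        have h4 : ∀ τ ∈ (bd (LP φ) M y₂).support, τ.card ≠ k := by
          refine supp_map (bd (LP φ) M) y₂ (fun τ => τ.card ≠ k) ?_
          intro ρ hρ τ hτ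
          obtain ⟨v, hv, rfl⟩ := supp_bd_single hτ
          rw [hy₂, Finsupp.support_filter, Finset.mem_filter] at hρ
          have h5 := Finset.card_erase_add_one hv
          intro h6
          exact hρ.2 (by omega)
        exact h4 σ (Finsupp.mem_support_iff.2 h3) hσ
      rw [← hy', ← hyy, map_add, Finsupp.add_apply, h2, add_zero]
    · have h2 : emb φ A M k z σ = 0 := by
        by_contra h3
        exact hσ (emb_supp φ A M k z σ (Finsupp.mem_support_iff.2 h3)).2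
      rw [h2]
      by_contra h3
      have h4 : ∀ τ ∈ (bd (LP φ) M y₁).support, τ.card = k := by
        refine supp_map (bd (LP φ) M) y₁ (fun τ => τ.card = k) ?_
        intro ρ hρ τ hτ
        obtain ⟨v, hv, rfl⟩ := supp_bd_single hτ
        have h5 := Finset.card_erase_add_one hv
        have h6 := (hs ρ hρ).2
        omega
      exact hσ (h4 σ (Finsupp.mem_support_iff.2 h3))
  obtain ⟨w, hw⟩ := emb_surj φ A M (k + 1) y₁ hs
  refine ⟨w, emb_inj φ A M k ?_⟩
  rw [emb_bd, hw, h1]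

/-- the augmentation -/
noncomputable def aug : Tw A H (Cl φ 1) M →ₗ[MonoidAlgebra A H] M :=
  Tw.lift A H (fun _ => AddMonoidHom.id M) (fun _ _ _ _ => rfl)

theorem aug_mk (σ : Cl φ 1) (m : M) : aug φ A M (Tw.mk A H σ m) = m :=
  Tw.lift_mk A H (fun _ : Cl φ 1 => AddMonoidHom.id M) (fun _ _ _ _ => rfl) σ m

open Classical in
theorem bd_emb_one (z : Tw A H (Cl φ 1) M) :
    bd (LP φ) M (emb φ A M 1 z) = Finsupp.single ∅ (aug φ A M z) := by
  have h : (bd (LP φ) M).comp (emb φ A M 1) =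
      (Finsupp.singleAddHom (∅ : Finset (LP φ))).comp (aug φ A M).toAddMonoidHom := by
    refine Tw.addHom_ext (A := A) (H := H) fun σ m => ?_
    change bd (LP φ) M (emb φ A M 1 (Tw.mk A H σ m)) =
      Finsupp.single (∅ : Finset (LP φ)) (aug φ A M (Tw.mk A H σ m))
    obtain ⟨x, hx⟩ := Finset.card_eq_one.1 σ.2.2
    rw [emb_mk, aug_mk, bd_single, hx, Finset.sum_singleton]
    have h1 : ({x} : Finset (LP φ)).erase x = ∅ := by
      ext y
      simp
    have h2 : sg x ({x} : Finset (LP φ)) = 1 := by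
      rw [sg]
      have h3 : ({x} : Finset (LP φ)).filter (· < x) = ∅ := by
        ext y
        simp only [Finset.mem_filter, Finset.mem_singleton, Finset.notMem_empty, iff_false,
          not_and]
        rintro rfl
        exact lt_irrefl y
      rw [h3, Finset.card_empty, pow_zero]
    rw [h1, h2, one_smul]
  exact DFunLike.congr_fun h z

/-- **the resolution** -/
theorem exists_pres {A : Type u} {H : Type v} [CommRing A] [Group H] (N : Subgroup H)
    (hN : N.FiniteIndex) (φ : N →* Multiplicative ℤ) (M : Type (max u v)) [AddCommGroup M]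
    [Module (MonoidAlgebra A H) M] :
    ∃ (X : ℕ → Type v) (_ : ∀ k, MulAction H (X k))
      (D : ∀ k, Tw A H (X (k + 1)) M →ₗ[MonoidAlgebra A H] Tw A H (X k) M)
      (ε : Tw A H (X 0) M →ₗ[MonoidAlgebra A H] M),
      Function.Surjective ε ∧ (∀ y, ε (D 0 y) = 0) ∧ (∀ z, ε z = 0 → ∃ y, D 0 y = z) ∧
      (∀ k y, D k (D (k + 1) y) = 0) ∧ (∀ k z, D k z = 0 → ∃ y, D (k + 1) y = z) ∧
      (∀ k, N.index < k → IsEmpty (X k)) ∧
      (∀ k (x : X k) (g : H) (hg : g ∈ N), g • x = x → φ ⟨g, hg⟩ = 1) := by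
  refine ⟨fun k => Cl φ (k + 1), fun k => inferInstance, fun k => bdD φ A M (k + 1),
    aug φ A M, ?_, ?_, ?_, ?_, ?_, ?_, ?_⟩
  · intro m
    obtain ⟨p⟩ : Nonempty (LP φ) := inferInstance
    refine ⟨Tw.mk A H ⟨{p}, ?_, Finset.card_singleton p⟩ m, aug_mk φ A M _ m⟩
    intro x hx y hy
    rw [Finset.mem_singleton.1 hx, Finset.mem_singleton.1 hy]
    exact Nb.refl (LP.le_T φ) p
  · intro y
    have h1 := bd_emb_one φ A M (bdD φ A M 1 y)
    rw [emb_bd, bd_bd (T := LP.T φ) (V := Set.univ) fun σ hσ =>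
      ⟨(emb_supp φ A M _ y σ hσ).1, Set.subset_univ _⟩] at h1
    exact Finsupp.single_eq_zero.1 h1.symm
  · intro z hz
    refine bd_exact φ A M 1 z ?_
    rw [bd_emb_one, hz, Finsupp.single_zero]
  · intro k y
    exact bdD_bdD φ A M (k + 1) y
  · intro k z hz
    refine bd_exact φ A M (k + 1 + 1) z ?_
    have h1 := emb_bd φ A M (k + 1) z
    rw [← h1]
    exact (congrArg _ hz).trans (map_zero _)
  · intro k hk
    exact Cl.isEmpty φ (by omega)
  · intro k x g hg h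
    exact Cl.fix φ x hg h

end

end Pool.Agent.UPV
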