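import Pool.Agent.Lib.UPV.V4
import Pool.Agent.Lib.UPV.V3b

/-! # `pd_of_proj`: projective dimension `≤ (H : N)` -/

open MonoidAlgebra CategoryTheory

namespace Pool.Agent.UPV

universe u v w

theorem pd_of_proj {A : Type u} {H : Type v} [CommRing A] [Group H] (N : Subgroup H)
    (hN : N.FiniteIndex) (φ : N →* Multiplicative ℤ) (M : Type (max u v)) [AddCommGroup M]
    [Module (MonoidAlgebra A H) M]
    (h : ∀ S : Subgroup H, (∀ g ∈ S, ∀ hg : g ∈ N, φ ⟨g, hg⟩ = 1) → ProjOn A H S M) :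
    Pd (MonoidAlgebra A H) M (N.index + 1) :=
  pd_of_pres N φ M (exists_pres N hN φ M) h

end Pool.Agent.UPV
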