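import Mathlib
import Pool.Agent.Lib.UPV.Defs
import Pool.Agent.Lib.UP.PolyZ

/-!
# TANK UP, row V5, first part: restriction of projective modules to subgroups
-/

set_option autoImplicit false

open MonoidAlgebra CategoryTheory Pool.Agent.UP

namespace Pool.Agent.UPV

universe u v w

section general

variable {R : Type u} {S : Type v} [Ring R] [Ring S] (f : R →+* S)

/-- projective modules over `S` are projective over `R` if `S` is -/
theorem V5_trans (hS : @Module.Projective R _ S _ (Module.compHom S f)) (M : Type w)
    [AddCommGroup M] [Module S M] [Module.Projective S M] :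
    @Module.Projective R _ M _ (Module.compHom M f) := by
  classical
  let iS : Module R S := Module.compHom S f
  let iM : Module R M := Module.compHom M f
  obtain ⟨s, hs⟩ := Module.projective_lifting_property
    (Finsupp.linearCombination S (id : M → M)) LinearMap.id
    (Finsupp.linearCombination_id_surjective S M)
  have h1 : Module.Projective R (M →₀ S) :=
    Module.Projective.of_equiv' (finsuppLequivDFinsupp (ι := M) (M := S) R).symm
  let s' : M →ₗ[R] (M →₀ S) :=
    { toFun := s
      map_add' := s.map_add
      map_smul' := fun r m => s.map_smul (f r) m }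
  let p' : (M →₀ S) →ₗ[R] M :=
    { toFun := Finsupp.linearCombination S (id : M → M)
      map_add' := (Finsupp.linearCombination S (id : M → M)).map_add
      map_smul' := fun r m => (Finsupp.linearCombination S (id : M → M)).map_smul (f r) m }
  refine Module.Projective.of_split s' p' ?_
  ext m
  exact LinearMap.congr_fun hs m

end general

section
variable {A : Type u} {H : Type v} [CommRing A] [Group H] (S : Subgroup H)

/-- representatives of the right cosets of `S` -/
noncomputable def V5_rep (h : H) : H := ((QuotientGroup.mk h⁻¹ : H ⧸ S).out)⁻¹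

theorem V5_rep_mem (h : H) : h * (V5_rep S h)⁻¹ ∈ S := by
  rw [V5_rep, inv_inv]
  have h1 := QuotientGroup.out_eq' (QuotientGroup.mk h⁻¹ : H ⧸ S)
  have h2 := QuotientGroup.eq.1 h1.symm
  rw [inv_inv] at h2
  exact h2

theorem V5_rep_mul (s : S) (h : H) : V5_rep S ((s : H) * h) = V5_rep S h := by
  rw [V5_rep, V5_rep]
  congr 2
  rw [QuotientGroup.eq, inv_inv, mul_assoc, mul_inv_cancel, mul_one]
  exact s.2

/-- decomposition of `A[H]` over the right cosets -/
noncomputable def V5_dec : MonoidAlgebra A H →+ (H →₀ MonoidAlgebra A S) :=
  (Finsupp.liftAddHom fun h : H =>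
    (Finsupp.singleAddHom (V5_rep S h)).comp
      ((MonoidAlgebra.singleAddHom (⟨h * (V5_rep S h)⁻¹, V5_rep_mem S h⟩ : S)) : A →+ _)).comp
    ((coeffAddEquiv (R := A) (M := H)) : MonoidAlgebra A H →+ (H →₀ A))

theorem V5_dec_single (h : H) (a : A) : V5_dec S (single h a) =
    Finsupp.single (V5_rep S h)
      (single (⟨h * (V5_rep S h)⁻¹, V5_rep_mem S h⟩ : S) a : MonoidAlgebra A S) := by
  rw [V5_dec, AddMonoidHom.comp_apply]
  change Finsupp.liftAddHom _ (Finsupp.single h a) = _
  rw [Finsupp.liftAddHom_apply_single]
  rfl

theorem V5_free : @Module.Projective (MonoidAlgebra A S) _ (MonoidAlgebra A H) _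
    (resM A H S (MonoidAlgebra A H)) := by
  let iS : Module (MonoidAlgebra A S) (MonoidAlgebra A H) := resM A H S (MonoidAlgebra A H)
  have hsm : ∀ (r : MonoidAlgebra A S) (x : MonoidAlgebra A H),
      r • x = MonoidAlgebra.mapDomainRingHom A S.subtype r * x := fun r x => rfl
  have hin : ∀ (s : S) (a : A), MonoidAlgebra.mapDomainRingHom A S.subtype (single s a) =
      (single (s : H) a : MonoidAlgebra A H) := by
    intro s a
    change MonoidAlgebra.mapDomain _ _ = _
    exact mapDomain_single
  let i : MonoidAlgebra A H →ₗ[MonoidAlgebra A S] (H →₀ MonoidAlgebra A S) :=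
    { toFun := V5_dec S
      map_add' := (V5_dec S).map_add
      map_smul' := by
        intro r x
        rw [RingHom.id_apply]
        induction r using MonoidAlgebra.induction_linear with
        | zero => rw [zero_smul, zero_smul, map_zero]
        | add r r' hr hr' => rw [add_smul, map_add, hr, hr', add_smul]
        | single s b =>
          induction x using MonoidAlgebra.induction_linear with
          | zero => rw [smul_zero, map_zero, smul_zero]
          | add x x' hx hx' => rw [smul_add, map_add, hx, hx', map_add, smul_add]
          | single h a =>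
            rw [hsm, hin, single_mul_single, V5_dec_single, V5_dec_single, Finsupp.smul_single,
              smul_eq_mul, single_mul_single]
            have h1 : (⟨(s : H) * h * (V5_rep S ((s : H) * h))⁻¹, V5_rep_mem S _⟩ : S) =
                s * ⟨h * (V5_rep S h)⁻¹, V5_rep_mem S h⟩ := by
              apply Subtype.ext
              change (s : H) * h * (V5_rep S ((s : H) * h))⁻¹ = (s : H) * (h * (V5_rep S h)⁻¹)
              rw [V5_rep_mul, mul_assoc]
            rw [h1, V5_rep_mul] }
  let p : (H →₀ MonoidAlgebra A S) →ₗ[MonoidAlgebra A S] MonoidAlgebra A H :=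
    Finsupp.linearCombination (MonoidAlgebra A S)
      (fun h : H => (single h 1 : MonoidAlgebra A H))
  refine Module.Projective.of_split i p ?_
  refine LinearMap.ext fun x => ?_
  change p (V5_dec S x) = x
  induction x using MonoidAlgebra.induction_linear with
  | zero => rw [map_zero, map_zero]
  | add x x' hx hx' => rw [map_add, map_add, hx, hx']
  | single h a =>
    rw [V5_dec_single]
    change Finsupp.linearCombination (MonoidAlgebra A S)
      (fun h : H => (single h 1 : MonoidAlgebra A H)) (Finsupp.single _ _) = _
    rw [Finsupp.linearCombination_single, hsm, hin, single_mul_single, mul_one,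
      inv_mul_cancel_right]

theorem proj_res (M : Type (max u v)) [AddCommGroup M] [Module (MonoidAlgebra A H) M]
    (h : Module.Projective (MonoidAlgebra A H) M) : ProjOn A H S M :=
  V5_trans (MonoidAlgebra.mapDomainRingHom A S.subtype) (V5_free S) M

end

end Pool.Agent.UPV
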