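import Mathlib
import Pool.Agent.Lib.UPV.V5a
import Pool.Agent.Lib.UPV.V4P

/-!
# TANK UP, row V5: global dimension of group rings of torsion-free virtually poly-`ℤ` groups
-/

set_option autoImplicit false

open MonoidAlgebra CategoryTheory Pool.Agent.UP

namespace Pool.Agent.UPV

universe u v w

section general

variable {R : Type u} [Ring R] {K F M : Type u} [AddCommGroup K] [Module R K] [AddCommGroup F]
  [Module R F] [AddCommGroup M] [Module R M]

theorem V5_ses (f : K →ₗ[R] F) (g : F →ₗ[R] M) (hf : Function.Injective f)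
    (hex : Function.Exact f g) (hg : Function.Surjective g) :
    (ShortComplex.mk (ModuleCat.ofHom f) (ModuleCat.ofHom g)
      (ModuleCat.hom_ext (LinearMap.ext fun x => (hex (f x)).2 ⟨x, rfl⟩))).ShortExact := by
  refine { exact := ?_, mono_f := ?_, epi_g := ?_ }
  · rw [ShortComplex.moduleCat_exact_iff]
    intro x hx
    exact (hex x).1 hx
  · exact (ModuleCat.mono_iff_injective _).mpr hf
  · exact (ModuleCat.epi_iff_surjective _).mpr hg

theorem V5_pd_proj (h : Module.Projective R F) (n : ℕ) : Pd R F (n + 1) := by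
  have h1 : Projective (ModuleCat.of R F) := (IsProjective.iff_projective (R := R) F).1 h
  have h2 : HasProjectiveDimensionLT (ModuleCat.of R F) 1 := inferInstance
  exact hasProjectiveDimensionLT_of_ge _ 1 (n + 1) (by omega)

theorem V5_proj_of_pd (h : Pd R M 1) : Module.Projective R M :=
  (IsProjective.iff_projective (R := R) M).2
    (projective_iff_hasProjectiveDimensionLT_one.mpr h)

theorem V5_X1 (f : K →ₗ[R] F) (g : F →ₗ[R] M) (hf : Function.Injective f)
    (hex : Function.Exact f g) (hg : Function.Surjective g) (hF : Module.Projective R F) {n : ℕ}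
    (h : Pd R M (n + 2)) : Pd R K (n + 1) :=
  (V5_ses f g hf hex hg).hasProjectiveDimensionLT_X₁ (n + 1) (V5_pd_proj hF n) h

theorem V5_X3 (f : K →ₗ[R] F) (g : F →ₗ[R] M) (hf : Function.Injective f)
    (hex : Function.Exact f g) (hg : Function.Surjective g) (hF : Module.Projective R F) {n : ℕ}
    (h : Pd R K (n + 1)) : Pd R M (n + 2) :=
  (V5_ses f g hf hex hg).hasProjectiveDimensionLT_X₃ (n + 1) h (V5_pd_proj hF (n + 1))

theorem V5_mono {R : Type u} [Ring R] {m n : ℕ} (h : GD R m) (hmn : m ≤ n) : GD R n := by
  intro M _ _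
  have h1 := h M
  exact hasProjectiveDimensionLT_of_ge _ (m + 1) (n + 1) (by omega)

end general

section
variable {A : Type u} {H : Type v} [CommRing A] [Group H]

/-- if modules which are projective over the subgroups in `𝒮` have projective dimension `≤ m` and
the subgroups in `𝒮` have global dimension `≤ n`, then `A[H]` has global dimension `≤ n + m` -/
theorem gd_step_gen (𝒮 : Set (Subgroup H)) (m : ℕ)
    (hpd : ∀ (M : Type (max u v)) [AddCommGroup M] [Module (MonoidAlgebra A H) M],
      (∀ S ∈ 𝒮, ProjOn A H S M) → Pd (MonoidAlgebra A H) M (m + 1)) (n : ℕ)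
    (h : ∀ S ∈ 𝒮, GD (MonoidAlgebra A S) n) : GD (MonoidAlgebra A H) (n + m) := by
  have key : ∀ (j : ℕ) (M : Type (max u v)) [AddCommGroup M] [Module (MonoidAlgebra A H) M],
      (∀ S ∈ 𝒮, @Pd (MonoidAlgebra A S) _ M _ (resM A H S M) (j + 1)) →
      Pd (MonoidAlgebra A H) M (j + m + 1) := by
    intro j
    induction j with
    | zero =>
      intro M _ _ hM
      rw [Nat.zero_add]
      refine hpd M fun S hS => ?_
      exact @V5_proj_of_pd _ _ M _ (resM A H S M) (hM S hS)
    | succ j ih =>
      intro M _ _ hM
      let g : (M →₀ MonoidAlgebra A H) →ₗ[MonoidAlgebra A H] M :=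
        Finsupp.linearCombination (MonoidAlgebra A H) (id : M → M)
      have hg : Function.Surjective g := Finsupp.linearCombination_id_surjective _ M
      have hex : Function.Exact (LinearMap.ker g).subtype g := by
        intro x
        exact ⟨fun hx => ⟨⟨x, hx⟩, rfl⟩, by rintro ⟨⟨x, hx⟩, rfl⟩; exact hx⟩
      have h1 : Pd (MonoidAlgebra A H) (LinearMap.ker g) (j + m + 1) := by
        refine ih (LinearMap.ker g) fun S hS => ?_
        let iK := resM A H S (LinearMap.ker g)
        let iF := resM A H S (M →₀ MonoidAlgebra A H)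
        let iM := resM A H S M
        let f' : (LinearMap.ker g) →ₗ[MonoidAlgebra A S] (M →₀ MonoidAlgebra A H) :=
          { toFun := (LinearMap.ker g).subtype
            map_add' := (LinearMap.ker g).subtype.map_add
            map_smul' := fun r x => rfl }
        let g' : (M →₀ MonoidAlgebra A H) →ₗ[MonoidAlgebra A S] M :=
          { toFun := g
            map_add' := g.map_add
            map_smul' := fun r x =>
              g.map_smul (MonoidAlgebra.mapDomainRingHom A S.subtype r) x }
        exact V5_X1 f' g' (LinearMap.ker g).injective_subtype hex hg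
          (proj_res S (M →₀ MonoidAlgebra A H) inferInstance) (hM S hS)
      have h2 := V5_X3 (LinearMap.ker g).subtype g (LinearMap.ker g).injective_subtype hex hg
        inferInstance h1
      rw [show j + 1 + m + 1 = j + m + 2 by omega]
      exact h2
  intro M _ _
  exact key n M fun S hS => @h S hS M _ (resM A H S M)

theorem gd_step (N : Subgroup H)
    (hN : N.FiniteIndex) (φ : N →* Multiplicative ℤ) (n : ℕ)
    (h : ∀ S : Subgroup H, (∀ g ∈ S, ∀ hg : g ∈ N, φ ⟨g, hg⟩ = 1) → GD (MonoidAlgebra A S) n) :
    GD (MonoidAlgebra A H) (n + N.index) :=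
  gd_step_gen {S | ∀ g ∈ S, ∀ hg : g ∈ N, φ ⟨g, hg⟩ = 1} N.index
    (fun M _ _ hM => pd_of_proj N hN φ M hM) n h

end

theorem gd_virt {A : Type u} [CommRing A] {g : ℕ}
    (hA : ∀ (K : Type v) [Group K] [Subsingleton K], GD (MonoidAlgebra A K) g) (d m : ℕ)
    (H : Type v) [Group H] (htf : ∀ h : H, IsOfFinOrder h → h = 1) (N : Subgroup H)
    (hN : N.FiniteIndex) (hm : N.index ≤ m) (hP : PolyZ d N) :
    GD (MonoidAlgebra A H) (g + d * m) := by
  induction d generalizing H N with
  | zero =>
    have h1 : Subsingleton N := polyZ_zero.1 hP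
    have h3 : Finite H := (Subgroup.finite_iff_finite_and_finiteIndex N).2 ⟨inferInstance, hN⟩
    have h4 : Subsingleton H := ⟨fun x y => by
      rw [htf x (isOfFinOrder_of_finite x), htf y (isOfFinOrder_of_finite y)]⟩
    rw [Nat.zero_mul, Nat.add_zero]
    exact hA H
  | succ d ih =>
    obtain ⟨φ, hφ⟩ := polyZ_succ.1 hP
    have h1 : GD (MonoidAlgebra A H) (g + d * m + N.index) := by
      refine gd_step N hN φ (g + d * m) fun S hS => ?_
      refine ih S ?_ (N.subgroupOf S) inferInstance ?_ ?_
      · intro x hx
        refine Subtype.ext (htf x.1 ?_)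
        exact (S.subtype.isOfFinOrder hx)
      · refine le_trans ?_ hm
        have h2 : N.relIndex ⊤ ≠ 0 := by
          rw [Subgroup.relIndex_top_right]
          exact hN.index_ne_zero
        have h3 := Subgroup.relIndex_le_of_le_right (H := N) (K := S) le_top h2
        rw [Subgroup.relIndex_top_right] at h3
        exact h3
      · let ψ : N.subgroupOf S →* φ.ker :=
          { toFun := fun x => ⟨⟨x.1.1, x.2⟩, hS x.1.1 x.1.2 x.2⟩
            map_one' := rfl
            map_mul' := fun x y => rfl }
        refine hφ.of_injective ψ ?_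
        intro x y hxy
        have h2 : (ψ x).1.1 = (ψ y).1.1 := by rw [hxy]
        exact Subtype.ext (Subtype.ext h2)
    refine V5_mono h1 ?_
    rw [Nat.succ_mul]
    omega

end Pool.Agent.UPV
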