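import Mathlib
import Pool.Agent.Lib.UPV.V4
import Pool.Agent.Lib.UPV.V5
import Pool.Agent.Lib.UPV.F2c

/-!
# Homomorphisms of a subgroup of finite index to a free group

`exists_presF`: the resolution of every module by twisted permutation modules with point
stabilisers which meet `N` in the kernel of `φ : N → F(X)`, of length the index of `N`.
-/

open MonoidAlgebra

namespace Pool.Agent.UPV

universe u v

/-- **the resolution** -/
theorem exists_presF {A : Type u} {H : Type v} [CommRing A] [Group H] (N : Subgroup H)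
    (hN : N.FiniteIndex) {X : Type} (φ : N →* FreeGroup X) (M : Type (max u v)) [AddCommGroup M]
    [Module (MonoidAlgebra A H) M] :
    ∃ (X : ℕ → Type v) (_ : ∀ k, MulAction H (X k))
      (D : ∀ k, Tw A H (X (k + 1)) M →ₗ[MonoidAlgebra A H] Tw A H (X k) M)
      (ε : Tw A H (X 0) M →ₗ[MonoidAlgebra A H] M),
      Function.Surjective ε ∧ (∀ y, ε (D 0 y) = 0) ∧ (∀ z, ε z = 0 → ∃ y, D 0 y = z) ∧
      (∀ k y, D k (D (k + 1) y) = 0) ∧ (∀ k z, D k z = 0 → ∃ y, D (k + 1) y = z) ∧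
      (∀ k, N.index < k → IsEmpty (X k)) ∧
      (∀ k (x : X k) (g : H) (hg : g ∈ N), g • x = x → φ ⟨g, hg⟩ = 1) := by
  classical
  obtain ⟨Y, i, D, ε, h1, h2, h3, h4, h5, h6, h7⟩ := Fr.exists_pres_poset H (Fr.FP φ) A M N.index
    (fun σ hσ => Fr.FP.card_le φ hσ) (Fr.FP.exists_ex φ M)
  refine ⟨Y, i, D, ε, h1, h2, h3, h4, h5, h6, fun k x g hg h => ?_⟩
  obtain ⟨p, hp⟩ := h7 k x g h
  exact Fr.FP.fix φ hg hp

theorem pd_of_projF {A : Type u} {H : Type v} [CommRing A] [Group H] (N : Subgroup H)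
    (hN : N.FiniteIndex) {X : Type} (φ : N →* FreeGroup X) (M : Type (max u v)) [AddCommGroup M]
    [Module (MonoidAlgebra A H) M]
    (h : ∀ S : Subgroup H, (∀ g ∈ S, ∀ hg : g ∈ N, φ ⟨g, hg⟩ = 1) → ProjOn A H S M) :
    Pd (MonoidAlgebra A H) M (N.index + 1) := by
  obtain ⟨X, _, D, ε, h1, h2, h3, h4, h5, h6, h7⟩ := exists_presF (A := A) N hN φ M
  refine pd_of_res N.index (fun k => Tw A H (X k) M) (fun k => ?_) D M ε h1 h2 h3 h4 h5
    (fun k hk => ?_)
  · exact tw_projective (X k) M fun x => h _ fun g hg hgN => h7 k x g hgN hg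
  · have := h6 k hk
    exact tw_subsingleton A H (X k) M

/-- **the free step** -/
theorem gd_stepF {A : Type u} {H : Type v} [CommRing A] [Group H] (N : Subgroup H)
    (hN : N.FiniteIndex) {X : Type} (φ : N →* FreeGroup X) (n : ℕ)
    (h : ∀ S : Subgroup H, (∀ g ∈ S, ∀ hg : g ∈ N, φ ⟨g, hg⟩ = 1) → GD (MonoidAlgebra A S) n) :
    GD (MonoidAlgebra A H) (n + N.index) :=
  gd_step_gen {S | ∀ g ∈ S, ∀ hg : g ∈ N, φ ⟨g, hg⟩ = 1} N.index
    (fun M _ _ hM => pd_of_projF N hN φ M hM) n h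

end Pool.Agent.UPV
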