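import Mathlib
import Pool.Agent.Lib.UP.Defs
import Pool.Agent.Lib.UP.U1
import Pool.Agent.Lib.UP.U2
import Pool.Agent.Lib.UP.U3a

/-!
# TANK UP, row V6, first part: Frobenius extensions with involutions

`R → S` with an `R`-bilinear form `ψ (s t*)` on `S` and a finite orthonormal basis: restriction of
complexes of free modules, exactness, duals; the Auslander condition passes from `R` to `S`.
-/

set_option autoImplicit false

open Pool.Agent.UP

namespace Pool.Agent.UPV

universe u w w'

/-- a Frobenius extension with involutions and an orthonormal basis -/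
structure Frob (R S : Type u) [Ring R] [StarRing R] [Ring S] [StarRing S] where
  ι : R →+* S
  ψ : S →+ R
  n : ℕ
  b : Fin n → S
  psi_left : ∀ r s, ψ (ι r * s) = r * ψ s
  psi_star : ∀ s, ψ (star s) = star (ψ s)
  star_iota : ∀ r, star (ι r) = ι (star r)
  sum_b : ∀ s, ∑ i, ι (ψ (s * star (b i))) * b i = s
  psi_b : ∀ i j, ψ (b i * star (b j)) = if i = j then 1 else 0

namespace Frob

variable {R S : Type u} [Ring R] [StarRing R] [Ring S] [StarRing S] (F : Frob R S)

theorem psi_right (s : S) (r : R) : F.ψ (s * F.ι r) = F.ψ s * r := by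
  have h := F.psi_left (star r) (star s)
  rw [← F.star_iota, ← star_mul, F.psi_star, F.psi_star] at h
  rw [← star_star (F.ψ (s * F.ι r)), h, star_mul, star_star, star_star]

theorem sum_b' (s : S) : ∑ i, star (F.b i) * F.ι (F.ψ (F.b i * s)) = s := by
  have h := congrArg star (F.sum_b (star s))
  rw [star_sum, star_star] at h
  refine Eq.trans ?_ h
  refine Finset.sum_congr rfl fun i _ => ?_
  rw [star_mul, F.star_iota, ← F.psi_star, star_mul, star_star, star_star]

/-- the key computation: the form in terms of the basis -/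
theorem sum_psi (s t : S) :
    ∑ i, F.ψ (s * star (F.b i)) * F.ψ (F.b i * t) = F.ψ (s * t) := by
  have h : F.ψ (s * t) = F.ψ (s * ∑ i, star (F.b i) * F.ι (F.ψ (F.b i * t))) := by
    rw [F.sum_b']
  rw [h, Finset.mul_sum, map_sum]
  refine Finset.sum_congr rfl fun i _ => ?_
  rw [← mul_assoc, F.psi_right]

/-- the matrix over `R` of a matrix over `S` -/
def mat {a c : Type} (M : Matrix a c S) : Matrix (a × Fin F.n) (c × Fin F.n) R :=
  fun p q => F.ψ (F.b p.2 * M p.1 q.1 * star (F.b q.2))

theorem mat_mul {a c d : Type} [Fintype c] (M : Matrix a c S) (N : Matrix c d S) :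
    F.mat (M * N) = F.mat M * F.mat N := by
  ext p r
  rw [Matrix.mul_apply, Fintype.sum_prod_type]
  change F.ψ (F.b p.2 * (M * N) p.1 r.1 * star (F.b r.2)) = _
  rw [Matrix.mul_apply, Finset.mul_sum, Finset.sum_mul, map_sum]
  refine Finset.sum_congr rfl fun q _ => ?_
  have h := F.sum_psi (F.b p.2 * M p.1 q) (N q r.1 * star (F.b r.2))
  rw [← mul_assoc, mul_assoc (F.b p.2)] at h
  refine h.symm.trans ?_
  refine Finset.sum_congr rfl fun i _ => ?_
  rw [← mul_assoc (F.b i)]
  rfl

theorem mat_zero {a c : Type} : F.mat (0 : Matrix a c S) = 0 := by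
  ext p r
  change F.ψ (F.b p.2 * 0 * star (F.b r.2)) = 0
  rw [mul_zero, zero_mul, map_zero]

theorem mat_conj {a c : Type} (M : Matrix a c S) :
    (F.mat M).conjTranspose = F.mat M.conjTranspose := by
  ext p q
  change star (F.ψ (F.b q.2 * M q.1 p.1 * star (F.b p.2))) = F.ψ (F.b p.2 * star (M q.1 p.1) * star (F.b q.2))
  rw [← F.psi_star, star_mul, star_mul, star_star, mul_assoc]

/-- coordinates of rows -/
def dn {a : Type} (x : a → S) : a × Fin F.n → R := fun p => F.ψ (x p.1 * star (F.b p.2))

/-- rows from coordinates -/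
def up {a : Type} (y : a × Fin F.n → R) : a → S := fun p => ∑ i, F.ι (y (p, i)) * F.b i

theorem up_dn {a : Type} (x : a → S) : F.up (F.dn x) = x := by
  funext p
  exact F.sum_b (x p)

theorem dn_up {a : Type} (y : a × Fin F.n → R) : F.dn (F.up y) = y := by
  funext p
  obtain ⟨p, j⟩ := p
  change F.ψ ((∑ i, F.ι (y (p, i)) * F.b i) * star (F.b j)) = y (p, j)
  rw [Finset.sum_mul, map_sum]
  have h : ∀ i, F.ψ (F.ι (y (p, i)) * F.b i * star (F.b j)) =
      if i = j then y (p, i) else 0 := by
    intro i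
    rw [mul_assoc, F.psi_left, F.psi_b]
    split_ifs
    · rw [mul_one]
    · rw [mul_zero]
  simp only [h]
  rw [Finset.sum_ite_eq' Finset.univ j]
  simp

theorem dn_vecMul {a c : Type} [Fintype a] (x : a → S) (M : Matrix a c S) :
    F.dn (Matrix.vecMul x M) = Matrix.vecMul (F.dn x) (F.mat M) := by
  funext q
  rw [Matrix.vecMul, dotProduct, Fintype.sum_prod_type]
  change F.ψ ((∑ p, x p * M p q.1) * star (F.b q.2)) = _
  rw [Finset.sum_mul, map_sum]
  refine Finset.sum_congr rfl fun p _ => ?_
  rw [mul_assoc, ← F.sum_psi]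
  refine Finset.sum_congr rfl fun i _ => ?_
  rw [← mul_assoc (F.b i)]
  rfl

theorem up_vecMul {a c : Type} [Fintype a] (y : a × Fin F.n → R) (M : Matrix a c S) :
    F.up (Matrix.vecMul y (F.mat M)) = Matrix.vecMul (F.up y) M := by
  have h := F.dn_vecMul (F.up y) M
  rw [F.dn_up] at h
  rw [← h, F.up_dn]

theorem up_add {a : Type} (y z : a × Fin F.n → R) : F.up (y + z) = F.up y + F.up z := by
  funext p
  change ∑ i, F.ι (y (p, i) + z (p, i)) * F.b i = ∑ i, F.ι (y (p, i)) * F.b i + ∑ i, F.ι (z (p, i)) * F.b i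
  rw [← Finset.sum_add_distrib]
  refine Finset.sum_congr rfl fun i _ => ?_
  rw [map_add, add_mul]

theorem up_smul {a : Type} (r : R) (y : a × Fin F.n → R) : F.up (r • y) = F.ι r • F.up y := by
  funext p
  change ∑ i, F.ι (r * y (p, i)) * F.b i = F.ι r * ∑ i, F.ι (y (p, i)) * F.b i
  rw [Finset.mul_sum]
  refine Finset.sum_congr rfl fun i _ => ?_
  rw [map_mul, mul_assoc]

theorem up_zero {a : Type} : F.up (0 : a × Fin F.n → R) = 0 := by
  funext p
  change ∑ i, F.ι 0 * F.b i = 0
  refine Finset.sum_eq_zero fun i _ => ?_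
  rw [map_zero, zero_mul]

theorem dn_zero {a : Type} : F.dn (0 : a → S) = 0 := by
  funext p
  change F.ψ (0 * star (F.b p.2)) = 0
  rw [zero_mul, map_zero]

theorem up_injective {a : Type} : Function.Injective (F.up (a := a)) := fun y z h => by
  rw [← F.dn_up y, h, F.dn_up]

/-- coordinates of columns -/
def dc {a : Type} (x : a → S) : a × Fin F.n → R := fun p => F.ψ (F.b p.2 * x p.1)

/-- columns from coordinates -/
def uc {a : Type} (y : a × Fin F.n → R) : a → S := fun p => ∑ i, star (F.b i) * F.ι (y (p, i))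

theorem uc_dc {a : Type} (x : a → S) : F.uc (F.dc x) = x := by
  funext p
  exact F.sum_b' (x p)

theorem dc_uc {a : Type} (y : a × Fin F.n → R) : F.dc (F.uc y) = y := by
  funext p
  obtain ⟨p, j⟩ := p
  change F.ψ (F.b j * ∑ i, star (F.b i) * F.ι (y (p, i))) = y (p, j)
  rw [Finset.mul_sum, map_sum]
  have h : ∀ i, F.ψ (F.b j * (star (F.b i) * F.ι (y (p, i)))) =
      if i = j then y (p, i) else 0 := by
    intro i
    rw [← mul_assoc, F.psi_right, F.psi_b]
    by_cases hij : i = j
    · rw [if_pos hij, if_pos hij.symm, one_mul]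
    · rw [if_neg hij, if_neg (Ne.symm hij), zero_mul]
  simp only [h]
  rw [Finset.sum_ite_eq' Finset.univ j]
  simp

theorem dc_mulVec {a c : Type} [Fintype c] (M : Matrix a c S) (x : c → S) :
    F.dc (Matrix.mulVec M x) = Matrix.mulVec (F.mat M) (F.dc x) := by
  funext p
  rw [Matrix.mulVec, dotProduct, Fintype.sum_prod_type]
  change F.ψ (F.b p.2 * ∑ q, M p.1 q * x q) = _
  rw [Finset.mul_sum, map_sum]
  refine Finset.sum_congr rfl fun q _ => ?_
  rw [← mul_assoc, ← F.sum_psi]
  rfl

theorem dc_zero {a : Type} : F.dc (0 : a → S) = 0 := by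
  funext p
  change F.ψ (F.b p.2 * 0) = 0
  rw [mul_zero, map_zero]

theorem dc_injective {a : Type} : Function.Injective (F.dc (a := a)) := fun y z h => by
  rw [← F.uc_dc y, h, F.uc_dc]

/-- restriction of a complex of free modules -/
abbrev rc (T : RC S) : RC R where
  ι k := T.ι k × Fin F.n
  D k := F.mat (T.D k)
  DD k := by rw [← F.mat_mul, T.DD, F.mat_zero]

theorem rc_ex {T : RC S} {k : ℕ} (h : T.Ex k) : (F.rc T).Ex k := by
  intro x hx
  have hx' : Matrix.vecMul (F.up x) (T.D k) = 0 := by
    rw [← F.up_vecMul]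
    change F.up (Matrix.vecMul x ((F.rc T).D k)) = 0
    rw [hx]
    exact F.up_zero
  obtain ⟨y, hy⟩ := h _ hx'
  refine ⟨F.dn y, ?_⟩
  change Matrix.vecMul (F.dn y) (F.mat (T.D (k + 1))) = x
  rw [← F.dn_vecMul, hy, F.dn_up]

theorem rc_coex {T : RC S} : ∀ {l : ℕ}, (F.rc T).CoEx l ↔ T.CoEx l
  | 0 => by
    constructor
    · intro h y hy
      apply F.dc_injective
      rw [F.dc_zero]
      refine h _ ?_
      change Matrix.mulVec (F.mat (T.D 0)) (F.dc y) = 0
      rw [← F.dc_mulVec, hy, F.dc_zero]
    · intro h y hy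
      have h1 : F.uc y = 0 := by
        refine h _ ?_
        apply F.dc_injective
        rw [F.dc_mulVec, F.dc_uc, F.dc_zero]
        exact hy
      rw [← F.dc_uc y, h1, F.dc_zero]
  | l + 1 => by
    constructor
    · intro h y hy
      obtain ⟨z, hz⟩ := h (F.dc y) (by
        change Matrix.mulVec (F.mat (T.D (l + 1))) (F.dc y) = 0
        rw [← F.dc_mulVec, hy, F.dc_zero])
      refine ⟨F.uc z, ?_⟩
      apply F.dc_injective
      rw [F.dc_mulVec, F.dc_uc]
      exact hz
    · intro h y hy
      obtain ⟨z, hz⟩ := h (F.uc y) (by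
        apply F.dc_injective
        rw [F.dc_mulVec, F.dc_uc, F.dc_zero]
        exact hy)
      refine ⟨F.dc z, ?_⟩
      change Matrix.mulVec (F.mat (T.D l)) (F.dc z) = y
      rw [← F.dc_mulVec, hz, F.dc_uc]

/-- restriction of a resolution -/
noncomputable def res {T : RC S} {M : Type w} [AddCommGroup M] [Module S M] {M' : Type w'}
    [AddCommGroup M'] [Module R M'] (r : Res T M) (φ : M' ≃+ M)
    (hφ : ∀ (a : R) (x : M'), φ (a • x) = F.ι a • φ x) : Res (F.rc T) M' where
  ε :=
    { toFun := fun y => φ.symm (r.ε (F.up y))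
      map_add' := fun y z => by
        rw [F.up_add, map_add, map_add]
      map_smul' := fun a y => by
        rw [F.up_smul, map_smul]
        apply φ.injective
        rw [φ.apply_symm_apply, RingHom.id_apply, hφ, φ.apply_symm_apply] }
  surj := by
    intro m
    obtain ⟨x, hx⟩ := r.surj (φ m)
    refine ⟨F.dn x, ?_⟩
    change φ.symm (r.ε (F.up (F.dn x))) = m
    rw [F.up_dn, hx, φ.symm_apply_apply]
  zero := by
    intro x
    change φ.symm (r.ε (F.up (Matrix.vecMul x (F.mat (T.D 0))))) = 0
    rw [F.up_vecMul, r.zero, map_zero]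
  ker := by
    intro x hx
    change φ.symm (r.ε (F.up x)) = 0 at hx
    rw [map_eq_zero_iff _ φ.symm.injective] at hx
    obtain ⟨y, hy⟩ := r.ker _ hx
    refine ⟨F.dn y, ?_⟩
    change Matrix.vecMul (F.dn y) (F.mat (T.D 0)) = x
    rw [← F.dn_vecMul, hy, F.dn_up]
  ex k := F.rc_ex (r.ex k)

/-- the map `E^p(T over R) → E^p(T over S)` -/
noncomputable def mapE (T : RC S) (p : ℕ) : (F.rc T).E p →ₛₗ[F.ι] T.E p :=
  Submodule.mapQ _ _
    { toFun := fun y => (⟨F.up y.1, by
        change Matrix.vecMul (F.up y.1) (T.D p).conjTranspose = 0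
        rw [← F.up_vecMul, ← F.mat_conj]
        exact (congrArg F.up y.2).trans F.up_zero⟩ : T.cy p)
      map_add' := fun y z => Subtype.ext (F.up_add _ _)
      map_smul' := fun a y => Subtype.ext (F.up_smul _ _) } (by
    rintro ⟨y, hy⟩ hb
    change F.up y ∈ T.bd p
    replace hb : y ∈ (F.rc T).bd p := hb
    cases p with
    | zero =>
      rw [show y = 0 from hb, F.up_zero]
      exact Submodule.zero_mem _
    | succ p =>
      obtain ⟨z, rfl⟩ := hb
      refine ⟨F.up z, ?_⟩
      rw [← F.up_vecMul, ← F.mat_conj])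

theorem mapE_bijective (T : RC S) (p : ℕ) : Function.Bijective (F.mapE T p) := by
  constructor
  · rw [injective_iff_map_eq_zero]
    intro y
    induction y using Submodule.Quotient.induction_on with
    | H y =>
      obtain ⟨y, hy⟩ := y
      intro h0
      change Submodule.Quotient.mk _ = _ at h0
      rw [Submodule.Quotient.mk_eq_zero] at h0
      rw [Submodule.Quotient.mk_eq_zero]
      replace h0 : F.up y ∈ T.bd p := h0
      change y ∈ (F.rc T).bd p
      cases p with
      | zero =>
        have h1 : F.up y = 0 := h0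
        change y = 0
        rw [← F.dn_up y, h1, F.dn_zero]
      | succ p =>
        obtain ⟨z, hz⟩ := h0
        refine ⟨F.dn z, ?_⟩
        change Matrix.vecMul (F.dn z) (F.mat (T.D p)).conjTranspose = y
        rw [F.mat_conj, ← F.dn_vecMul, hz, F.dn_up]
  · intro x
    induction x using Submodule.Quotient.induction_on with
    | H x =>
      obtain ⟨x, hx⟩ := x
      refine ⟨Submodule.Quotient.mk ⟨F.dn x, ?_⟩, ?_⟩
      · change Matrix.vecMul (F.dn x) (F.mat (T.D p)).conjTranspose = 0
        rw [F.mat_conj, ← F.dn_vecMul, show Matrix.vecMul x (T.D p).conjTranspose = 0 from hx,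
          F.dn_zero]
      · change Submodule.Quotient.mk _ = Submodule.Quotient.mk _
        congr 1
        exact Subtype.ext (F.up_dn x)

include F in
/-- the ring `S` is noetherian if `R` is -/
theorem noetherian [IsNoetherianRing R] : IsNoetherianRing S := by
  classical
  let : Module R S := Module.compHom S F.ι
  have : IsScalarTower R S S := ⟨fun r s t => by
    change (F.ι r * s) * t = F.ι r * (s * t)
    rw [mul_assoc]⟩
  have : Module.Finite R S := by
    refine ⟨⟨Finset.univ.image F.b, ?_⟩⟩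
    rw [eq_top_iff]
    intro s _
    rw [← F.sum_b s]
    refine Submodule.sum_mem _ fun i _ => ?_
    change F.ψ (s * star (F.b i)) • F.b i ∈ _
    exact Submodule.smul_mem _ _ (Submodule.subset_span (by simp))
  exact isNoetherian_of_tower R (isNoetherian_of_isNoetherianRing_of_finite R S)

include F in
/-- the Auslander condition passes to `S` -/
theorem ar [IsNoetherianRing R] (h : AR R) : AR S := by
  have := F.noetherian
  intro T hT p N hN
  have : Module.Finite S N := Module.Finite.iff_fg.2 hN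
  obtain ⟨T', ⟨r⟩⟩ := exists_res (R := S) N
  have hbij := F.mapE_bijective T p
  set N' : Submodule R ((F.rc T).E p) := N.comap (F.mapE T p) with hN'
  let φ : N' ≃+ N := AddEquiv.ofBijective
    (AddMonoidHom.mk' (fun x : N' => (⟨F.mapE T p x.1, x.2⟩ : N)) (fun x y => Subtype.ext (by
      change F.mapE T p (x.1 + y.1) = F.mapE T p x.1 + F.mapE T p y.1
      rw [map_add]))) (by
    constructor
    · intro x y hxy
      exact Subtype.ext (hbij.1 (congrArg Subtype.val hxy))
    · rintro ⟨x, hx⟩
      obtain ⟨y, rfl⟩ := hbij.2 x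
      exact ⟨⟨y, hx⟩, rfl⟩)
  have hφ : ∀ (a : R) (x : N'), φ (a • x) = F.ι a • φ x := by
    intro a x
    refine Subtype.ext ?_
    change F.mapE T p (a • x.1) = F.ι a • F.mapE T p x.1
    rw [LinearMap.map_smulₛₗ]
  let r' : Res (F.rc T') N' := F.res r φ hφ
  have : Module.Finite R N' := Module.Finite.of_surjective r'.ε r'.surj
  have h1 : GE R p N' := h (F.rc T) (fun k => F.rc_ex (hT k)) p N' (Module.Finite.iff_fg.1 inferInstance)
  exact (ge_iff r p).2 fun l hl => F.rc_coex.1 ((ge_iff r' p).1 h1 l hl)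

end Frob

end Pool.Agent.UPV
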