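import Mathlib
import Pool.Agent.Lib.UPV.V6a
import Pool.Agent.Lib.UP.U13b

/-!
# TANK UP, row V6: subgroups of finite index

`A[N] → A[H]` is a Frobenius extension with involutions; noetherian, the vanishing of the duals above
`G` and the Auslander condition pass from `A[N]` to `A[H]`.
-/

set_option autoImplicit false

open MonoidAlgebra Pool.Agent.UP

namespace Pool.Agent.UPV

universe u v

/-- the dual of every free resolution is exact above `G` -/
def IdLE (R : Type u) [Ring R] (G : ℕ) : Prop :=
  ∀ T : RC R, (∀ k, T.Ex k) → ∀ l, G < l → T.CoEx l

section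
variable {A : Type u} {H : Type v} [CommRing A] [Group H] (N : Subgroup H)

/-- restriction of the support to the subgroup -/
noncomputable def psiN : MonoidAlgebra A H →+ MonoidAlgebra A N :=
  ((coeffAddEquiv (R := A) (M := N)).symm : (N →₀ A) →+ MonoidAlgebra A N).comp
    ((Finsupp.comapDomain.addMonoidHom (Subtype.val_injective (p := fun x : H => x ∈ N))).comp
      ((coeffAddEquiv (R := A) (M := H)) : MonoidAlgebra A H →+ (H →₀ A)))

theorem psiN_coeff (x : MonoidAlgebra A H) (n : N) : (psiN N x).coeff n = x.coeff (n : H) := rfl

open scoped Classical in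
theorem psiN_single (h : H) (a : A) :
    psiN N (single h a) = if hN : h ∈ N then single (⟨h, hN⟩ : N) a else 0 := by
  apply coeff_injective
  ext n
  rw [psiN_coeff, coeff_single]
  split_ifs with hN
  · rw [coeff_single]
    by_cases hn : h = (n : H)
    · have hn' : (⟨h, hN⟩ : N) = n := Subtype.ext hn
      rw [hn', hn, Finsupp.single_eq_same, Finsupp.single_eq_same]
    · have hn' : (⟨h, hN⟩ : N) ≠ n := fun h' => hn (congrArg Subtype.val h')
      rw [Finsupp.single_apply, if_neg hn, Finsupp.single_apply, if_neg hn']
  · rw [coeff_zero, Finsupp.zero_apply, Finsupp.single_apply, if_neg]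
    rintro rfl
    exact hN n.2

theorem psiN_single_of_mem {h : H} (hN : h ∈ N) (a : A) :
    psiN N (single h a) = single (⟨h, hN⟩ : N) a := by
  classical
  rw [psiN_single, dif_pos hN]

theorem psiN_single_of_not_mem {h : H} (hN : h ∉ N) (a : A) :
    psiN N (single h a) = 0 := by
  classical
  rw [psiN_single, dif_neg hN]

/-- the inclusion of group rings -/
noncomputable def iotaN : MonoidAlgebra A N →+* MonoidAlgebra A H :=
  MonoidAlgebra.mapDomainRingHom A (N.subtype : N →* H)

theorem iotaN_single (n : N) (a : A) : iotaN N (single n a) = single (n : H) a := by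
  change MonoidAlgebra.mapDomain _ _ = _
  exact mapDomain_single

theorem psiN_left (r : MonoidAlgebra A N) (s : MonoidAlgebra A H) :
    psiN N (iotaN N r * s) = r * psiN N s := by
  induction r using MonoidAlgebra.induction_linear with
  | zero => rw [map_zero, zero_mul, map_zero, zero_mul]
  | add x y hx hy => rw [map_add, add_mul, map_add, hx, hy, add_mul]
  | single n a =>
    induction s using MonoidAlgebra.induction_linear with
    | zero => rw [mul_zero, map_zero, mul_zero]
    | add x y hx hy => rw [mul_add, map_add, hx, hy, map_add, mul_add]
    | single h b =>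
      rw [iotaN_single, single_mul_single]
      by_cases hN : h ∈ N
      · rw [psiN_single_of_mem N hN, psiN_single_of_mem N (N.mul_mem n.2 hN), single_mul_single]
        rfl
      · rw [psiN_single_of_not_mem N hN, psiN_single_of_not_mem N, mul_zero]
        intro h'
        exact hN ((N.mul_mem_cancel_left n.2).1 h')

/-- right coset representatives -/
theorem exists_reps (hN : N.FiniteIndex) :
    ∃ (n : ℕ) (g : Fin n → H) (c : H → Fin n), ∀ h i, h * (g i)⁻¹ ∈ N ↔ c h = i := by
  have : Finite (H ⧸ N) := N.finite_quotient_of_finiteIndex
  obtain ⟨n, ⟨e⟩⟩ := Finite.exists_equiv_fin (H ⧸ N)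
  refine ⟨n, fun i => ((e.symm i).out)⁻¹, fun h => e (QuotientGroup.mk h⁻¹), fun h i => ?_⟩
  rw [inv_inv]
  constructor
  · intro h'
    have h1 : (QuotientGroup.mk h⁻¹ : H ⧸ N) = QuotientGroup.mk (e.symm i).out := by
      rw [QuotientGroup.eq, inv_inv]
      exact h'
    change e (QuotientGroup.mk h⁻¹) = i
    rw [h1, QuotientGroup.out_eq', e.apply_symm_apply]
  · rintro rfl
    rw [e.symm_apply_apply]
    have h1 := QuotientGroup.out_eq' (QuotientGroup.mk h⁻¹ : H ⧸ N)
    have h2 := QuotientGroup.eq.1 h1.symm
    rw [inv_inv] at h2
    exact h2

variable [StarRing A]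

/-- the group ring of a subgroup of finite index: a Frobenius extension -/
theorem exists_frob (hN : N.FiniteIndex) :
    Nonempty (@Frob (MonoidAlgebra A N) (MonoidAlgebra A H) _ (starMA A N) _ (starMA A H)) := by
  classical
  obtain ⟨n, g, c, hc⟩ := exists_reps N hN
  let := starMA A N
  let := starMA A H
  refine ⟨⟨iotaN N, psiN N, n, fun i => single (g i) 1, psiN_left N, ?_, ?_, ?_, ?_⟩⟩
  · intro s
    induction s using MonoidAlgebra.induction_linear with
    | zero => rw [star_zero, map_zero, star_zero]
    | add x y hx hy => rw [star_add, map_add, hx, hy, map_add, star_add]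
    | single h b =>
      change psiN N ((starMA A H).star (single h b)) = (starMA A N).star (psiN N (single h b))
      rw [starMA_single]
      by_cases hN : h ∈ N
      · rw [psiN_single_of_mem N hN, psiN_single_of_mem N (N.inv_mem hN), starMA_single]
        rfl
      · rw [psiN_single_of_not_mem N hN, psiN_single_of_not_mem N, starMA_zero]
        intro h'
        exact hN (N.inv_mem_iff.1 h')
  · intro r
    induction r using MonoidAlgebra.induction_linear with
    | zero => rw [star_zero, map_zero, star_zero]
    | add x y hx hy => rw [star_add, map_add, map_add, star_add, hx, hy]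
    | single h b =>
      change (starMA A H).star (iotaN N (single h b)) = iotaN N ((starMA A N).star (single h b))
      rw [starMA_single, iotaN_single, iotaN_single, starMA_single]
      rfl
  · intro s
    induction s using MonoidAlgebra.induction_linear with
    | zero =>
      refine Finset.sum_eq_zero fun i _ => ?_
      rw [zero_mul, map_zero, map_zero, zero_mul]
    | add x y hx hy =>
      refine Eq.trans ?_ (congrArg₂ (· + ·) hx hy)
      refine Eq.trans ?_ Finset.sum_add_distrib
      refine Finset.sum_congr rfl fun i _ => ?_
      rw [add_mul, map_add, map_add, add_mul]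
    | single h b =>
      rw [Finset.sum_eq_single (c h)]
      · change iotaN N (psiN N (single h b * (starMA A H).star (single (g (c h)) 1))) * _ = _
        rw [starMA_single, star_one, single_mul_single, psiN_single_of_mem N ((hc h (c h)).2 rfl),
          iotaN_single, single_mul_single]
        simp
      · intro i _ hi
        change iotaN N (psiN N (single h b * (starMA A H).star (single (g i) 1))) * _ = _
        rw [starMA_single, star_one, single_mul_single, psiN_single_of_not_mem N, map_zero,
          zero_mul]
        intro h'
        exact hi ((hc h i).1 h').symm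
      · intro h'
        exact absurd (Finset.mem_univ _) h'
  · intro i j
    change psiN N (single (g i) 1 * (starMA A H).star (single (g j) 1)) = _
    rw [starMA_single, star_one, single_mul_single, mul_one]
    have hii : c (g i) = i := (hc (g i) i).1 (by rw [mul_inv_cancel]; exact N.one_mem)
    by_cases hij : i = j
    · subst hij
      rw [if_pos rfl]
      have h1 : g i * (g i)⁻¹ ∈ N := by rw [mul_inv_cancel]; exact N.one_mem
      rw [psiN_single_of_mem N h1]
      rw [one_def]
      congr 1
      exact Subtype.ext (mul_inv_cancel (g i))
    · rw [if_neg hij, psiN_single_of_not_mem N]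
      intro h'
      exact hij (hii.symm.trans ((hc (g i) j).1 h'))

/-- the Auslander condition passes to groups with a subgroup of finite index -/
theorem ar_up (hN : N.FiniteIndex) [IsNoetherianRing (MonoidAlgebra A N)]
    (h : @AR (MonoidAlgebra A N) _ (starMA A N)) : @AR (MonoidAlgebra A H) _ (starMA A H) := by
  obtain ⟨F⟩ := exists_frob (A := A) N hN
  let := starMA A N
  let := starMA A H
  exact F.ar h

end

section
variable {A : Type u} {H : Type v} [CommRing A] [Group H] (N : Subgroup H)

theorem noeth_up (hN : N.FiniteIndex) [IsNoetherianRing (MonoidAlgebra A N)] :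
    IsNoetherianRing (MonoidAlgebra A H) := by
  let : StarRing A := starRingOfComm
  obtain ⟨F⟩ := exists_frob (A := A) N hN
  let := starMA A N
  let := starMA A H
  exact F.noetherian

theorem idLE_up (hN : N.FiniteIndex) {G : ℕ} (h : IdLE (MonoidAlgebra A N) G) :
    IdLE (MonoidAlgebra A H) G := by
  let : StarRing A := starRingOfComm
  obtain ⟨F⟩ := exists_frob (A := A) N hN
  let := starMA A N
  let := starMA A H
  intro T hT l hl
  exact F.rc_coex.1 (h (F.rc T) (fun k => F.rc_ex (hT k)) l hl)

end

end Pool.Agent.UPV
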