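import Mathlib
import Pool.Agent.Lib.UPV.V6
import Pool.Agent.Lib.UP.Defs4
import Pool.Agent.Lib.UP.F5b

/-!
# TANK UP, row V9: the facts of stage 2 pass to Frobenius extensions (subgroups of finite index)
-/

set_option autoImplicit false

open MonoidAlgebra Pool.Agent.UP

namespace Pool.Agent.UPV

universe u v w w'

namespace Frob

variable {R S : Type u} [Ring R] [StarRing R] [Ring S] [StarRing S] (F : Frob R S)

theorem up_vecMul' {a c : Type} [Fintype c] (κ : c → R) (ζ : Matrix c (a × Fin F.n) R) :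
    F.up (Matrix.vecMul κ ζ) =
      Matrix.vecMul (fun j => F.ι (κ j)) (fun j => F.up (ζ j) : Matrix c a S) := by
  funext p
  change ∑ i, F.ι (∑ j, κ j * ζ j (p, i)) * F.b i =
    ∑ j, F.ι (κ j) * ∑ i, F.ι (ζ j (p, i)) * F.b i
  simp only [map_sum, Finset.sum_mul, Finset.mul_sum, map_mul, mul_assoc]
  exact Finset.sum_comm

include F in
/-- coherence passes to `S` -/
theorem coh (h : CohT R) : CohT S := by
  intro J K _ _ D
  obtain ⟨c, ζ', h1, h2⟩ := h (J × Fin F.n) (K × Fin F.n) (F.mat D)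
  refine ⟨c, fun i => F.up (ζ' i), ?_, ?_⟩
  · funext i
    change Matrix.vecMul (F.up (ζ' i)) D = 0
    rw [← F.up_vecMul]
    have h3 : Matrix.vecMul (ζ' i) (F.mat D) = 0 := congrFun h1 i
    rw [h3]
    exact F.up_zero
  · intro x hx
    obtain ⟨κ, hκ⟩ := h2 (fun _ => F.dn (x ())) (by
      funext i
      change Matrix.vecMul (F.dn (x ())) (F.mat D) = 0
      rw [← F.dn_vecMul]
      have h3 : Matrix.vecMul (x ()) D = 0 := congrFun hx ()
      rw [h3]
      exact F.dn_zero)
    refine ⟨fun _ j => F.ι (κ () j), ?_⟩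
    funext i
    have h3 : F.dn (x ()) = Matrix.vecMul (κ ()) ζ' := congrFun hκ ()
    change x () = Matrix.vecMul (fun j => F.ι (κ () j)) (fun j => F.up (ζ' j) : Matrix _ J S)
    rw [← F.up_vecMul', ← h3, F.up_dn]

theorem ge_up (hc : CohT S) {M : Type u} [AddCommGroup M] [Module S M]
    [Module.FinitePresentation S M] {M' : Type u} [AddCommGroup M'] [Module R M'] (φ : M' ≃+ M)
    (hφ : ∀ (a : R) (x : M'), φ (a • x) = F.ι a • φ x) {p : ℕ} (h : GE R p M') : GE S p M := by
  obtain ⟨T', ⟨r⟩⟩ := exists_res_coh hc M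
  exact (ge_iff r p).2 fun l hl => F.rc_coex.1 ((ge_iff (F.res r φ hφ) p).1 h l hl)

/-- the comap of a submodule of `T.E p` -/
noncomputable def cmE (T : RC S) (p : ℕ) (N : Submodule S (T.E p)) :
    (N.comap (F.mapE T p)) ≃+ N :=
  AddEquiv.ofBijective
    (AddMonoidHom.mk' (fun x : N.comap (F.mapE T p) => (⟨F.mapE T p x.1, x.2⟩ : N))
      (fun x y => Subtype.ext (by
        change F.mapE T p (x.1 + y.1) = F.mapE T p x.1 + F.mapE T p y.1
        rw [map_add]))) (by
    constructor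
    · intro x y hxy
      exact Subtype.ext ((F.mapE_bijective T p).1 (congrArg Subtype.val hxy))
    · rintro ⟨x, hx⟩
      obtain ⟨y, rfl⟩ := (F.mapE_bijective T p).2 x
      exact ⟨⟨y, hx⟩, rfl⟩)

theorem cmE_smul (T : RC S) (p : ℕ) (N : Submodule S (T.E p)) (a : R)
    (x : N.comap (F.mapE T p)) : F.cmE T p N (a • x) = F.ι a • F.cmE T p N x := by
  refine Subtype.ext ?_
  change F.mapE T p (a • x.1) = F.ι a • F.mapE T p x.1
  rw [LinearMap.map_smulₛₗ]

theorem comap_fg {T : RC S} {p : ℕ} {N : Submodule S (T.E p)} {P : RC S} (r : Res P N) :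
    (N.comap (F.mapE T p)).FG := by
  let r' := F.res r (F.cmE T p N) (F.cmE_smul T p N)
  have : Module.Finite R (N.comap (F.mapE T p)) := Module.Finite.of_surjective r'.ε r'.surj
  exact Module.Finite.iff_fg.1 this

include F in
theorem ar1 (hc : CohT S) (h : AR1 R) : AR1 S := by
  intro T hT p N hN
  have := fp_E hc T (p + 1)
  have := fp_submodule hc N hN
  obtain ⟨P, ⟨r⟩⟩ := exists_res_coh hc N
  exact F.ge_up hc (F.cmE T (p + 1) N) (F.cmE_smul T (p + 1) N)
    (h (F.rc T) (fun k => F.rc_ex (hT k)) p _ (F.comap_fg r))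

include F in
theorem arw (hc : CohT S) (h : ARW R) : ARW S := by
  intro T hT n hn hco
  have := fp_E hc T n
  exact F.ge_up hc (AddEquiv.ofBijective (F.mapE T n).toAddMonoidHom (F.mapE_bijective T n))
    (fun a x => LinearMap.map_smulₛₗ (F.mapE T n) a x)
    (h (F.rc T) (fun k => F.rc_ex (hT k)) n hn fun l h1 h2 => F.rc_coex.2 (hco l h1 h2))

/-- induced complexes are exact -/
theorem map_ex {C : RC R} {k : ℕ} (h : C.Ex k) : (C.map F.ι).Ex k := by
  intro x hx
  have h1 : ∀ i, ∃ y, Matrix.vecMul y (C.D (k + 1)) = fun c => F.ψ (F.b i * x c) := by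
    intro i
    refine h _ ?_
    funext d
    have h2 : ∑ c, x c * F.ι (C.D k c d) = 0 := congrFun hx d
    change ∑ c, F.ψ (F.b i * x c) * C.D k c d = 0
    calc ∑ c, F.ψ (F.b i * x c) * C.D k c d = F.ψ (F.b i * ∑ c, x c * F.ι (C.D k c d)) := by
          rw [Finset.mul_sum, map_sum]
          refine Finset.sum_congr rfl fun c _ => ?_
          rw [← mul_assoc, F.psi_right]
      _ = 0 := by rw [h2, mul_zero, map_zero]
  choose y hy using h1
  refine ⟨fun c => ∑ i, star (F.b i) * F.ι (y i c), ?_⟩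
  funext d
  change ∑ c, (∑ i, star (F.b i) * F.ι (y i c)) * F.ι (C.D (k + 1) c d) = x d
  rw [← F.sum_b' (x d)]
  simp only [Finset.sum_mul]
  rw [Finset.sum_comm]
  refine Finset.sum_congr rfl fun i _ => ?_
  have h2 : ∑ c, y i c * C.D (k + 1) c d = F.ψ (F.b i * x d) := congrFun (hy i) d
  rw [← h2, map_sum, Finset.mul_sum]
  refine Finset.sum_congr rfl fun c _ => ?_
  rw [map_mul, mul_assoc]

/-- matrices over `S` from matrices over `R` (columns) -/
def ucm {a c : Type} (W : Matrix (a × Fin F.n) c R) : Matrix a c S :=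
  fun x j => F.uc (fun p => W p j) x

theorem ucm_mul {a c d : Type} [Fintype c] (W : Matrix (a × Fin F.n) c R) (V : Matrix c d R) :
    F.ucm (W * V) = F.ucm W * V.map F.ι := by
  ext x j
  change ∑ i, star (F.b i) * F.ι (∑ l, W (x, i) l * V l j) =
    ∑ l, (∑ i, star (F.b i) * F.ι (W (x, i) l)) * F.ι (V l j)
  simp only [map_sum, Finset.sum_mul, Finset.mul_sum, map_mul, mul_assoc]
  exact Finset.sum_comm

theorem mul_ucm {a c d : Type} [Fintype c] (M : Matrix a c S) (W : Matrix (c × Fin F.n) d R) :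
    M * F.ucm W = F.ucm (F.mat M * W) := by
  ext x j
  have h := F.dc_mulVec M (F.uc fun p => W p j)
  rw [F.dc_uc] at h
  have h2 := congrArg F.uc h
  rw [F.uc_dc] at h2
  exact congrFun h2 x

theorem psi_ucm {a c : Type} (W : Matrix (a × Fin F.n) c R) (x : a) (i : Fin F.n) (j : c) :
    F.ψ (F.b i * F.ucm W x j) = W (x, i) j :=
  congrFun (F.dc_uc fun p => W p j) (x, i)

include F in
theorem arf (h : ARF R) : ARF S := by
  intro T hT q K hK P r ξ hξ
  have hξ' : F.dn ξ ∈ (F.rc P).cy q := by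
    change Matrix.vecMul (F.dn ξ) (F.mat (P.D q)).conjTranspose = 0
    rw [F.mat_conj, ← F.dn_vecMul, show Matrix.vecMul ξ (P.D q).conjTranspose = 0 from hξ,
      F.dn_zero]
  obtain ⟨C, Z, hC, he, hd⟩ := h (F.rc T) (fun k => F.rc_ex (hT k)) q
    (K.comap (F.mapE T (q + 1))) (F.comap_fg r) (F.rc P)
    (F.res r (F.cmE T (q + 1) K) (F.cmE_smul T (q + 1) K)) (F.dn ξ) hξ'
  refine ⟨C.map F.ι, ⟨fun k => F.ucm (Z.U k), fun k => ?_⟩, fun k => F.map_ex (hC k), he, ?_⟩
  · change F.ucm (Z.U (k + 1)) * (C.D k).map F.ι = P.D k * F.ucm (Z.U k)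
    rw [← F.ucm_mul, F.mul_ucm, Z.comm]
  · rintro ⟨H, hH⟩
    have h1 : F.dn ξ ∈ (F.rc P).bd q := by
      refine hd ⟨fun p c => F.ψ (F.b p.2 * H p.1 c), ?_⟩
      ext p c
      obtain ⟨x, i⟩ := p
      have h2 : F.ucm (Z.U 0) x c = ∑ l, H x l * F.ι (C.D 0 l c) := congrFun (congrFun hH x) c
      rw [← F.psi_ucm (Z.U 0) x i c, h2, Finset.mul_sum, map_sum]
      refine Finset.sum_congr rfl fun l _ => ?_
      rw [← mul_assoc, F.psi_right]
    cases q with
    | zero =>
      have h2 : F.dn ξ = 0 := h1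
      change ξ = 0
      rw [← F.up_dn ξ, h2, F.up_zero]
    | succ q =>
      obtain ⟨z, hz⟩ := h1
      refine ⟨F.up z, ?_⟩
      have h2 : Matrix.vecMul z (F.mat (P.D q)).conjTranspose = F.dn ξ := hz
      rw [← F.up_vecMul, ← F.mat_conj, h2, F.up_dn]

end Frob

section
variable {A : Type u} {H : Type v} [CommRing A] [Group H] (N : Subgroup H)

theorem coh_up (hN : N.FiniteIndex) (h : CohT (MonoidAlgebra A N)) :
    CohT (MonoidAlgebra A H) := by
  let : StarRing A := starRingOfComm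
  obtain ⟨F⟩ := exists_frob (A := A) N hN
  let := starMA A N
  let := starMA A H
  exact F.coh h

variable [StarRing A]

theorem ar1_up (hN : N.FiniteIndex) (hc : CohT (MonoidAlgebra A N))
    (h : @AR1 (MonoidAlgebra A N) _ (starMA A N)) : @AR1 (MonoidAlgebra A H) _ (starMA A H) := by
  obtain ⟨F⟩ := exists_frob (A := A) N hN
  let := starMA A N
  let := starMA A H
  exact F.ar1 (F.coh hc) h

theorem arw_up (hN : N.FiniteIndex) (hc : CohT (MonoidAlgebra A N))
    (h : @ARW (MonoidAlgebra A N) _ (starMA A N)) : @ARW (MonoidAlgebra A H) _ (starMA A H) := by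
  obtain ⟨F⟩ := exists_frob (A := A) N hN
  let := starMA A N
  let := starMA A H
  exact F.arw (F.coh hc) h

theorem arf_up (hN : N.FiniteIndex)
    (h : @ARF (MonoidAlgebra A N) _ (starMA A N)) : @ARF (MonoidAlgebra A H) _ (starMA A H) := by
  obtain ⟨F⟩ := exists_frob (A := A) N hN
  let := starMA A N
  let := starMA A H
  exact F.arf h

end

end Pool.Agent.UPV
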