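import Pool.Agent.Lib.UPV.Defs
import Pool.Agent.Lib.UP.Defs
import Pool.Agent.Lib.UP.U3a

/-! # Finite global dimension from the finitely generated modules (Baer) -/

open MonoidAlgebra CategoryTheory Abelian

namespace Pool.Agent.UPV

open Pool.Agent.UP

universe u v w

section
variable {R : Type u} [Ring R]

/-- the short exact sequence of a submodule -/
abbrev scSub {M : Type u} [AddCommGroup M] [Module R M] (N : Submodule R M) :
    ShortComplex (ModuleCat.{u} R) :=
  ModuleCat.shortComplexOfCompEqZero N.subtype N.mkQ (by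
    ext x
    simp)

theorem scSub_exact {M : Type u} [AddCommGroup M] [Module R M] (N : Submodule R M) :
    (scSub N).ShortExact := by
  apply ModuleCat.shortComplex_shortExact
  · intro x
    change N.mkQ x = 0 ↔ x ∈ Set.range N.subtype
    simp
  · exact N.subtype_injective
  · exact N.mkQ_surjective

/-- Baer's criterion in terms of `Ext^1(R/I, -)` -/
theorem injective_of_ext (Y : ModuleCat.{u} R)
    (h : ∀ I : Submodule R R, Subsingleton (Ext (ModuleCat.of R (R ⧸ I)) Y 1)) :
    Injective Y := by
  have hB : Module.Baer R Y := by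
    intro I f
    obtain ⟨φ, hφ⟩ := Ext.contravariant_sequence_exact₁ (scSub_exact I) Y
      (Ext.mk₀ (ModuleCat.ofHom f)) (zero_add 1) ((h I).elim _ _)
    obtain ⟨φ, rfl⟩ := Ext.homEquiv₀.symm.surjective φ
    refine ⟨φ.hom, fun x mem => ?_⟩
    have h1 : (scSub I).f ≫ φ = ModuleCat.ofHom f := by
      apply Ext.homEquiv₀.symm.injective
      simpa using hφ
    have h2 := congrArg (fun k : ModuleCat.of R I ⟶ Y => k.hom ⟨x, mem⟩) h1
    exact h2
  have : Module.Injective R Y := hB.injective
  exact Module.injective_object_of_injective_module R Y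

/-- injective dimension by means of cyclic modules -/
theorem inj_dim_of_ext (n : ℕ) (Y : ModuleCat.{u} R)
    (h : ∀ I : Submodule R R, Subsingleton (Ext (ModuleCat.of R (R ⧸ I)) Y (n + 1))) :
    HasInjectiveDimensionLT Y (n + 1) := by
  induction n generalizing Y with
  | zero =>
    have := injective_of_ext Y h
    infer_instance
  | succ n ih =>
    let ⟨J, _, f, _⟩ := EnoughInjectives.presentation Y
    have hS : (ShortComplex.mk f (Limits.cokernel.π f) (Limits.cokernel.condition f)).ShortExact :=
      { exact := ShortComplex.exact_cokernel f }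
    rw [← hS.hasInjectiveDimensionLT_X₃_iff n inferInstance]
    refine ih _ fun I => ⟨fun x y => ?_⟩
    have key : ∀ z : Ext (ModuleCat.of R (R ⧸ I)) (Limits.cokernel f) (n + 1), z = 0 := by
      intro z
      obtain ⟨x₂, rfl⟩ := Ext.covariant_sequence_exact₃ _ hS z rfl ((h I).elim _ _)
      rw [Ext.eq_zero_of_injective x₂, Ext.zero_comp]
    rw [key x, key y]

/-- global dimension by means of cyclic modules -/
theorem gd_of_cyclic (n : ℕ) (h : ∀ I : Submodule R R, Pd R (R ⧸ I) (n + 1)) : GD R n := by
  intro M _ _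
  have hY : ∀ Y : ModuleCat.{u} R, HasInjectiveDimensionLT Y (n + 1) := by
    intro Y
    refine inj_dim_of_ext n Y fun I => ?_
    have := h I
    exact HasProjectiveDimensionLT.subsingleton (ModuleCat.of R (R ⧸ I)) (n + 1) (n + 1) le_rfl Y
  rw [Pd, hasProjectiveDimensionLT_iff]
  intro i hi Y e
  have := hY Y
  exact e.eq_zero_of_hasInjectiveDimensionLT (n + 1) hi

/-- the image of a differential -/
abbrev imD (T : RC R) (k : ℕ) : Submodule R (T.ι k → R) :=
  LinearMap.range (Matrix.vecMulLinear (T.D k))

instance pd_free (T : RC R) (k : ℕ) : Projective (ModuleCat.of R (T.ι k → R)) :=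
  (IsProjective.iff_projective (R := R) (T.ι k → R)).1 inferInstance

/-- the short exact sequence `0 → im D (k+1) → F (k+1) → im D k → 0` -/
theorem sc_im (T : RC R) (k : ℕ) (hT : T.Ex k) :
    (ModuleCat.shortComplexOfCompEqZero (imD T (k + 1)).subtype
      (Matrix.vecMulLinear (T.D k)).rangeRestrict (by
        refine LinearMap.ext ?_
        rintro ⟨_, y, rfl⟩
        apply Subtype.ext
        change Matrix.vecMul (Matrix.vecMul y (T.D (k + 1))) (T.D k) = 0
        rw [Matrix.vecMul_vecMul, T.DD, Matrix.vecMul_zero])).ShortExact := by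
  apply ModuleCat.shortComplex_shortExact
  · intro x
    constructor
    · intro hx
      obtain ⟨y, hy⟩ := hT x (congrArg Subtype.val hx)
      exact ⟨⟨x, y, hy⟩, rfl⟩
    · rintro ⟨⟨_, y, rfl⟩, rfl⟩
      apply Subtype.ext
      change Matrix.vecMul (Matrix.vecMul y (T.D (k + 1))) (T.D k) = 0
      rw [Matrix.vecMul_vecMul, T.DD, Matrix.vecMul_zero]
  · exact (imD T (k + 1)).subtype_injective
  · exact LinearMap.surjective_rangeRestrict _

/-- the short exact sequence `0 → im D 0 → F 0 → M → 0` -/
theorem sc_res {T : RC R} {M : Type u} [AddCommGroup M] [Module R M] (r : Res T M) :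
    (ModuleCat.shortComplexOfCompEqZero (imD T 0).subtype r.ε (by
        refine LinearMap.ext ?_
        rintro ⟨_, y, rfl⟩
        exact r.zero y)).ShortExact := by
  apply ModuleCat.shortComplex_shortExact
  · intro x
    constructor
    · intro hx
      obtain ⟨y, hy⟩ := r.ker x hx
      exact ⟨⟨x, y, hy⟩, rfl⟩
    · rintro ⟨⟨_, y, rfl⟩, rfl⟩
      exact r.zero y
  · exact (imD T 0).subtype_injective
  · exact r.surj

theorem proj_of_fl {g : ℕ} (h : FL R g) (T : RC R) (hT : ∀ k, T.Ex k) :
    Projective (ModuleCat.of R (imD T g)) := by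
  obtain ⟨M, hM1, hM2⟩ := h T hT
  have hs := sc_im T g (hT g)
  have hk : ∀ x : T.ι (g + 1) → R, Matrix.vecMul x (T.D g) = 0 → Matrix.vecMul x M = 0 := by
    intro x hx
    obtain ⟨y, rfl⟩ := hT g x hx
    rw [Matrix.vecMul_vecMul, hM2, Matrix.vecMul_zero]
  -- the section
  have : Module.Projective R (imD T g) := by
    let p : (T.ι (g + 1) → R) →ₗ[R] imD T g := (Matrix.vecMulLinear (T.D g)).rangeRestrict
    have hp : Function.Surjective p := LinearMap.surjective_rangeRestrict _
    have hle : LinearMap.ker p ≤ LinearMap.ker (Matrix.vecMulLinear M) := by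
      intro x hx
      exact hk x (congrArg Subtype.val (LinearMap.mem_ker.1 hx))
    let s : imD T g →ₗ[R] (T.ι (g + 1) → R) :=
      ((LinearMap.ker p).liftQ (Matrix.vecMulLinear M) hle).comp
        (LinearMap.quotKerEquivOfSurjective p hp).symm.toLinearMap
    refine Module.Projective.of_split s p ?_
    ext x : 1
    obtain ⟨y, rfl⟩ := hp x
    have h1 : s (p y) = Matrix.vecMul y M := by
      change ((LinearMap.ker p).liftQ (Matrix.vecMulLinear M) hle)
        ((LinearMap.quotKerEquivOfSurjective p hp).symm (p y)) = _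
      have h2 : (LinearMap.quotKerEquivOfSurjective p hp).symm (p y) =
          Submodule.Quotient.mk y := by
        rw [LinearEquiv.symm_apply_eq]
        rfl
      rw [h2]
      rfl
    change p (s (p y)) = p y
    rw [h1]
    apply Subtype.ext
    change Matrix.vecMul (Matrix.vecMul y M) (T.D g) = Matrix.vecMul y (T.D g)
    rw [Matrix.vecMul_vecMul, hM1]
  exact (IsProjective.iff_projective (R := R) (imD T g)).1 this

theorem pd_im {g : ℕ} (h : FL R g) (T : RC R) (hT : ∀ k, T.Ex k) (j : ℕ) (hj : j ≤ g) :
    HasProjectiveDimensionLT (ModuleCat.of R (imD T (g - j))) (j + 1) := by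
  induction j with
  | zero =>
    have := proj_of_fl h T hT
    rw [Nat.sub_zero]
    infer_instance
  | succ j ih =>
    have h1 := ih (by omega)
    have h2 : g - j = (g - (j + 1)) + 1 := by omega
    rw [h2] at h1
    exact (sc_im T (g - (j + 1)) (hT _)).hasProjectiveDimensionLT_X₃ (j + 1) h1
      (hasProjectiveDimensionLT_of_ge _ 1 _ (by omega))

/-- finitely generated modules have projective dimension `≤ g + 1` -/
theorem pd_of_fl [IsNoetherianRing R] {g : ℕ} (h : FL R g) (M : Type u) [AddCommGroup M]
    [Module R M] [Module.Finite R M] : Pd R M (g + 2) := by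
  obtain ⟨T, ⟨r⟩⟩ := exists_res (R := R) M
  have h1 := pd_im h T r.ex g le_rfl
  rw [Nat.sub_self] at h1
  exact (sc_res r).hasProjectiveDimensionLT_X₃ (g + 1) h1
      (hasProjectiveDimensionLT_of_ge _ 1 _ (by omega))

end

theorem gd_of_fl {R : Type u} [Ring R] [IsNoetherianRing R] {g : ℕ} (h : FL R g) :
    GD R (g + 1) :=
  gd_of_cyclic (g + 1) fun _ => pd_of_fl h _

attribute [local instance] RingHomInvPair.of_ringEquiv in
theorem GD.congr {R R' : Type u} [Ring R] [Ring R'] (e : R ≃+* R') {n : ℕ} (h : GD R n) :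
    GD R' n := by
  intro M _ _
  let i1 : Module R M := Module.compHom M (e : R →+* R')
  have h1 : HasProjectiveDimensionLE (ModuleCat.of R M) n := h M
  let e' : (ModuleCat.of R M : Type u) ≃ₛₗ[RingHomClass.toRingHom e] (ModuleCat.of R' M : Type u) :=
    { AddEquiv.refl M with map_smul' := fun r m => rfl }
  exact ModuleCat.hasProjectiveDimensionLE_of_semiLinearEquiv e e' n

end Pool.Agent.UPV
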