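import Mathlib
import Pool.Agent.Lib.UPV.Defs
import Pool.Agent.Lib.UPV.V6
import Pool.Agent.Lib.UP.U14E
import Pool.Agent.Lib.UP.U4F

/-!
# TANK UP, row V7: global dimension and finite length of resolutions
-/

set_option autoImplicit false

open CategoryTheory Pool.Agent.UP

namespace Pool.Agent.UPV

universe u

section
variable {R : Type u} [Ring R]

theorem idLE_of_fl {g : ℕ} (h : FL R g) : IdLE R (g + 1) := by
  intro T hT l hl
  obtain ⟨k, rfl⟩ := Nat.exists_eq_add_of_le' (show 2 ≤ l by omega)
  exact U14E_coex h T hT k (by omega)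

/-- one step down -/
theorem V7_step {g : ℕ} (h : FL R (g + 1)) (h' : IdLE R (g + 1)) : FL R g := by
  intro T hT
  obtain ⟨M, hM, hM'⟩ := h T hT
  have hc : ∀ j, ∃ z, Matrix.mulVec (T.D (g + 1)) z = fun i => M i j := by
    intro j
    refine h' T hT (g + 2) (by omega) _ ?_
    have h1 := congrFun (congrArg Matrix.transpose hM') j
    funext i
    exact congrFun h1 i
  choose Z hZ using hc
  have hZ' : T.D (g + 1) * (Matrix.of fun i j => Z j i) = M := by
    ext i j
    exact congrFun (hZ j) i
  refine ⟨1 - (Matrix.of fun i j => Z j i) * T.D (g + 1), ?_, ?_⟩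
  · rw [Matrix.sub_mul, Matrix.one_mul, Matrix.mul_assoc, T.DD, Matrix.mul_zero, sub_zero]
  · rw [Matrix.mul_sub, Matrix.mul_one, ← Matrix.mul_assoc, hZ', hM, sub_self]

theorem V7_down {G : ℕ} (h' : IdLE R (G + 1)) (m : ℕ) (h : FL R (G + m)) : FL R G := by
  induction m with
  | zero => exact h
  | succ m ih =>
    refine ih (V7_step h ?_)
    intro T hT l hl
    exact h' T hT l (by omega)

theorem V7_up {g : ℕ} (h : FL R g) (m : ℕ) : FL R (g + m) := by
  induction m with
  | zero => exact h
  | succ m ih => exact FL.succ ih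

theorem fl_sharp {n G : ℕ} (h : FL R n) (h' : IdLE R (G + 1)) : FL R G := by
  rcases le_total n G with hn | hn
  · obtain ⟨m, rfl⟩ := Nat.exists_eq_add_of_le hn
    exact V7_up h m
  · obtain ⟨m, rfl⟩ := Nat.exists_eq_add_of_le hn
    exact V7_down h' m h

/-- the image of `D k` -/
abbrev V7_imD (T : RC R) (k : ℕ) : Submodule R (T.ι k → R) :=
  LinearMap.range (Matrix.vecMulLinear (T.D k))

theorem V7_pd_free (T : RC R) (k n : ℕ) : Pd R (T.ι k → R) (n + 1) := by
  have h1 : Projective (ModuleCat.of R (T.ι k → R)) :=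
    (IsProjective.iff_projective (R := R) (T.ι k → R)).1 inferInstance
  have h2 : HasProjectiveDimensionLT (ModuleCat.of R (T.ι k → R)) 1 := inferInstance
  exact hasProjectiveDimensionLT_of_ge _ 1 (n + 1) (by omega)

theorem V7_pd_im (T : RC R) (hT : ∀ k, T.Ex k) {k n : ℕ} (h : Pd R (V7_imD T k) (n + 2)) :
    Pd R (V7_imD T (k + 1)) (n + 1) := by
  let g : (T.ι (k + 1) → R) →ₗ[R] V7_imD T k := (Matrix.vecMulLinear (T.D k)).rangeRestrict
  have hg : Function.Surjective g := LinearMap.surjective_rangeRestrict _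
  have hex : Function.Exact (V7_imD T (k + 1)).subtype g := by
    intro x
    constructor
    · intro hx
      obtain ⟨y, hy⟩ := hT k x (congrArg Subtype.val hx)
      exact ⟨⟨x, ⟨y, hy⟩⟩, rfl⟩
    · rintro ⟨⟨_, ⟨y, rfl⟩⟩, rfl⟩
      apply Subtype.ext
      change Matrix.vecMul (Matrix.vecMul y (T.D (k + 1))) (T.D k) = 0
      rw [Matrix.vecMul_vecMul, T.DD, Matrix.vecMul_zero]
  have hS : (ShortComplex.mk (ModuleCat.ofHom (V7_imD T (k + 1)).subtype) (ModuleCat.ofHom g)
      (ModuleCat.hom_ext (LinearMap.ext fun x => (hex x.1).2 ⟨x, rfl⟩))).ShortExact := by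
    refine { exact := ?_, mono_f := ?_, epi_g := ?_ }
    · rw [ShortComplex.moduleCat_exact_iff]
      intro x hx
      exact (hex x).1 hx
    · exact (ModuleCat.mono_iff_injective _).mpr (Submodule.injective_subtype _)
    · exact (ModuleCat.epi_iff_surjective _).mpr hg
  exact hS.hasProjectiveDimensionLT_X₁ (n + 1) (V7_pd_free T (k + 1) n) h

theorem fl_of_gd {n : ℕ} (h : GD R n) : FL R n := by
  intro T hT
  have h1 : ∀ m, m ≤ n → Pd R (V7_imD T m) (n - m + 1) := by
    intro m
    induction m with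
    | zero => intro _; exact h (V7_imD T 0)
    | succ m ih =>
      intro hm
      have h2 := ih (by omega)
      have h3 : n - m + 1 = (n - (m + 1)) + 2 := by omega
      rw [h3] at h2
      exact V7_pd_im T hT h2
  have h2 := h1 n le_rfl
  rw [Nat.sub_self] at h2
  have h3 : Module.Projective R (V7_imD T n) :=
    (IsProjective.iff_projective (R := R) (V7_imD T n)).2 inferInstance
  obtain ⟨s, hs⟩ := Module.projective_lifting_property
    (Matrix.vecMulLinear (T.D n)).rangeRestrict LinearMap.id (LinearMap.surjective_rangeRestrict _)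
  have hs' : ∀ z : V7_imD T n, Matrix.vecMul (s z) (T.D n) = z.1 := fun z =>
    congrArg Subtype.val (LinearMap.congr_fun hs z)
  let f : (T.ι (n + 1) → R) →ₗ[R] (T.ι (n + 1) → R) :=
    s.comp (Matrix.vecMulLinear (T.D n)).rangeRestrict
  have hf : ∀ x, Matrix.vecMul x (Matrix.of fun i => f (Pi.single i 1)) = f x := by
    intro x
    have hx : x = ∑ i, x i • (Pi.single i 1 : T.ι (n + 1) → R) := by
      funext j
      simp [Finset.sum_apply, Pi.single_apply]
    conv_rhs => rw [hx, map_sum]
    funext j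
    rw [Matrix.vecMul, dotProduct, Finset.sum_apply]
    refine Finset.sum_congr rfl fun i _ => ?_
    rw [map_smul]
    rfl
  refine ⟨Matrix.of fun i => f (Pi.single i 1), ?_, ?_⟩
  · apply Matrix.ext_of_single_vecMul
    intro i
    rw [← Matrix.vecMul_vecMul, hf]
    exact hs' _
  · apply Matrix.ext_of_single_vecMul
    intro i
    rw [← Matrix.vecMul_vecMul, hf, Matrix.vecMul_zero]
    have h4 : (Matrix.vecMulLinear (T.D n)).rangeRestrict
        (Matrix.vecMul (Pi.single i 1) (T.D (n + 1))) = 0 := by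
      apply Subtype.ext
      change Matrix.vecMul (Matrix.vecMul (Pi.single i 1) (T.D (n + 1))) (T.D n) = 0
      rw [Matrix.vecMul_vecMul, T.DD, Matrix.vecMul_zero]
    change s ((Matrix.vecMulLinear (T.D n)).rangeRestrict
        (Matrix.vecMul (Pi.single i 1) (T.D (n + 1)))) = 0
    rw [h4, map_zero]

end

end Pool.Agent.UPV
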