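import Mathlib
import Pool.Agent.Lib.UPV.V0
import Pool.Agent.Lib.UPV.V5
import Pool.Agent.Lib.UPV.V6
import Pool.Agent.Lib.UPV.V7
import Pool.Agent.Lib.UP.U4b

/-!
# Group rings of torsion-free virtually poly-`ℤ` groups

noetherian, Auslander condition, finite global dimension: no dependence on the index.
-/

set_option autoImplicit false

open MonoidAlgebra CategoryTheory Pool.Agent.UP

namespace Pool.Agent.UPV

universe u v

/-- finite global dimension in the sense of `FL` passes to torsion-free overgroups of finite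
index of poly-`ℤ` groups, without dependence on the index -/
theorem fl_virt {A : Type u} [CommRing A] [IsNoetherianRing A] {g : ℕ} (hg : FL A g) {d : ℕ}
    {H : Type v} [Group H] (htf : ∀ h : H, IsOfFinOrder h → h = 1) (N : Subgroup H)
    (hN : N.FiniteIndex) (hP : PolyZ d N) {G : ℕ} (hFL : FL (MonoidAlgebra A N) G) :
    FL (MonoidAlgebra A H) G := by
  have h1 : ∀ (K : Type v) [Group K] [Subsingleton K], GD (MonoidAlgebra A K) (g + 1) := by
    intro K _ _
    have : Unique K := ⟨⟨1⟩, fun a => Subsingleton.elim a 1⟩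
    have e : A ≃+* MonoidAlgebra A K := (MonoidAlgebra.uniqueRingEquiv K).symm
    have h2 : IsNoetherianRing (MonoidAlgebra A K) := isNoetherianRing_of_ringEquiv _ e
    exact gd_of_fl (FL.equiv e hg)
  have h2 := gd_virt h1 d N.index H htf N hN le_rfl hP
  exact fl_sharp (fl_of_gd h2) (idLE_up N hN (idLE_of_fl hFL))

/-- the three facts for torsion-free groups with a poly-`ℤ` subgroup of finite index -/
theorem virt_facts_of {A : Type u} [CommRing A] [StarRing A] [IsNoetherianRing A] {g : ℕ}
    (hg : FL A g) {d : ℕ} {H : Type v} [Group H] (htf : ∀ h : H, IsOfFinOrder h → h = 1)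
    (N : Subgroup H) (hN : N.FiniteIndex) (hP : PolyZ d N) {G : ℕ}
    (hf : IsNoetherianRing (MonoidAlgebra A N) ∧ @AR (MonoidAlgebra A N) _ (starMA A N) ∧
      FL (MonoidAlgebra A N) G) :
    IsNoetherianRing (MonoidAlgebra A H) ∧ @AR (MonoidAlgebra A H) _ (starMA A H) ∧
      FL (MonoidAlgebra A H) G := by
  obtain ⟨h1, h2, h3⟩ := hf
  exact ⟨noeth_up N hN, ar_up N hN h2, fl_virt hg htf N hN hP h3⟩

end Pool.Agent.UPV
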