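import Mathlib
import Pool.Agent.Lib.UPV.Virt
import Pool.Agent.Lib.UPV.V9
import Pool.Agent.Lib.UPV.F2
import Pool.Agent.Lib.UP.F4Of

/-!
# The facts of stage 2 for torsion-free groups which are virtually (poly-`ℤ`)-by-free
-/

set_option autoImplicit false

open MonoidAlgebra CategoryTheory Pool.Agent.UP

namespace Pool.Agent.UPV

universe u v

/-- finite global dimension: `H` torsion-free, `N ≤ H` of finite index, `φ : N → F` with poly-`ℤ`
kernel -/
theorem gd_virtF {A : Type u} [CommRing A] [IsNoetherianRing A] {g : ℕ} (hg : FL A g) {d : ℕ}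
    {H : Type v} [Group H] (htf : ∀ h : H, IsOfFinOrder h → h = 1) (N : Subgroup H)
    (hN : N.FiniteIndex) {X : Type} (φ : N →* FreeGroup X) (hP : PolyZ d φ.ker) :
    GD (MonoidAlgebra A H) (g + 1 + d * N.index + N.index) := by
  have h1 : ∀ (K : Type v) [Group K] [Subsingleton K], GD (MonoidAlgebra A K) (g + 1) := by
    intro K _ _
    have : Unique K := ⟨⟨1⟩, fun a => Subsingleton.elim a 1⟩
    have e : A ≃+* MonoidAlgebra A K := (MonoidAlgebra.uniqueRingEquiv K).symm
    have h2 : IsNoetherianRing (MonoidAlgebra A K) := isNoetherianRing_of_ringEquiv _ e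
    exact gd_of_fl (FL.equiv e hg)
  refine gd_stepF N hN φ (g + 1 + d * N.index) fun S hS => ?_
  refine gd_virt h1 d N.index S ?_ (N.subgroupOf S) inferInstance ?_ ?_
  · intro x hx
    exact Subtype.ext (htf x.1 (S.subtype.isOfFinOrder hx))
  · have h2 : N.relIndex ⊤ ≠ 0 := by
      rw [Subgroup.relIndex_top_right]
      exact hN.index_ne_zero
    have h3 := Subgroup.relIndex_le_of_le_right (H := N) (K := S) le_top h2
    rw [Subgroup.relIndex_top_right] at h3
    exact h3
  · let ψ : N.subgroupOf S →* φ.ker :=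
      { toFun := fun x => ⟨⟨x.1.1, x.2⟩, hS x.1.1 x.1.2 x.2⟩
        map_one' := rfl
        map_mul' := fun x y => rfl }
    refine hP.of_injective ψ ?_
    intro x y hxy
    have h2 : (ψ x).1.1 = (ψ y).1.1 := by rw [hxy]
    exact Subtype.ext (Subtype.ext h2)

theorem fl_virtF {A : Type u} [CommRing A] [IsNoetherianRing A] {g : ℕ} (hg : FL A g) {d : ℕ}
    {H : Type v} [Group H] (htf : ∀ h : H, IsOfFinOrder h → h = 1) (N : Subgroup H)
    (hN : N.FiniteIndex) {X : Type} (φ : N →* FreeGroup X) (hP : PolyZ d φ.ker) {G : ℕ}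
    (hFL : FL (MonoidAlgebra A N) G) : FL (MonoidAlgebra A H) G :=
  fl_sharp (fl_of_gd (gd_virtF hg htf N hN φ hP)) (idLE_up N hN (idLE_of_fl hFL))

/-- finite index last: the ring-theoretic facts pass from `N` to `H` -/
theorem rc4_virt {A : Type u} [CommRing A] [StarRing A] [IsNoetherianRing A] {g : ℕ}
    (hg : FL A g) {d : ℕ} {H : Type v} [Group H] (htf : ∀ h : H, IsOfFinOrder h → h = 1)
    (N : Subgroup H) (hN : N.FiniteIndex) {X : Type} (φ : N →* FreeGroup X)
    (hP : PolyZ d φ.ker) {G : ℕ} (h : @RC4 (MonoidAlgebra A N) _ (starMA A N) G) :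
    @RC4 (MonoidAlgebra A H) _ (starMA A H) G := by
  obtain ⟨c1, c2, c3, c4, c5⟩ := h
  exact @RC4.mk _ _ (starMA A H) _ (coh_up N hN c1) (ar1_up N hN c1 c2)
    (arw_up N hN c1 c3) (arf_up N hN c4) (fl_virtF hg htf N hN φ hP c5)

/-- finite index last: the facts of stage 2 for `H` from the ring-theoretic facts for `N` -/
theorem facts4_virt {A : Type u} [CommRing A] [StarRing A] [IsNoetherianRing A] {g : ℕ}
    (hg : FL A g) {d : ℕ} {H : Type v} [Group H] (htf : ∀ h : H, IsOfFinOrder h → h = 1)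
    (N : Subgroup H) (hN : N.FiniteIndex) {X : Type} (φ : N →* FreeGroup X)
    (hP : PolyZ d φ.ker) {G : ℕ} (h : @RC4 (MonoidAlgebra A N) _ (starMA A N) G) :
    Facts4 (MonoidAlgebra A H) (G + 1) :=
  @RC4.facts _ _ (starMA A H) _ (rc4_virt hg htf N hN φ hP h)

end Pool.Agent.UPV
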