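import Mathlib
import Pool.Agent.Lib.UPV.Virt
import Pool.Agent.Lib.UP.U13c

/-!
# Group rings of torsion-free virtually poly-`ℤ` groups
-/

set_option autoImplicit false

open MonoidAlgebra Pool.Agent.UP

namespace Pool.Agent.UPV

universe u v

/-- **the ring theory of `A[H]`** for `H` torsion-free with a poly-`ℤ` subgroup of finite index -/
theorem nfacts_virt {A : Type u} [CommRing A] [StarRing A] [IsNoetherianRing A] (hA : AR A)
    {g : ℕ} (hg : FL A g) (d : ℕ) (H : Type v) [Group H]
    (htf : ∀ h : H, IsOfFinOrder h → h = 1) (N : Subgroup H) (hN : N.FiniteIndex)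
    (hP : PolyZ d N) :
    IsNoetherianRing (MonoidAlgebra A H) ∧ @AR (MonoidAlgebra A H) _ (starMA A H) ∧
      FL (MonoidAlgebra A H) (g + d) :=
  virt_facts_of hg htf N hN hP (polyZ_facts hA hg d N hP)

end Pool.Agent.UPV
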